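import Pool.Agent.SV48.Glue

/-! From one block to the whole tensor space. -/

namespace Pool.Agent.SV48

open Finset

variable {n : ℕ}

/-- the big point of a block -/
private noncomputable def bigP {a r b : Fin n → ℕ} (c : ∀ i, Fin (b i)) (p : Pt a r) :
    Pt (fun i => b i * a i) r :=
  (fun i q Z => if (finProdFinEquiv.symm Z).1 = c i then p.1 i q (finProdFinEquiv.symm Z).2 else 0,
    p.2)

/-- extension by zero -/
private noncomputable def extC {a b : Fin n → ℕ} (c : ∀ i, Fin (b i)) :
    Arr a →ₗ[ℂ] Arr (fun i => b i * a i) where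
  toFun f Y := if ∀ i, (finProdFinEquiv.symm (Y i)).1 = c i then
    f (fun i => (finProdFinEquiv.symm (Y i)).2) else 0
  map_add' f g := by
    funext Y
    simp only [Pi.add_apply]
    split_ifs
    · rfl
    · rw [add_zero]
  map_smul' z f := by
    funext Y
    simp only [Pi.smul_apply, RingHom.id_apply, smul_eq_mul]
    split_ifs
    · rfl
    · rw [mul_zero]

private theorem extC_apply {a b : Fin n → ℕ} (c : ∀ i, Fin (b i)) (f : Arr a)
    (Y : ∀ i, Fin (b i * a i)) :
    extC c f Y = if ∀ i, (finProdFinEquiv.symm (Y i)).1 = c i then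
    f (fun i => (finProdFinEquiv.symm (Y i)).2) else 0 := rfl

private theorem extC_coreV {a r b : Fin n → ℕ} (c : ∀ i, Fin (b i)) (p : Pt a r)
    (q : ∀ i, Fin (r i)) : extC c (coreV p q) = coreV (bigP c p) q := by
  funext Y
  rw [extC_apply]
  unfold coreV bigP
  simp only
  rw [Finset.prod_ite_zero]
  simp only [Finset.mem_univ, true_implies]

private theorem extC_lineV {a r b : Fin n → ℕ} (c : ∀ i, Fin (b i)) (p : Pt a r)
    (i : Fin n) (k : Fin (b i)) (x : Fin (a i)) (j : Fin (r i)) :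
    extC c (lineV p i x j) =
      lineV (bigP (Function.update c i k) p) i (finProdFinEquiv (c i, x)) j := by
  funext Y
  rw [extC_apply]
  unfold lineV bigP
  simp only
  have hY : Y i = finProdFinEquiv (c i, x) ↔
      (finProdFinEquiv.symm (Y i)).1 = c i ∧ (finProdFinEquiv.symm (Y i)).2 = x := by
    rw [← Equiv.symm_apply_eq, Prod.ext_iff]
  have hprod : ∀ q : ∀ i, Fin (r i),
      ∏ l ∈ univ.erase i, (if (finProdFinEquiv.symm (Y l)).1 = Function.update c i k l then
        p.1 l (q l) (finProdFinEquiv.symm (Y l)).2 else 0) =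
      if ∀ l ∈ univ.erase i, (finProdFinEquiv.symm (Y l)).1 = c l then
        ∏ l ∈ univ.erase i, p.1 l (q l) (finProdFinEquiv.symm (Y l)).2 else 0 := by
    intro q
    have h1 : ∏ l ∈ univ.erase i, (if (finProdFinEquiv.symm (Y l)).1 =
          Function.update c i k l then p.1 l (q l) (finProdFinEquiv.symm (Y l)).2 else 0) =
        ∏ l ∈ univ.erase i, (if (finProdFinEquiv.symm (Y l)).1 = c l then
          p.1 l (q l) (finProdFinEquiv.symm (Y l)).2 else 0) := by
      apply Finset.prod_congr rfl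
      intro l hl
      rw [Function.update_of_ne (Finset.ne_of_mem_erase hl)]
    rw [h1, Finset.prod_ite_zero]
    split_ifs <;> rfl
  simp only [hprod]
  by_cases h : ∀ l, (finProdFinEquiv.symm (Y l)).1 = c l
  · rw [if_pos h]
    have h2 : ∀ l ∈ univ.erase i, (finProdFinEquiv.symm (Y l)).1 = c l := fun l _ => h l
    by_cases hx : (finProdFinEquiv.symm (Y i)).2 = x
    · rw [if_pos hx, if_pos (hY.2 ⟨h i, hx⟩)]
      apply Finset.sum_congr rfl
      intro q _
      rw [if_pos h2]
    · rw [if_neg hx, if_neg]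
      intro hcon
      exact hx (hY.1 hcon).2
  · rw [if_neg h]
    symm
    by_cases hi : Y i = finProdFinEquiv (c i, x)
    · rw [if_pos hi]
      apply Finset.sum_eq_zero
      intro q _
      rw [if_neg, mul_zero]
      intro hcon
      apply h
      intro l
      by_cases hl : l = i
      · subst hl
        exact (hY.1 hi).1
      · exact hcon l (Finset.mem_erase.2 ⟨hl, Finset.mem_univ _⟩)
    · rw [if_neg hi]

private theorem extC_single {a b : Fin n → ℕ} (Y : ∀ i, Fin (b i * a i)) :
    extC (fun i => (finProdFinEquiv.symm (Y i)).1)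
      (Pi.single (fun i => (finProdFinEquiv.symm (Y i)).2) (1 : ℂ) : Arr a) =
      (Pi.single Y (1 : ℂ) : Arr (fun i => b i * a i)) := by
  classical
  funext Z
  rw [extC_apply]
  by_cases hZ : Z = Y
  · subst hZ
    simp
  · rw [Pi.single_eq_of_ne hZ]
    split_ifs with h1
    · rw [Pi.single_eq_of_ne]
      intro h2
      apply hZ
      funext i
      have h3 := congrFun h2 i
      have h4 : finProdFinEquiv.symm (Z i) = finProdFinEquiv.symm (Y i) :=
        Prod.ext (h1 i) h3
      exact finProdFinEquiv.symm.injective h4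
    · rfl

private abbrev KK (a r b : Fin n → ℕ) (s : ℕ) (c : ∀ i, Fin (b i)) : Type :=
  (Fin s × (∀ i, Fin (r i))) ⊕
    (Σ i : Fin n, {k : Fin (b i) // k ≠ c i} × Fin s × Fin (a i) × Fin (r i))

private noncomputable def vv (a r b : Fin n → ℕ) (s : ℕ) (c : ∀ i, Fin (b i)) :
    KK a r b s c → (((∀ i, Fin (b i)) × Fin s) → Pt a r) → Arr a
  | Sum.inl (t, q), θ => coreV (θ (c, t)) q
  | Sum.inr ⟨i, (k, t, x, j)⟩, θ => lineV (θ (Function.update c i k.1, t)) i x j

private theorem vv_LP (a r b : Fin n → ℕ) (s : ℕ) (c : ∀ i, Fin (b i)) (k : KK a r b s c)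
    (y : ∀ i, Fin (a i)) : LP (fun θ => vv a r b s c k θ y) := by
  rcases k with ⟨t, q⟩ | ⟨i, k, t, x, j⟩
  · exact LP_coreV (c, t) q y
  · exact LP_lineV (Function.update c i k.1, t) i x j y

private def phi (b : Fin n → ℕ) (s : ℕ) (c : ∀ i, Fin (b i)) :
    (Fin s ⊕ (Σ i : Fin n, {k : Fin (b i) // k ≠ c i} × Fin s)) → (∀ i, Fin (b i)) × Fin s
  | Sum.inl t => (c, t)
  | Sum.inr ⟨i, (k, t)⟩ => (Function.update c i k.1, t)

private theorem phi_inj (b : Fin n → ℕ) (s : ℕ) (c : ∀ i, Fin (b i)) :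
    Function.Injective (phi b s c) := by
  rintro (t | ⟨i, k, t⟩) (t' | ⟨i', k', t'⟩) h
  · have := congrArg Prod.snd h
    exact congrArg Sum.inl this
  · have h1 := congrFun (congrArg Prod.fst h) i'
    have h2 : c i' = Function.update c i' k'.1 i' := h1
    rw [Function.update_self] at h2
    exact absurd h2.symm k'.2
  · have h1 := congrFun (congrArg Prod.fst h) i
    have h2 : Function.update c i k.1 i = c i := h1
    rw [Function.update_self] at h2
    exact absurd h2 k.2
  · have h1 := congrFun (congrArg Prod.fst h) i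
    have h2 : Function.update c i k.1 i = Function.update c i' k'.1 i := h1
    rw [Function.update_self] at h2
    by_cases hi : i = i'
    · subst hi
      rw [Function.update_self] at h2
      have h3 : k = k' := Subtype.ext h2
      have h4 : t = t' := congrArg Prod.snd h
      rw [h3, h4]
    · rw [Function.update_of_ne hi] at h2
      exact absurd h2 k.2

private theorem cond_ok {a r b : Fin n → ℕ} {s : ℕ}
    (h : FillsBlock a r (fun i => (b i - 1) * s) s) (c : ∀ i, Fin (b i)) :
    ∃ θ : ((∀ i, Fin (b i)) × Fin s) → Pt a r,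
      Submodule.span ℂ (Set.range fun k => vv a r b s c k θ) = ⊤ := by
  classical
  obtain ⟨c', p, hsp⟩ := h
  have hcard : ∀ i : Fin n, Fintype.card ({k : Fin (b i) // k ≠ c i} × Fin s) =
      (b i - 1) * s := by
    intro i
    rw [Fintype.card_prod, Fintype.card_fin, Fintype.card_subtype_compl]
    simp
  let e : ∀ i : Fin n, ({k : Fin (b i) // k ≠ c i} × Fin s) ≃ Fin ((b i - 1) * s) :=
    fun i => Fintype.equivFinOfCardEq (hcard i)
  let g : (Fin s ⊕ (Σ i : Fin n, {k : Fin (b i) // k ≠ c i} × Fin s)) → Pt a r := fun u =>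
    match u with
    | Sum.inl t => c' t
    | Sum.inr ⟨i, kt⟩ => p i (e i kt)
  refine ⟨Function.extend (phi b s c) g 0, ?_⟩
  rw [eq_top_iff, ← hsp]
  apply Submodule.span_mono
  rintro V (⟨t, q, rfl⟩ | ⟨i, t', x, j, rfl⟩)
  · refine ⟨Sum.inl (t, q), ?_⟩
    show coreV (Function.extend (phi b s c) g 0 (c, t)) q = _
    have h1 : Function.extend (phi b s c) g 0 (c, t) = c' t :=
      (phi_inj b s c).extend_apply g 0 (Sum.inl t)
    rw [h1]
  · obtain ⟨⟨k, t⟩, hkt⟩ := (e i).surjective t'
    refine ⟨Sum.inr ⟨i, (k, t, x, j)⟩, ?_⟩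
    show lineV (Function.extend (phi b s c) g 0 (Function.update c i k.1, t)) i x j = _
    have h1 : Function.extend (phi b s c) g 0 (Function.update c i k.1, t) = p i (e i (k, t)) :=
      (phi_inj b s c).extend_apply g 0 (Sum.inr ⟨i, (k, t)⟩)
    rw [h1, hkt]

/-- ASSEMBLY.  Index of the big mode `i`: `Fin (b i * a i) ≃ Fin (b i) × Fin (a i)`
(`finProdFinEquiv`).

PROOF.  Blocks `C = ∀ i, Fin (b i)`.  Parameters `E = C → Fin s → Pt a r`.  `glue` with conditions
`c ∈ C`, `Y c = ∀ i, Fin (a i)` and the family, `K c =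
(Fin s × (∀ i, Fin (r i))) ⊕ (Σ i, {k : Fin (b i) // k ≠ c i} × Fin s × Fin (a i) × Fin (r i))`:
`Sum.inl (t, q) ↦ coreV (θ c t) q`, `Sum.inr ⟨i, k, t, x, j⟩ ↦ lineV (θ (update c i k) t) i x j`
(polynomial along lines by `LP_coreV`, `LP_lineV`, composed with the linear map
`θ ↦ θ c`; `LP f → LP (f ∘ linear)`).  Each condition `c` can be satisfied: `h` gives cores
`c' : Fin s → Pt a r` and clusters `p i : Fin ((b i - 1) * s) → Pt a r`; with a bijection
`{k // k ≠ c i} × Fin s ≃ Fin ((b i - 1) * s)` put `θ c t = c' t`,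
`θ (update c i k) t = p i (k, t)` for `k ≠ c i` (the blocks `update c i k`, `k ≠ c i`, and `c` are
pairwise distinct: `(i, k)` is determined by `update c i k`), all other `θ = 0`.
Let `θ` satisfy all conditions.  The big points: for `c ∈ C`, `t < s`,
`Θ (c, t) = (fun i q Z => if (finProdFinEquiv.symm Z).1 = c i then (θ c t).1 i q
(finProdFinEquiv.symm Z).2 else 0, (θ c t).2)` (reindex `C × Fin s ≃ Fin ((∏ b i) * s)`).
`Tan Θ = ⊤`: extension by zero `ext c : Arr a → Arr (b * a)` (linear, `(ext c f) Y = if ∀ i,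
(Y i).1 = c i then f (fun i => (Y i).2) else 0`) maps `coreV (θ c t) q` to `coreV (Θ (c, t)) q` and
`lineV (θ (update c i k) t) i x j` to `lineV (Θ (update c i k, t)) i (finProdFinEquiv (c i, x)) j`.
Every `Pi.single Y 1` is `ext c (Pi.single y 1)` with `c i = (Y i).1`, `y i = (Y i).2`. -/
theorem assemble {a r b : Fin n → ℕ} {s : ℕ}
    (h : FillsBlock a r (fun i => (b i - 1) * s) s) :
    ∃ θ : Fin ((∏ i, b i) * s) → Pt (fun i => b i * a i) r, Tan θ = ⊤ := by
  classical
  obtain ⟨θ, hθ⟩ := glue (E := ((∀ i, Fin (b i)) × Fin s) → Pt a r) (C := ∀ i, Fin (b i))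
    (Y := fun _ => ∀ i, Fin (a i)) (K := fun c => KK a r b s c)
    (fun c k => vv a r b s c k) (fun c k y => vv_LP a r b s c k y) (fun c => cond_ok h c)
  have hcard : Fintype.card (Fin ((∏ i, b i) * s)) = Fintype.card ((∀ i, Fin (b i)) × Fin s) := by
    rw [Fintype.card_fin, Fintype.card_prod, Fintype.card_pi, Fintype.card_fin]
    simp
  let ε : Fin ((∏ i, b i) * s) ≃ (∀ i, Fin (b i)) × Fin s := Fintype.equivOfCardEq hcard
  refine ⟨fun τ => bigP (ε τ).1 (θ (ε τ)), ?_⟩
  set Θ : Fin ((∏ i, b i) * s) → Pt (fun i => b i * a i) r :=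
    fun τ => bigP (ε τ).1 (θ (ε τ)) with hΘ
  have hval : ∀ (d : ∀ i, Fin (b i)) (t : Fin s), Θ (ε.symm (d, t)) = bigP d (θ (d, t)) := by
    intro d t
    show bigP (ε (ε.symm (d, t))).1 (θ (ε (ε.symm (d, t)))) = _
    rw [Equiv.apply_symm_apply]
  have hmap : ∀ (c : ∀ i, Fin (b i)) (f : Arr a), extC c f ∈ Tan Θ := by
    intro c f
    have hf : f ∈ Submodule.span ℂ (Set.range fun k => vv a r b s c k θ) := by
      have := hθ c
      rw [this]
      exact Submodule.mem_top
    have h1 : extC c f ∈ (Submodule.span ℂ (Set.range fun k => vv a r b s c k θ)).map (extC c) :=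
      Submodule.mem_map_of_mem hf
    rw [Submodule.map_span] at h1
    refine Submodule.span_mono ?_ h1
    rintro _ ⟨_, ⟨k, rfl⟩, rfl⟩
    rcases k with ⟨t, q⟩ | ⟨i, k, t, x, j⟩
    · left
      refine ⟨ε.symm (c, t), q, ?_⟩
      rw [hval]
      exact extC_coreV c (θ (c, t)) q
    · right
      refine ⟨ε.symm (Function.update c i k.1, t), i, finProdFinEquiv (c i, x), j, ?_⟩
      rw [hval]
      exact extC_lineV c (θ (Function.update c i k.1, t)) i k.1 x j
  rw [eq_top_iff, ← (Pi.basisFun ℂ (∀ i, Fin (b i * a i))).span_eq]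
  rw [Submodule.span_le]
  rintro _ ⟨Y, rfl⟩
  rw [Pi.basisFun_apply]
  have h1 := hmap (fun i => (finProdFinEquiv.symm (Y i)).1)
    (Pi.single (fun i => (finProdFinEquiv.symm (Y i)).2) (1 : ℂ))
  rw [extC_single] at h1
  exact h1

end Pool.Agent.SV48
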