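import Pool.Agent.SV48.Defs

/-! Partition of a finite set into parts of bounded size. -/

namespace Pool.Agent.SV48

open Finset

/-- PROOF.  The type `T = Σ o : Option (Fin n), Fin (cap o)`, `cap none = α₀`,
`cap (some i) = if i ∈ M then α i else 0`, has `α₀ + ∑ i ∈ M, α i ≥ A` elements, so there is an
injection `Fin A → T`; `f` is its first component. -/
theorem exists_parts {n A : ℕ} (M : Finset (Fin n)) (α₀ : ℕ) (α : Fin n → ℕ)
    (h : A ≤ α₀ + ∑ i ∈ M, α i) :
    ∃ f : Fin A → Option (Fin n), (∀ x i, f x = some i → i ∈ M) ∧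
      (univ.filter (fun x => f x = none)).card ≤ α₀ ∧
      ∀ i, (univ.filter (fun x => f x = some i)).card ≤ α i := by
  classical
  obtain ⟨cap, hcn, hcs⟩ : ∃ cap : Option (Fin n) → ℕ, cap none = α₀ ∧
      ∀ i, cap (some i) = if i ∈ M then α i else 0 :=
    ⟨fun o => o.elim α₀ fun i => if i ∈ M then α i else 0, rfl, fun i => rfl⟩
  have hcard : Fintype.card (Σ o : Option (Fin n), Fin (cap o)) = α₀ + ∑ i ∈ M, α i := by
    rw [Fintype.card_sigma]
    simp only [Fintype.card_fin]
    rw [Fintype.sum_option, hcn]
    congr 1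
    simp only [hcs]
    rw [Finset.sum_ite_mem, univ_inter]
  obtain ⟨e⟩ : Nonempty (Fin A ↪ Σ o : Option (Fin n), Fin (cap o)) := by
    apply Function.Embedding.nonempty_of_card_le
    rw [hcard, Fintype.card_fin]
    exact h
  have hle : ∀ o, (univ.filter (fun x => (e x).1 = o)).card ≤ cap o := by
    intro o
    have h1 : (univ.filter (fun x => (e x).1 = o)).card ≤
        ((univ : Finset (Fin (cap o))).map
          (Function.Embedding.sigmaMk (β := fun o => Fin (cap o)) o)).card := by
      apply card_le_card_of_injOn e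
      · intro x hx
        rw [mem_coe, mem_filter] at hx
        rw [mem_coe, mem_map]
        obtain ⟨-, hx⟩ := hx
        subst hx
        exact ⟨(e x).2, mem_univ _, rfl⟩
      · exact e.injective.injOn
    rwa [card_map, card_univ, Fintype.card_fin] at h1
  refine ⟨fun x => (e x).1, ?_, ?_, ?_⟩
  · intro x i hx
    by_contra hi
    have h1 : cap (e x).1 = 0 := by
      have h2 : (e x).1 = some i := hx
      rw [h2, hcs, if_neg hi]
    have h2 := (e x).2.2
    omega
  · exact (hle none).trans hcn.le
  · intro i
    refine (hle (some i)).trans ?_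
    rw [hcs]
    split_ifs
    · exact le_rfl
    · exact Nat.zero_le _


end Pool.Agent.SV48
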