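import Pool.Agent.SV48.Trans
import Pool.Agent.SV48.Parts

/-! One block is filled. -/

namespace Pool.Agent.SV48

open Finset

variable {n : ℕ}

/-- `A` in the mode `u`, `B` in the mode `v`, everything in the other modes. -/
private def bS {a : Fin n → ℕ} (u v : Fin n) (A : Finset (Fin (a u))) (B : Finset (Fin (a v))) :
    ∀ j, Finset (Fin (a j)) :=
  Function.update (Function.update (fun _ => univ) v B) u A

private lemma bS_u {a : Fin n → ℕ} {u v : Fin n} (A : Finset (Fin (a u)))
    (B : Finset (Fin (a v))) : bS u v A B u = A := Function.update_self ..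

private lemma bS_v {a : Fin n → ℕ} {u v : Fin n} (h : v ≠ u) (A : Finset (Fin (a u)))
    (B : Finset (Fin (a v))) : bS u v A B v = B := by
  unfold bS
  rw [Function.update_of_ne h, Function.update_self]

private lemma bS_o {a : Fin n → ℕ} {u v j : Fin n} (h : j ≠ u) (h' : j ≠ v)
    (A : Finset (Fin (a u))) (B : Finset (Fin (a v))) : bS u v A B j = univ := by
  unfold bS
  rw [Function.update_of_ne h, Function.update_of_ne h']

private lemma bS_mem {a : Fin n → ℕ} {u v : Fin n} (h : v ≠ u) {A : Finset (Fin (a u))}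
    {B : Finset (Fin (a v))} {y : ∀ j, Fin (a j)} (hu : y u ∈ A) (hv : y v ∈ B) (j : Fin n) :
    y j ∈ bS u v A B j := by
  by_cases h1 : j = u
  · subst h1
    rw [bS_u]
    exact hu
  · by_cases h2 : j = v
    · subst h2
      rw [bS_v h]
      exact hv
    · rw [bS_o h1 h2]
      exact Finset.mem_univ _

private lemma bS_cd {a r δ : Fin n → ℕ} (hr : ∀ j, 1 ≤ r j)
    (L : Finset (Fin n)) (hL : ∀ j ∈ L, δ j = r j) (hF : ∀ j, j ∉ L → δ j = 0 ∧ a j = r j)
    {u v : Fin n} (hu : u ∈ L) (hv : v ∈ L) (A : Finset (Fin (a u))) (B : Finset (Fin (a v)))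
    (j : Fin n) : cd (bS u v A B j).card (r j) * r j ≤ (bS u v A B j).card + δ j := by
  by_cases hj : j ∈ L
  · rw [hL j hj]
    exact cd_mul_le (hr j)
  · have h1 : j ≠ u := fun h => hj (h ▸ hu)
    have h2 : j ≠ v := fun h => hj (h ▸ hv)
    rw [bS_o h1 h2, Finset.card_univ, Fintype.card_fin, (hF j hj).1, (hF j hj).2,
      cd_self_mul (hr j)]
    exact le_rfl

private lemma bS_prod {a δ : Fin n → ℕ} {u v : Fin n} (huv : v ≠ u) (A : Finset (Fin (a u)))
    (B : Finset (Fin (a v))) (U : Finset (Fin n)) (hu : u ∈ U) (hv : v ∈ U) :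
    ∏ j ∈ U, ((bS u v A B j).card + δ j) =
      (A.card + δ u) * ((B.card + δ v) * ∏ j ∈ (U.erase u).erase v, (a j + δ j)) := by
  rw [← Finset.mul_prod_erase U _ hu, bS_u,
    ← Finset.mul_prod_erase (U.erase u) _ (Finset.mem_erase.2 ⟨huv, hv⟩), bS_v huv]
  congr 2
  refine Finset.prod_congr rfl fun j hj => ?_
  rw [Finset.mem_erase, Finset.mem_erase] at hj
  rw [bS_o hj.2.1 hj.1, Finset.card_univ, Fintype.card_fin]

/-- BLOCK LEMMA.  `δ j = r j` for the large modes `j ∈ L` and `δ j = 0`, `a j = r j` for the full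
modes `j ∉ L`.

PROOF.  Choose `Sv ⊆ Fin (a v)` of size `βv`, `Sw ⊆ Fin (a w)` of size `βw`
(`Finset.exists_subset_card_eq` from `univ`).  `trans` gives the clusters `p u` in direction `u`
(`hδ`: by `cd_mul_le` for `j ∈ L`, by `cd_self_mul` for `j ∉ L`).  `exists_parts` with
`M = L.erase u` gives `f : Fin (a u) → Option (Fin n)`, `I o = {x | f x = o}`.
* cores `c` : `coreB` with `S u = I none`, `S v = Svᶜ`, `S j = univ` otherwise
  (`|Svᶜ| = a v - βv`), hypothesis `h4` (if `S u` is nonempty then `0 < α₀` and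
  `|S u| ≤ α₀`).
* `p i` for `i ∈ L`, `i ≠ u`, `i ≠ v`: `clusterB` with direction `i`, Vandermonde mode `u`,
  `S u = I (some i)`, `S v = Svᶜ`, `S j = univ` otherwise; hypothesis `h2`.
* `p v`: `clusterB` with direction `v`, Vandermonde mode `u`, `S u = I (some v)`, `S w = Swᶜ`,
  `S j = univ` otherwise; hypothesis `h3`.
* `p i` for `i ∉ L`: `0`.
To see that the span `W` of all vectors is `⊤`, take `y` and show `Pi.single y 1 ∈ W`
(`Pi.single` basis).  Let `o = f (y u)`.  If `o = some v`, use the second part of `trans`: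
`Pi.single y 1` is in the span of line vectors of direction `u` and of the `Pi.single z 1` with
`z u = y u`, `z w ∉ Sw`; such a `z` has `z u ∈ I (some v)`, `z w ∈ Swᶜ`, so
`Pi.single z 1 ∈ W` by the clusters `p v`.  If `o ≠ some v`, use the first part: the
`Pi.single z 1` with `z u = y u`, `z v ∉ Sv` are in `W` by the cores (`o = none`) or by the
clusters `p i` (`o = some i`, `i ∈ L`, `i ≠ u`, `i ≠ v`). -/
theorem block {a r δ N : Fin n → ℕ} {s : ℕ} (hr : ∀ j, 1 ≤ r j)
    (hred : ∀ i, r i ≤ ∏ j ∈ univ.erase i, r j)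
    (L : Finset (Fin n)) (hL : ∀ j ∈ L, δ j = r j) (hF : ∀ j, j ∉ L → δ j = 0 ∧ a j = r j)
    {u v w : Fin n} (hu : u ∈ L) (hv : v ∈ L) (hw : w ∈ L) (huv : u ≠ v) (huw : u ≠ w)
    (hvw : v ≠ w) (βv βw α₀ : ℕ) (α : Fin n → ℕ) (hβv : βv ≤ a v) (hβw : βw ≤ a w)
    (h1v : 0 < βv → (βv + r v) * ∏ j ∈ (univ.erase u).erase v, (a j + δ j) ≤ N u * r u)
    (h1w : 0 < βw → (βw + r w) * ∏ j ∈ (univ.erase u).erase w, (a j + δ j) ≤ N u * r u)
    (h2 : ∀ i ∈ L, i ≠ u → i ≠ v → 0 < α i →
      (α i + r u) * ((a v - βv + r v) * ∏ j ∈ ((univ.erase i).erase u).erase v, (a j + δ j)) ≤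
        N i * r i)
    (h3 : 0 < α v →
      (α v + r u) * ((a w - βw + r w) * ∏ j ∈ ((univ.erase v).erase u).erase w, (a j + δ j)) ≤
        N v * r v)
    (h4 : 0 < α₀ →
      (α₀ + r u) * ((a v - βv + r v) * ∏ j ∈ (univ.erase u).erase v, (a j + δ j)) ≤
        s * ∏ j, r j)
    (h5 : a u ≤ α₀ + ∑ i ∈ L.erase u, α i) :
    FillsBlock a r N s := by
  classical
  obtain ⟨Sv, -, hSv⟩ := Finset.exists_subset_card_eq (s := (univ : Finset (Fin (a v))))
    (n := βv) (by rwa [Finset.card_univ, Fintype.card_fin])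
  obtain ⟨Sw, -, hSw⟩ := Finset.exists_subset_card_eq (s := (univ : Finset (Fin (a w))))
    (n := βw) (by rwa [Finset.card_univ, Fintype.card_fin])
  have hSvc : (Svᶜ).card = a v - βv := by rw [Finset.card_compl, Fintype.card_fin, hSv]
  have hSwc : (Swᶜ).card = a w - βw := by rw [Finset.card_compl, Fintype.card_fin, hSw]
  have hcd : ∀ j, cd (a j) (r j) * r j ≤ a j + δ j := by
    intro j
    by_cases hj : j ∈ L
    · rw [hL j hj]
      exact cd_mul_le (hr j)
    · rw [(hF j hj).1, (hF j hj).2, cd_self_mul (hr j)]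
      exact le_rfl
  obtain ⟨pu, hpu⟩ := trans (N := N u) huv huw hvw hr (hred u) hcd (hL v hv) (hL w hw) Sv Sw
    (fun h => by
      rw [hSv]
      exact h1v (by rw [← hSv]; exact Finset.card_pos.2 h))
    (fun h => by
      rw [hSw]
      exact h1w (by rw [← hSw]; exact Finset.card_pos.2 h))
  obtain ⟨f, hf1, hf2, hf3⟩ := exists_parts (L.erase u) α₀ α h5
  -- the cores
  obtain ⟨c, hc⟩ := coreB (a := a) (r := r) (δ := δ) hr
    (bS u v (univ.filter fun x => f x = none) Svᶜ)
    (bS_cd hr L hL hF hu hv _ _) s (fun hne => by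
      have h0 : (univ.filter fun x => f x = none).Nonempty := by
        have := hne u
        rwa [bS_u] at this
      rw [bS_prod huv.symm _ _ univ (Finset.mem_univ u) (Finset.mem_univ v), hL u hu, hL v hv,
        hSvc]
      refine le_trans ?_ (h4 (lt_of_lt_of_le (Finset.card_pos.2 h0) hf2))
      exact Nat.mul_le_mul_right _ (Nat.add_le_add_right hf2 _))
  -- the clusters
  have hex : ∀ i, ∃ p : Fin (N i) → Pt a r,
      (i = u → ∀ y : ∀ j, Fin (a j),
        (Pi.single y 1 : Arr a) ∈ Submodule.span ℂ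
          ({V | ∃ t j, V = lineV (p t) i (y i) j} ∪
            {V | ∃ z : ∀ j, Fin (a j), z i = y i ∧ z v ∉ Sv ∧ V = Pi.single z 1}) ∧
        (Pi.single y 1 : Arr a) ∈ Submodule.span ℂ
          ({V | ∃ t j, V = lineV (p t) i (y i) j} ∪
            {V | ∃ z : ∀ j, Fin (a j), z i = y i ∧ z w ∉ Sw ∧ V = Pi.single z 1})) ∧
      (i ∈ L → i ≠ u → i ≠ v → ∀ y : ∀ j, Fin (a j), f (y u) = some i → y v ∉ Sv →
        (Pi.single y 1 : Arr a) ∈ Submodule.span ℂ
          (Set.range fun k : Fin (N i) × Fin (r i) => lineV (p k.1) i (y i) k.2)) ∧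
      (i = v → ∀ y : ∀ j, Fin (a j), f (y u) = some v → y w ∉ Sw →
        (Pi.single y 1 : Arr a) ∈ Submodule.span ℂ
          (Set.range fun k : Fin (N i) × Fin (r i) => lineV (p k.1) i (y i) k.2)) := by
    intro i
    by_cases hiu : i = u
    · subst hiu
      exact ⟨pu, fun _ => hpu, fun _ h => absurd rfl h, fun h => absurd h huv⟩
    · by_cases hiv : i = v
      · subst hiv
        obtain ⟨p, hp⟩ := clusterB (a := a) (r := r) (δ := δ) i u huv.symm hr (hred i)
          (bS u w (univ.filter fun x => f x = some i) Swᶜ)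
          (fun j _ _ => bS_cd hr L hL hF hu hw _ _ j) (hL u hu).ge (N i) (fun hne => by
            have h0 : (univ.filter fun x => f x = some i).Nonempty := by
              have := hne u huv
              rwa [bS_u] at this
            rw [bS_prod huw.symm _ _ (univ.erase i)
              (Finset.mem_erase.2 ⟨huv, Finset.mem_univ u⟩)
              (Finset.mem_erase.2 ⟨hvw.symm, Finset.mem_univ w⟩), hL u hu, hL w hw, hSwc]
            refine le_trans ?_ (h3 (lt_of_lt_of_le (Finset.card_pos.2 h0) (hf3 i)))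
            exact Nat.mul_le_mul_right _ (Nat.add_le_add_right (hf3 i) _))
        refine ⟨p, fun h => absurd h hiu, fun _ _ h => absurd rfl h, fun _ y hy1 hy2 => ?_⟩
        refine hp y fun j _ => bS_mem huw.symm ?_ ?_ j
        · rw [Finset.mem_filter]
          exact ⟨Finset.mem_univ _, hy1⟩
        · rw [Finset.mem_compl]
          exact hy2
      · by_cases hiL : i ∈ L
        · obtain ⟨p, hp⟩ := clusterB (a := a) (r := r) (δ := δ) i u hiu hr (hred i)
            (bS u v (univ.filter fun x => f x = some i) Svᶜ)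
            (fun j _ _ => bS_cd hr L hL hF hu hv _ _ j) (hL u hu).ge (N i) (fun hne => by
              have h0 : (univ.filter fun x => f x = some i).Nonempty := by
                have := hne u (fun h => hiu h.symm)
                rwa [bS_u] at this
              rw [bS_prod huv.symm _ _ (univ.erase i)
                (Finset.mem_erase.2 ⟨fun h => hiu h.symm, Finset.mem_univ u⟩)
                (Finset.mem_erase.2 ⟨fun h => hiv h.symm, Finset.mem_univ v⟩), hL u hu, hL v hv,
                hSvc]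
              refine le_trans ?_
                (h2 i hiL hiu hiv (lt_of_lt_of_le (Finset.card_pos.2 h0) (hf3 i)))
              exact Nat.mul_le_mul_right _ (Nat.add_le_add_right (hf3 i) _))
          refine ⟨p, fun h => absurd h hiu, fun _ _ _ y hy1 hy2 => ?_, fun h => absurd h hiv⟩
          refine hp y fun j _ => bS_mem huv.symm ?_ ?_ j
          · rw [Finset.mem_filter]
            exact ⟨Finset.mem_univ _, hy1⟩
          · rw [Finset.mem_compl]
            exact hy2
        · exact ⟨fun _ => 0, fun h => absurd h hiu, fun h => absurd h hiL,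
            fun h => absurd h hiv⟩
  choose p hp1 hp2 hp3 using hex
  refine ⟨c, p, ?_⟩
  set W : Submodule ℂ (Arr a) := Submodule.span ℂ ({V | ∃ t q, V = coreV (c t) q} ∪
      {V | ∃ i t x j, V = lineV (p i t) i x j}) with hW
  have hline : ∀ i t x j, lineV (p i t) i x j ∈ W := fun i t x j =>
    Submodule.subset_span (Or.inr ⟨i, t, x, j, rfl⟩)
  have hcore : ∀ t q, coreV (c t) q ∈ W := fun t q =>
    Submodule.subset_span (Or.inl ⟨t, q, rfl⟩)
  have hlw : ∀ i x, Submodule.span ℂ
      (Set.range fun k : Fin (N i) × Fin (r i) => lineV (p i k.1) i x k.2) ≤ W := by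
    intro i x
    rw [Submodule.span_le]
    rintro _ ⟨k, rfl⟩
    exact hline i k.1 x k.2
  have hmain : ∀ y : ∀ j, Fin (a j), (Pi.single y 1 : Arr a) ∈ W := by
    intro y
    obtain ⟨hA, hB⟩ := hp1 u rfl y
    by_cases ho : f (y u) = some v
    · refine (Submodule.span_le.2 ?_) hB
      rintro V (⟨t, j, rfl⟩ | ⟨z, hz1, hz2, rfl⟩)
      · exact hline u t _ j
      · exact hlw v _ (hp3 v rfl z (by rw [hz1]; exact ho) hz2)
    · refine (Submodule.span_le.2 ?_) hA
      rintro V (⟨t, j, rfl⟩ | ⟨z, hz1, hz2, rfl⟩)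
      · exact hline u t _ j
      · cases ho' : f (y u) with
        | none =>
          have h6 := hc z (fun j => bS_mem huv.symm (by
            rw [Finset.mem_filter, hz1]
            exact ⟨Finset.mem_univ _, ho'⟩) (by
            rw [Finset.mem_compl]
            exact hz2) j)
          refine (Submodule.span_le.2 ?_) h6
          rintro _ ⟨k, rfl⟩
          exact hcore k.1 k.2
        | some i =>
          have h7 := Finset.mem_erase.1 (hf1 _ _ ho')
          have hiv : i ≠ v := fun h => ho (by rw [ho', h])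
          exact hlw i _ (hp2 i h7.2 h7.1 hiv z (by rw [hz1]; exact ho') hz2)
  rw [eq_top_iff]
  intro g _
  have hg : g = ∑ y, g y • (Pi.single y 1 : Arr a) := by
    funext z
    rw [Finset.sum_apply, Finset.sum_eq_single z]
    · rw [Pi.smul_apply, Pi.single_eq_same, smul_eq_mul, mul_one]
    · intro y _ hy
      rw [Pi.smul_apply, Pi.single_eq_of_ne (Ne.symm hy), smul_zero]
    · intro h
      exact absurd (Finset.mem_univ z) h
  rw [hg]
  exact Submodule.sum_mem _ fun y _ => Submodule.smul_mem _ _ (hmain y)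

end Pool.Agent.SV48
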