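import Pool.Agent.SV48.Vand

/-! A coordinate box is covered by few clusters of lines in one direction. -/

namespace Pool.Agent.SV48

open Finset

variable {n : ℕ}

/-- The index of `x` in `S`. -/
def ixc {a : ℕ} (S : Finset (Fin a)) (x : Fin a) : ℕ := (S.filter (· < x)).card

theorem ixc_lt {a : ℕ} (S : Finset (Fin a)) {x : Fin a} (hx : x ∈ S) : ixc S x < S.card := by
  apply Finset.card_lt_card
  rw [Finset.ssubset_iff_of_subset (Finset.filter_subset _ _)]
  exact ⟨x, hx, by simp⟩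

theorem ixc_mono {a : ℕ} (S : Finset (Fin a)) {x y : Fin a} (hx : x ∈ S) (h : x < y) :
    ixc S x < ixc S y := by
  apply Finset.card_lt_card
  have hsub : S.filter (· < x) ⊆ S.filter (· < y) := by
    intro z hz
    rw [Finset.mem_filter] at hz ⊢
    exact ⟨hz.1, lt_trans hz.2 h⟩
  rw [Finset.ssubset_iff_of_subset hsub]
  exact ⟨x, by simp [hx, h], by simp⟩

theorem ixc_inj {a : ℕ} (S : Finset (Fin a)) {x y : Fin a} (hx : x ∈ S) (hy : y ∈ S)
    (h : ixc S x = ixc S y) : x = y := by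
  rcases lt_trichotomy x y with h1 | h1 | h1
  · exact absurd h (ixc_mono S hx h1).ne
  · exact h1
  · exact absurd h.symm (ixc_mono S hy h1).ne

/-- The point of a cluster. -/
def clPt {a r : Fin n → ℕ} (i v : Fin n) (S : ∀ j, Finset (Fin (a j))) (P : ℕ)
    (e : (∀ j : {j // j ∈ (univ.erase i).erase v}, Fin (r j)) ≃ Fin P)
    (κ : Fin n → ℕ) (l : ℕ) : Pt a r :=
  (fun j q x => if j = v then vm (S j) (l * r j + q) x
    else if x ∈ S j ∧ ixc (S j) x = κ j * r j + q then 1 else 0,
   fun q => if ((e (fun j => q j) : ℕ) = (l * r i + q i) % P ∧ (q v : ℕ) = q i / P)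
    then 1 else 0)

/-- The array with value `w (y' v)` on the line through `y` in the direction `v`. -/
def lineMap {a : Fin n → ℕ} (v : Fin n) (y : ∀ j, Fin (a j)) :
    (Fin (a v) → ℂ) →ₗ[ℂ] Arr a where
  toFun w := fun y' => if ∀ j, j ≠ v → y' j = y j then w (y' v) else 0
  map_add' w w' := by
    funext y'
    by_cases h : ∀ j, j ≠ v → y' j = y j
    · simp only [if_pos h, Pi.add_apply]
    · simp only [if_neg h, Pi.add_apply, add_zero]
  map_smul' c w := by
    funext y'
    by_cases h : ∀ j, j ≠ v → y' j = y j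
    · simp only [if_pos h, Pi.smul_apply, RingHom.id_apply]
    · simp only [if_neg h, Pi.smul_apply, smul_zero, RingHom.id_apply]

theorem lineMap_single {a : Fin n → ℕ} (v : Fin n) (y : ∀ j, Fin (a j)) :
    lineMap v y (Pi.single (y v) 1) = Pi.single y 1 := by
  funext y'
  change (if ∀ j, j ≠ v → y' j = y j then (Pi.single (y v) 1 : Fin (a v) → ℂ) (y' v) else 0) = _
  by_cases hy : y' = y
  · subst hy
    simp
  · rw [Pi.single_eq_of_ne hy]
    by_cases h : ∀ j, j ≠ v → y' j = y j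
    · rw [if_pos h, Pi.single_eq_of_ne]
      intro hv
      apply hy
      funext j
      by_cases hj : j = v
      · rw [hj]; exact hv
      · exact h j hj
    · rw [if_neg h]

theorem lineV_clPt {a r : Fin n → ℕ} (i v : Fin n) (hiv : i ≠ v) (hr : ∀ j, 1 ≤ r j)
    (S : ∀ j, Finset (Fin (a j))) (P : ℕ)
    (e : (∀ j : {j // j ∈ (univ.erase i).erase v}, Fin (r j)) ≃ Fin P)
    (y : ∀ j, Fin (a j)) (hy : ∀ j, j ≠ i → y j ∈ S j)
    (κ : Fin n → ℕ) (hκ : ∀ j, j ≠ i → j ≠ v → κ j = ixc (S j) (y j) / r j) (l : ℕ)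
    (j : Fin (r i)) (hj : (j : ℕ) / P < r v)
    (he : (e (fun j' => ⟨ixc (S j') (y j') % r j', Nat.mod_lt _ (hr j')⟩) : ℕ) =
      (l * r i + j) % P) :
    lineV (clPt i v S P e κ l) i (y i) j = lineMap v y (vm (S v) (l * r v + j / P)) := by
  classical
  funext y'
  change (if y' i = y i then
    ∑ q ∈ univ.filter (fun q : ∀ i, Fin (r i) => q i = j),
      (clPt i v S P e κ l).2 q * ∏ l' ∈ univ.erase i, (clPt i v S P e κ l).1 l' (q l') (y' l')
      else 0) = (if ∀ j, j ≠ v → y' j = y j then (vm (S v) (l * r v + j / P)) (y' v) else 0)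
  by_cases h0 : y' i = y i
  swap
  · rw [if_neg h0, if_neg]
    intro h
    exact h0 (h i hiv)
  rw [if_pos h0]
  -- the unique index
  set base : ∀ j', Fin (r j') := fun j' => ⟨ixc (S j') (y j') % r j', Nat.mod_lt _ (hr j')⟩
    with hbase
  set q0 : ∀ j', Fin (r j') := Function.update (Function.update base v ⟨j / P, hj⟩) i j with hq0
  have hq0i : q0 i = j := by rw [hq0, Function.update_self]
  have hq0v : (q0 v : ℕ) = j / P := by
    rw [hq0, Function.update_of_ne hiv.symm, Function.update_self]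
  have hq0R : ∀ j', j' ≠ i → j' ≠ v → q0 j' = base j' := by
    intro j' h1 h2
    rw [hq0, Function.update_of_ne h1, Function.update_of_ne h2]
  have hR : (fun j' : {j // j ∈ (univ.erase i).erase v} => q0 j') =
      fun j' : {j // j ∈ (univ.erase i).erase v} => base j' := by
    funext j'
    have := j'.2
    rw [Finset.mem_erase, Finset.mem_erase] at this
    exact hq0R _ this.2.1 this.1
  have hcore : (clPt i v S P e κ l).2 q0 = 1 := by
    change (if ((e (fun j => q0 j) : ℕ) = (l * r i + q0 i) % P ∧ (q0 v : ℕ) = q0 i / P)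
      then (1:ℂ) else 0) = 1
    rw [if_pos]
    refine ⟨?_, ?_⟩
    · rw [hR, hq0i]; exact he
    · rw [hq0v, hq0i]
  have huniq : ∀ q : ∀ j', Fin (r j'), q i = j → q ≠ q0 → (clPt i v S P e κ l).2 q = 0 := by
    intro q hqi hne
    change (if ((e (fun j => q j) : ℕ) = (l * r i + q i) % P ∧ (q v : ℕ) = q i / P)
      then (1:ℂ) else 0) = 0
    rw [if_neg]
    rintro ⟨h1, h2⟩
    apply hne
    rw [hqi] at h1 h2
    rw [← he] at h1
    have h3 := e.injective (Fin.ext h1)
    funext j'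
    by_cases c1 : j' = i
    · subst c1; rw [hqi, hq0i]
    · by_cases c2 : j' = v
      · subst c2; apply Fin.ext; rw [h2, hq0v]
      · rw [hq0R j' c1 c2]
        have := congrFun h3 ⟨j', by rw [Finset.mem_erase, Finset.mem_erase]; exact ⟨c2, c1, Finset.mem_univ _⟩⟩
        exact this
  rw [Finset.sum_eq_single_of_mem q0 (by simp [hq0i])]
  swap
  · intro q hq hne
    rw [Finset.mem_filter] at hq
    rw [huniq q hq.2 hne, zero_mul]
  rw [hcore, one_mul]
  -- product
  have hvmem : v ∈ univ.erase i := by simp [hiv.symm]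
  rw [← Finset.mul_prod_erase _ _ hvmem]
  have hvv : (clPt i v S P e κ l).1 v (q0 v) (y' v) = vm (S v) (l * r v + j / P) (y' v) := by
    change (if v = v then vm (S v) (l * r v + (q0 v : ℕ)) (y' v)
      else if y' v ∈ S v ∧ ixc (S v) (y' v) = κ v * r v + (q0 v : ℕ) then 1 else 0) = _
    rw [if_pos rfl, hq0v]
  have hjj : ∀ j' ∈ (univ.erase i).erase v, (clPt i v S P e κ l).1 j' (q0 j') (y' j') =
      if y' j' = y j' then 1 else 0 := by
    intro j' hj'
    rw [Finset.mem_erase, Finset.mem_erase] at hj'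
    change (if j' = v then vm (S j') (l * r j' + (q0 j' : ℕ)) (y' j')
      else if y' j' ∈ S j' ∧ ixc (S j') (y' j') = κ j' * r j' + (q0 j' : ℕ) then 1 else 0) = _
    rw [if_neg hj'.1]
    have hidx : κ j' * r j' + (q0 j' : ℕ) = ixc (S j') (y j') := by
      rw [hκ j' hj'.2.1 hj'.1, hq0R j' hj'.2.1 hj'.1]
      change ixc (S j') (y j') / r j' * r j' + ixc (S j') (y j') % r j' = _
      rw [mul_comm]; exact Nat.div_add_mod _ _
    rw [hidx]
    by_cases c : y' j' = y j'
    · rw [if_pos c, if_pos]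
      rw [c]; exact ⟨hy j' hj'.2.1, rfl⟩
    · rw [if_neg c, if_neg]
      rintro ⟨c1, c2⟩
      exact c (ixc_inj _ c1 (hy j' hj'.2.1) c2)
  rw [hvv, Finset.prod_congr rfl hjj]
  by_cases hall : ∀ j, j ≠ v → y' j = y j
  · rw [if_pos hall, Finset.prod_eq_one, mul_one]
    intro j' hj'
    rw [Finset.mem_erase] at hj'
    rw [if_pos (hall j' hj'.1)]
  · rw [if_neg hall]
    push Not at hall
    obtain ⟨j', c1, c2⟩ := hall
    have c3 : j' ≠ i := by rintro rfl; exact c2 h0
    rw [Finset.prod_eq_zero (i := j'), mul_zero]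
    · simp [c1, c3]
    · rw [if_neg c2]

/-- CLUSTER LEMMA.  Direction `i`, Vandermonde mode `v ≠ i`, `P = ∏_{j ≠ i, v} r_j`.

PROOF.  Let `R = {j // j ≠ i ∧ j ≠ v}`.  Index the points by
`(κ, l)`, `κ ∈ ∏_{j ∈ R} Fin (cd |S_j| r_j)`, `l < L := cd (P |S_v|) r_i` (embed this type in
`Fin N` by `hN`; all other points are `0`).  Let `e : (∀ j : R, Fin (r j)) ≃ Fin P`.  Point `(κ, l)`:
* `g_j(q) = Pi.single (z) 1` where `z` is the element number `κ_j r_j + q` of `S_j` (increasing
  enumeration, `Finset.orderEmbOfFin` or any bijection with `Fin |S_j|`), and `0` if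
  `κ_j r_j + q ≥ |S_j|`, for `j ∈ R`;
* `g_v(q) = vm (S_v) (l * r_v + q)`;  `g_i = 0` (irrelevant);
* core `τ(q) = 1` if `(q_j)_{j ∈ R} = e.symm ((l * r_i + q_i) % P)` and `q_v = q_i / P`, and `0`
  otherwise.  (`q_i / P < r_v` because `q_i < r_i ≤ P r_v`, hypothesis `hred`.)
Then `lineV p i x j` is the array `y ↦ [y_i = x] * ∏_{l' ∈ R} g_{l'}(ρ_{l'})(y_{l'}) *
vm S_v (l r_v + j / P) (y_v)`, `ρ = e.symm ((l r_i + j) % P)`, `j : Fin (r i)`.
Fix `y` with `y_j ∈ S_j` for `j ≠ i`: let `κ`, `ρ` be such that `y_j` is the element number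
`κ_j r_j + ρ_j` of `S_j`, `j ∈ R`.  For all pairs `(l, j)` with `(l r_i + j) % P = e ρ`, the span
contains the array `E ⊗ vm S_v (l r_v + j / P)` with `E` = basis vector on all modes but `v`.
The numbers `l r_v + j / P` are pairwise distinct for these pairs (`l` is the quotient by `r_v`;
for the same `l` two different `j` congruent mod `P` have different `j / P`), and the number of
pairs is the number of integers `z < L r_i` with `z % P = e ρ`, at least `⌊L r_i / P⌋ ≥ |S_v|`
(as `L r_i ≥ P |S_v|`; e.g. the `z = e ρ + P c`, `c < |S_v|`).  So by `vm_span` the span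
contains `E ⊗ Pi.single (y_v) 1 = Pi.single y 1`. -/
theorem cluster {a r : Fin n → ℕ} (i v : Fin n) (hiv : i ≠ v) (hr : ∀ j, 1 ≤ r j)
    (hred : r i ≤ (∏ j ∈ (univ.erase i).erase v, r j) * r v)
    (S : ∀ j, Finset (Fin (a j))) (N : ℕ)
    (hN : (∏ j ∈ (univ.erase i).erase v, cd (S j).card (r j)) *
      cd ((∏ j ∈ (univ.erase i).erase v, r j) * (S v).card) (r i) ≤ N) :
    ∃ p : Fin N → Pt a r, ∀ y : ∀ j, Fin (a j), (∀ j, j ≠ i → y j ∈ S j) →
      (Pi.single y 1 : Arr a) ∈ Submodule.span ℂ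
        (Set.range fun k : Fin N × Fin (r i) => lineV (p k.1) i (y i) k.2) := by
  classical
  set R := (univ.erase i).erase v with hR
  set P := ∏ j ∈ R, r j with hP
  set L := cd (P * (S v).card) (r i) with hL
  have hP0 : 0 < P := Finset.prod_pos fun j _ => hr j
  have hcardE : Fintype.card (∀ j : {j // j ∈ R}, Fin (r j)) = P := by
    rw [Fintype.card_pi, hP, ← Finset.prod_coe_sort R (fun j => r j)]
    exact Finset.prod_congr rfl fun j _ => Fintype.card_fin _
  let e : (∀ j : {j // j ∈ R}, Fin (r j)) ≃ Fin P :=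
    (Fintype.equivFin _).trans (finCongr hcardE)
  let Γ := (∀ j : {j // j ∈ R}, Fin (cd (S j).card (r j))) × Fin L
  have hcardΓ : Fintype.card Γ ≤ Fintype.card (Fin N) := by
    change Fintype.card ((∀ j : {j // j ∈ R}, Fin (cd (S j).card (r j))) × Fin L) ≤ _
    rw [Fintype.card_prod, Fintype.card_pi, Fintype.card_fin, Fintype.card_fin]
    have : ∏ a_1 : {j // j ∈ R}, Fintype.card (Fin (cd (S a_1).card (r a_1))) =
        ∏ j ∈ R, cd (S j).card (r j) := by
      rw [← Finset.prod_coe_sort R (fun j => cd (S j).card (r j))]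
      exact Finset.prod_congr rfl fun j _ => Fintype.card_fin _
    rw [this]
    exact hN
  obtain ⟨f⟩ := Function.Embedding.nonempty_of_card_le hcardΓ
  let pΓ : Γ → Pt a r := fun γ =>
    clPt i v S P e (fun j => if h : j ∈ R then (γ.1 ⟨j, h⟩ : ℕ) else 0) γ.2
  refine ⟨Function.extend f pΓ 0, ?_⟩
  intro y hy
  have hri : 0 < r i := hr i
  have hcd : ∀ x r' : ℕ, 0 < r' → x ≤ cd x r' * r' := by
    intro x r' hr'
    unfold cd
    have h1 := Nat.div_add_mod (x + r' - 1) r'
    have h2 := Nat.mod_lt (x + r' - 1) hr'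
    rw [mul_comm] at h1
    omega
  have hLr : P * (S v).card ≤ L * r i := hcd _ _ hri
  -- κ
  have hκlt : ∀ j ∈ R, ixc (S j) (y j) / r j < cd (S j).card (r j) := by
    intro j hj
    rw [hR, Finset.mem_erase, Finset.mem_erase] at hj
    have h1 := ixc_lt (S j) (hy j hj.2.1)
    rw [Nat.div_lt_iff_lt_mul (hr j)]
    exact lt_of_lt_of_le h1 (hcd _ _ (hr j))
  let κ : ∀ j : {j // j ∈ R}, Fin (cd (S j).card (r j)) :=
    fun j => ⟨ixc (S j) (y j) / r j, hκlt j j.2⟩
  set eρ : ℕ := (e (fun j' => ⟨ixc (S j') (y j') % r j', Nat.mod_lt _ (hr j')⟩) : ℕ) with heρ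
  have heρlt : eρ < P := Fin.is_lt _
  let F : ℕ → ℕ := fun c => ((eρ + P * c) / r i) * r v + ((eρ + P * c) % r i) / P
  have hjv : ∀ j : ℕ, j < r i → j / P < r v := by
    intro j hj
    rw [Nat.div_lt_iff_lt_mul hP0, mul_comm]
    exact lt_of_lt_of_le hj hred
  have hinj : Set.InjOn F (Finset.range (S v).card) := by
    intro c1 _ c2 _ h
    change ((eρ + P * c1) / r i) * r v + ((eρ + P * c1) % r i) / P =
      ((eρ + P * c2) / r i) * r v + ((eρ + P * c2) % r i) / P at h
    have hj1 := hjv _ (Nat.mod_lt (eρ + P * c1) hri)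
    have hj2 := hjv _ (Nat.mod_lt (eρ + P * c2) hri)
    have hv0 : 0 < r v := hr v
    have hl : (eρ + P * c1) / r i = (eρ + P * c2) / r i := by
      have h1 : ((eρ + P * c1) / r i * r v + (eρ + P * c1) % r i / P) / r v =
          (eρ + P * c1) / r i := by
        rw [mul_comm, Nat.mul_add_div hv0, Nat.div_eq_of_lt hj1, add_zero]
      have h2 : ((eρ + P * c2) / r i * r v + (eρ + P * c2) % r i / P) / r v =
          (eρ + P * c2) / r i := by
        rw [mul_comm, Nat.mul_add_div hv0, Nat.div_eq_of_lt hj2, add_zero]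
      rw [← h1, ← h2, h]
    rw [hl] at h
    have hq : (eρ + P * c1) % r i / P = (eρ + P * c2) % r i / P := Nat.add_left_cancel h
    have hz1 := Nat.div_add_mod (eρ + P * c1) (r i)
    have hz2 := Nat.div_add_mod (eρ + P * c2) (r i)
    rw [hl] at hz1
    -- j1 ≡ j2 mod P
    set j1 := (eρ + P * c1) % r i
    set j2 := (eρ + P * c2) % r i
    set A := r i * ((eρ + P * c2) / r i)
    have hm1 : (A + j1) % P = eρ := by
      rw [hz1, Nat.add_mul_mod_self_left, Nat.mod_eq_of_lt heρlt]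
    have hm2 : (A + j2) % P = eρ := by
      rw [hz2, Nat.add_mul_mod_self_left, Nat.mod_eq_of_lt heρlt]
    have hmod : j1 ≡ j2 [MOD P] := by
      apply Nat.ModEq.add_left_cancel' A
      change (A + j1) % P = (A + j2) % P
      rw [hm1, hm2]
    have hjj : j1 = j2 := by
      rw [← Nat.div_add_mod j1 P, ← Nat.div_add_mod j2 P, hq, hmod]
    rw [hjj] at hz1
    have : P * c1 = P * c2 := by omega
    exact Nat.eq_of_mul_eq_mul_left hP0 this
  let K : Finset ℕ := (Finset.range (S v).card).image F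
  have hK : (S v).card ≤ K.card := by
    rw [Finset.card_image_of_injOn hinj, Finset.card_range]
  have hspan := vm_span (S v) K hK (y v) (hy v hiv.symm)
  have hmap := Submodule.mem_map_of_mem (f := lineMap v y) hspan
  rw [lineMap_single, Submodule.map_span] at hmap
  refine Submodule.span_mono ?_ hmap
  rintro _ ⟨_, ⟨k, hk, rfl⟩, rfl⟩
  rw [Finset.mem_coe, Finset.mem_image] at hk
  obtain ⟨c, hc, rfl⟩ := hk
  rw [Finset.mem_range] at hc
  set z := eρ + P * c with hz
  have hzlt : z < L * r i := by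
    refine lt_of_lt_of_le ?_ hLr
    have : P * (c + 1) ≤ P * (S v).card := Nat.mul_le_mul_left _ hc
    rw [mul_add, mul_one] at this
    omega
  have hlL : z / r i < L := by
    rw [Nat.div_lt_iff_lt_mul hri]; exact hzlt
  have hjlt : z % r i < r i := Nat.mod_lt _ hri
  refine ⟨(f (κ, ⟨z / r i, hlL⟩), ⟨z % r i, hjlt⟩), ?_⟩
  change lineV (Function.extend f pΓ 0 (f (κ, ⟨z / r i, hlL⟩))) i (y i) ⟨z % r i, hjlt⟩ =
    lineMap v y (vm (S v) (z / r i * r v + z % r i / P))
  rw [f.injective.extend_apply]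
  refine lineV_clPt i v hiv hr S P e y hy _ ?_ (z / r i) ⟨z % r i, hjlt⟩ (hjv _ hjlt) ?_
  · intro j h1 h2
    have hjR : j ∈ R := by rw [hR, Finset.mem_erase, Finset.mem_erase]; exact ⟨h2, h1, Finset.mem_univ _⟩
    change (if h : j ∈ R then ((κ ⟨j, h⟩ : Fin _) : ℕ) else 0) = _
    rw [dif_pos hjR]
  · change eρ = (z / r i * r i + z % r i) % P
    rw [mul_comm (z / r i) (r i), Nat.div_add_mod, hz, Nat.add_mul_mod_self_left,
      Nat.mod_eq_of_lt heρlt]

end Pool.Agent.SV48
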