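import Pool.Agent.SV48.Defs

/-! A coordinate box is covered by few core boxes. -/

namespace Pool.Agent.SV48

open Finset

variable {n : ℕ}

/-- PROOF.  Points indexed by `κ ∈ ∏_j Fin (cd |S_j| r_j)` (embedded in `Fin N` by `hN`, other
points `0`), `g_j(q) = Pi.single z 1` with `z` the element number `κ_j r_j + q` of `S_j` (or `0`
if `κ_j r_j + q ≥ |S_j|`).  If `y_j ∈ S_j` has number `z_j`, take `κ_j = z_j / r_j`,
`q_j = z_j % r_j`; then `coreV p q = Pi.single y 1`. -/
theorem core_cover {a r : Fin n → ℕ} (hr : ∀ j, 1 ≤ r j) (S : ∀ j, Finset (Fin (a j))) (N : ℕ)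
    (hN : ∏ j, cd (S j).card (r j) ≤ N) :
    ∃ p : Fin N → Pt a r, ∀ y : ∀ j, Fin (a j), (∀ j, y j ∈ S j) →
      (Pi.single y 1 : Arr a) ∈ Submodule.span ℂ
        (Set.range fun k : Fin N × (∀ j, Fin (r j)) => coreV (p k.1) k.2) := by
  classical
  set e : ∀ j, Fin (S j).card ≃ S j := fun j => (S j).equivFin.symm with he
  obtain ⟨φ⟩ : Nonempty ((∀ j, Fin (cd (S j).card (r j))) ↪ Fin N) := by
    apply Function.Embedding.nonempty_of_card_le
    rw [Fintype.card_pi, Fintype.card_fin]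
    simpa using hN
  set pt : (∀ j, Fin (cd (S j).card (r j))) → Pt a r := fun κ =>
    (fun j q => if h : (κ j : ℕ) * r j + q < (S j).card then
      Pi.single ((e j ⟨_, h⟩ : S j) : Fin (a j)) 1 else 0, 0) with hpt
  refine ⟨Function.extend φ pt (fun _ => 0), ?_⟩
  intro y hy
  set z : ∀ j, Fin (S j).card := fun j => (e j).symm ⟨y j, hy j⟩ with hz
  have hκ : ∀ j, (z j : ℕ) / r j < cd (S j).card (r j) := by
    intro j
    unfold cd
    have h1 : (z j : ℕ) + r j ≤ (S j).card + r j - 1 := by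
      have := (z j).2
      omega
    have h2 := Nat.div_le_div_right (c := r j) h1
    rw [Nat.add_div_right _ (hr j)] at h2
    omega
  have hq : ∀ j, (z j : ℕ) % r j < r j := fun j => Nat.mod_lt _ (hr j)
  set κ : ∀ j, Fin (cd (S j).card (r j)) := fun j => ⟨(z j : ℕ) / r j, hκ j⟩ with hκd
  set q : ∀ j, Fin (r j) := fun j => ⟨(z j : ℕ) % r j, hq j⟩ with hqd
  have hval : ∀ j, (pt κ).1 j (q j) = Pi.single (y j) 1 := by
    intro j
    have h1 : (κ j : ℕ) * r j + (q j : ℕ) = z j := Nat.div_add_mod' _ _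
    have h2 : (κ j : ℕ) * r j + (q j : ℕ) < (S j).card := by rw [h1]; exact (z j).2
    simp only [hpt]
    rw [dif_pos h2]
    have h3 : (⟨(κ j : ℕ) * r j + (q j : ℕ), h2⟩ : Fin (S j).card) = z j := Fin.ext h1
    rw [h3]
    simp only [hz, Equiv.apply_symm_apply]
  have hcore : coreV (pt κ) q = (Pi.single y 1 : Arr a) := by
    funext y'
    unfold coreV
    simp only [hval]
    by_cases hyy : y' = y
    · subst hyy
      simp
    · rw [Pi.single_eq_of_ne hyy]
      obtain ⟨i, hi⟩ : ∃ i, y' i ≠ y i := by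
        by_contra hcon
        push Not at hcon
        exact hyy (funext hcon)
      exact Finset.prod_eq_zero (Finset.mem_univ i) (Pi.single_eq_of_ne hi _)
  rw [← hcore]
  apply Submodule.subset_span
  refine ⟨(φ κ, q), ?_⟩
  simp only [φ.injective.extend_apply]

end Pool.Agent.SV48
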