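import Pool.Agent.SV48.Cluster
import Pool.Agent.SV48.Core

/-! The cluster and core lemmas with a convenient counting hypothesis. -/

namespace Pool.Agent.SV48

open Finset

variable {n : ℕ}

/-- PROOF.  From `cluster`.  If some `S j`, `j ≠ i`, is empty, the conclusion is void (take
`p = 0`).  Otherwise, with `P = ∏_{j ≠ i, v} r_j`:
`(∏_{j ≠ i,v} cd |S_j| r_j) * cd (P |S_v|) r_i ≤ N` because, multiplying by `r_i`,
`r_i * cd (P |S_v|) r_i ≤ P |S_v| + r_i - 1 ≤ P |S_v| + P r_v ≤ P (|S_v| + δ_v)` (`hred`) and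
`(∏ cd |S_j| r_j) * P = ∏ (cd |S_j| r_j * r_j) ≤ ∏ (|S_j| + δ_j)`, so the product is
`≤ ∏_{j ≠ i} (|S_j| + δ_j) ≤ N r_i`; divide by `r_i ≥ 1`. -/
theorem clusterB {a r δ : Fin n → ℕ} (i v : Fin n) (hiv : i ≠ v) (hr : ∀ j, 1 ≤ r j)
    (hred : r i ≤ ∏ j ∈ univ.erase i, r j)
    (S : ∀ j, Finset (Fin (a j)))
    (hδ : ∀ j, j ≠ i → j ≠ v → cd (S j).card (r j) * r j ≤ (S j).card + δ j) (hv : r v ≤ δ v)
    (N : ℕ)
    (hN : (∀ j, j ≠ i → (S j).Nonempty) → ∏ j ∈ univ.erase i, ((S j).card + δ j) ≤ N * r i) :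
    ∃ p : Fin N → Pt a r, ∀ y : ∀ j, Fin (a j), (∀ j, j ≠ i → y j ∈ S j) →
      (Pi.single y 1 : Arr a) ∈ Submodule.span ℂ
        (Set.range fun k : Fin N × Fin (r i) => lineV (p k.1) i (y i) k.2) := by
  classical
  by_cases hne : ∀ j, j ≠ i → (S j).Nonempty
  · have hvu : v ∈ univ.erase i := Finset.mem_erase.mpr ⟨hiv.symm, Finset.mem_univ _⟩
    have hred' : r i ≤ (∏ j ∈ (univ.erase i).erase v, r j) * r v := by
      rw [Finset.prod_erase_mul _ _ hvu]
      exact hred
    apply cluster i v hiv hr hred' S N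
    set A := ∏ j ∈ (univ.erase i).erase v, cd (S j).card (r j) with hA
    set P := ∏ j ∈ (univ.erase i).erase v, r j with hP
    set B := cd (P * (S v).card) (r i) with hB
    have hri : 0 < r i := hr i
    have h1 : B * r i ≤ P * ((S v).card + δ v) := by
      have h2 : B * r i ≤ P * (S v).card + r i - 1 := by
        rw [hB]
        exact Nat.div_mul_le_self _ _
      have h3 : P * r v ≤ P * δ v := Nat.mul_le_mul_left _ hv
      rw [mul_add]
      omega
    have h4 : A * P ≤ ∏ j ∈ (univ.erase i).erase v, ((S j).card + δ j) := by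
      rw [hA, hP, ← Finset.prod_mul_distrib]
      apply Finset.prod_le_prod'
      intro j hj
      rw [Finset.mem_erase, Finset.mem_erase] at hj
      exact hδ j hj.2.1 hj.1
    have h5 := hN hne
    rw [← Finset.prod_erase_mul _ _ hvu] at h5
    refine Nat.le_of_mul_le_mul_right ?_ hri
    calc A * B * r i = A * (B * r i) := by ring
      _ ≤ A * (P * ((S v).card + δ v)) := Nat.mul_le_mul_left _ h1
      _ = A * P * ((S v).card + δ v) := by ring
      _ ≤ (∏ j ∈ (univ.erase i).erase v, ((S j).card + δ j)) * ((S v).card + δ v) :=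
        Nat.mul_le_mul_right _ h4
      _ ≤ N * r i := h5
  · push Not at hne
    obtain ⟨j, hj, he⟩ := hne
    refine ⟨fun _ => 0, fun y hy => ?_⟩
    have := hy j hj
    rw [he] at this
    exact absurd this (Finset.notMem_empty _)

/-- PROOF.  From `core_cover`, in the same way: if all `S j` are nonempty then
`(∏ cd |S_j| r_j) * ∏ r_j ≤ ∏ (|S_j| + δ_j) ≤ N * ∏ r_j`. -/
theorem coreB {a r δ : Fin n → ℕ} (hr : ∀ j, 1 ≤ r j) (S : ∀ j, Finset (Fin (a j)))
    (hδ : ∀ j, cd (S j).card (r j) * r j ≤ (S j).card + δ j) (N : ℕ)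
    (hN : (∀ j, (S j).Nonempty) → ∏ j, ((S j).card + δ j) ≤ N * ∏ j, r j) :
    ∃ p : Fin N → Pt a r, ∀ y : ∀ j, Fin (a j), (∀ j, y j ∈ S j) →
      (Pi.single y 1 : Arr a) ∈ Submodule.span ℂ
        (Set.range fun k : Fin N × (∀ j, Fin (r j)) => coreV (p k.1) k.2) := by
  classical
  by_cases hne : ∀ j, (S j).Nonempty
  · apply core_cover hr S N
    have hP : 0 < ∏ j, r j := Finset.prod_pos fun j _ => hr j
    refine Nat.le_of_mul_le_mul_right ?_ hP
    calc (∏ j, cd (S j).card (r j)) * ∏ j, r j = ∏ j, (cd (S j).card (r j) * r j) := by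
          rw [Finset.prod_mul_distrib]
      _ ≤ ∏ j, ((S j).card + δ j) := Finset.prod_le_prod' fun j _ => hδ j
      _ ≤ N * ∏ j, r j := hN hne
  · push Not at hne
    obtain ⟨j, he⟩ := hne
    refine ⟨fun _ => 0, fun y hy => ?_⟩
    have := hy j
    rw [he] at this
    exact absurd this (Finset.notMem_empty _)

/-- Ceiling division wastes less than `r`. -/
theorem cd_mul_le {x r : ℕ} (hr : 1 ≤ r) : cd x r * r ≤ x + r := by
  unfold cd
  have := Nat.div_mul_le_self (x + r - 1) r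
  omega

/-- No waste if `x = r`. -/
theorem cd_self_mul {r : ℕ} (hr : 1 ≤ r) : cd r r * r = r := by
  unfold cd
  have h : (r + r - 1) / r = 1 := by
    rw [Nat.div_eq_iff hr]
    omega
  rw [h, one_mul]

end Pool.Agent.SV48
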