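import Mathlib

/-!
# SV48: generic rank with respect to subspace varieties, asymptotics.  Definitions.

`Arr a` is `C^{a_1} ⊗ … ⊗ C^{a_n}` in coordinates.  A point `p : Pt a r` consists of vectors
`p.1 i q ∈ C^{a_i}` (`q < r_i`, the frame of `A_i`) and a core tensor `p.2 ∈ C^{r_1 × … × r_n}`;
its tensor `tens p` lies in the subspace variety `Sub_r`.
-/

namespace Pool.Agent.SV48

open Finset

variable {n : ℕ}

/-- The tensor space, in coordinates. -/
abbrev Arr (a : Fin n → ℕ) : Type := (∀ i, Fin (a i)) → ℂ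

/-- Frames of the subspaces `A_i` and a core tensor. -/
abbrev Pt (a r : Fin n → ℕ) : Type :=
  (∀ i, Fin (r i) → Fin (a i) → ℂ) × ((∀ i, Fin (r i)) → ℂ)

/-- The tensor with frames `p.1` and core `p.2`. -/
def tens {a r : Fin n → ℕ} (p : Pt a r) : Arr a :=
  fun y => ∑ q, p.2 q * ∏ i, p.1 i (q i) (y i)

/-- The derivative of `tens` in the direction of the coordinate `q` of the core. -/
def coreV {a r : Fin n → ℕ} (p : Pt a r) (q : ∀ i, Fin (r i)) : Arr a :=
  fun y => ∏ i, p.1 i (q i) (y i)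

/-- The derivative of `tens` in the direction of the coordinate `x` of the frame vector
`p.1 i j`. -/
def lineV {a r : Fin n → ℕ} (p : Pt a r) (i : Fin n) (x : Fin (a i)) (j : Fin (r i)) : Arr a :=
  fun y => if y i = x then
    ∑ q ∈ univ.filter (fun q : ∀ i, Fin (r i) => q i = j),
      p.2 q * ∏ l ∈ univ.erase i, p.1 l (q l) (y l) else 0

/-- The sum of the tangent spaces at the points `θ t`. -/
def Tan {a r : Fin n → ℕ} {ι : Type*} (θ : ι → Pt a r) : Submodule ℂ (Arr a) :=
  Submodule.span ℂ ({V | ∃ t q, V = coreV (θ t) q} ∪ {V | ∃ t i x j, V = lineV (θ t) i x j})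

/-- `s` core boxes and, in every direction `i`, `N i` clusters of lines fill the tensor space. -/
def FillsBlock (a r N : Fin n → ℕ) (s : ℕ) : Prop :=
  ∃ (c : Fin s → Pt a r) (p : ∀ i, Fin (N i) → Pt a r),
    Submodule.span ℂ ({V | ∃ t q, V = coreV (c t) q} ∪
      {V | ∃ i t x j, V = lineV (p i t) i x j}) = ⊤

/-- Ceiling division. -/
def cd (x y : ℕ) : ℕ := (x + y - 1) / y

/-- The decomposable tensor `v_1 ⊗ … ⊗ v_n`. -/
def decomposable {m : Fin n → ℕ} (v : ∀ i, Fin (m i) → ℂ) : Arr m :=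
  fun x => ∏ i, v i (x i)

/-- The affine cone over `Sub_r`. -/
def SubspaceCone (m r : Fin n → ℕ) : Set (Arr m) :=
  {T | ∃ A : ∀ i, Submodule ℂ (Fin (m i) → ℂ), (∀ i, Module.finrank ℂ (A i) = r i) ∧
    T ∈ Submodule.span ℂ {S | ∃ v : ∀ i, Fin (m i) → ℂ, (∀ i, v i ∈ A i) ∧ S = decomposable v}}

/-- Sums of `s` elements of the cone. -/
def SumsOf (m r : Fin n → ℕ) (s : ℕ) : Set (Arr m) :=
  {T | ∃ S : Fin s → Arr m, (∀ j, S j ∈ SubspaceCone m r) ∧ T = ∑ j, S j}

/-- `σ_s(X)` is the whole space. -/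
def SecantFills (m r : Fin n → ℕ) (s : ℕ) : Prop :=
  ∀ F : MvPolynomial (∀ i, Fin (m i)) ℂ,
    (∀ T ∈ SumsOf m r s, MvPolynomial.eval T F = 0) → F = 0

/-- `k` is the generic `X`-rank. -/
def IsGenericRank (m r : Fin n → ℕ) (k : ℕ) : Prop :=
  IsLeast {s | SecantFills m r s} k

/-- The coordinates in `Y` are algebraically independent on `Z`: no nonzero polynomial in them
vanishes on `Z`. -/
def IndepOn {σ : Type*} (Z : Set (σ → ℂ)) (Y : Finset σ) : Prop :=
  ∀ F : MvPolynomial σ ℂ, F.vars ⊆ Y → (∀ T ∈ Z, MvPolynomial.eval T F = 0) → F = 0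

/-- The dimension of the Zariski closure of `Z`: the largest number of coordinates that are
algebraically independent on `Z`. -/
noncomputable def zdim {σ : Type*} (Z : Set (σ → ℂ)) : ℕ :=
  sSup {d | ∃ Y : Finset σ, Y.card = d ∧ IndepOn Z Y}

/-- The reduced multilinear rank: `Sub_r = Sub_{red r}`. -/
def red (r : Fin n → ℕ) (i : Fin n) : ℕ := min (r i) (∏ j ∈ univ.erase i, r j)

/-- The expected dimension of the cone over `Sub_r` (for reduced `r`). -/
def coneDim (m r : Fin n → ℕ) : ℕ := ∏ i, r i + ∑ i, r i * (m i - r i)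

end Pool.Agent.SV48
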