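import Pool.Agent.SV48.Defs

/-! The numbers needed in the block lemma. -/

namespace Pool.Agent.SV48

open Finset

variable {n : ℕ}

/-- Existence of the numbers `βv, βw, α₀, α` of the block lemma (second alternative), unless the
clusters of direction `u` suffice (first alternative).

PROOF.  Real numbers.  `A j = a j + δ j > 0`.  Put `Π' = ∏_{j ≠ u} A j`,
`ρ = N u * r u / Π'`.  If `ρ ≥ 1`: first alternative.  Let `ρ < 1`.  Put
`βv = ⌊ρ A v⌋₊ - r v` (truncated), `βw = ⌊ρ A w⌋₊ - r w`.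
* `βv ≤ a v` since `ρ A v < A v = a v + r v`; same for `w`.
* `h1v`: if `0 < βv` then `βv + r v = ⌊ρ A v⌋₊ ≤ ρ A v` and
  `ρ A v ∏_{j ≠ u, v} A j = ρ Π' = N u r u`.
* Let `γ = 1 - ρ + 2/b`.  Then `a v - βv + r v ≤ γ A v`: `βv ≥ ρ A v - 1 - r v`, so
  `a v - βv + r v ≤ (1-ρ) A v + 1 + r v` and `1 + r v ≤ 2 r v ≤ (2/b) A v` (as
  `b r v ≤ a v ≤ A v`).  (If the subtraction is truncated, `βv = 0 ≥ ρ A v - 1 - r v` is still
  true.)  Same for `w`.
* `α i = ⌊N i r i A i / (γ Π')⌋₊ - r u` for `i ∈ L`, `i ≠ u` (also for `i = v`),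
  `α₀ = ⌊s ∏ r / (γ Π')⌋₊ - r u`.
  `h2`: `(α i + r u) (a v - βv + r v) ∏_{j ≠ i,u,v} A j ≤
  (N i r i A i / (γ Π')) * γ A v * ∏_{j ≠ i,u,v} A j = N i r i` (if `0 < α i`).  `h3`: the same
  with `w` in place of `v` (and `i = v`).  `h4`: the same.
* `h5`: `α₀ + ∑ α i ≥ (s ∏ r + ∑_{i ∈ L, i ≠ u} N i r i A i)/(γ Π') - |L| (1 + r u)`, and
  `s ∏ r + ∑_{i ∈ L} N i r i A i ≥ (1 + 6n/b) ∏ A` (hypothesis `H`), `N u r u A u = ρ ∏ A`,
  so the first term is `≥ (1 - ρ + 6n/b) A u / γ`.  As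
  `|L| (1 + r u) + a u ≤ 2 n r u + A u ≤ (1 + 2n/b) A u` it is enough that
  `(1 - ρ + 2/b)(1 + 2n/b) ≤ 1 - ρ + 6n/b`, which holds for `b ≥ 2`, `n ≥ 3`, `0 ≤ ρ`. -/
theorem numB {a r δ N : Fin n → ℕ} {s b : ℕ} (hn : 3 ≤ n) (hb : 2 ≤ b) (hr : ∀ j, 1 ≤ r j)
    (L : Finset (Fin n)) (hL : ∀ j ∈ L, δ j = r j ∧ b * r j ≤ a j)
    (hF : ∀ j, j ∉ L → δ j = 0 ∧ a j = r j)
    {u v w : Fin n} (hu : u ∈ L) (hv : v ∈ L) (hw : w ∈ L) (huv : u ≠ v) (huw : u ≠ w)
    (hvw : v ≠ w)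
    (H : (1 + 6 * (n : ℝ) / b) * ∏ j, ((a j : ℝ) + δ j) ≤
      ∑ i ∈ L, (N i : ℝ) * r i * (a i + δ i) + s * ∏ j, (r j : ℝ)) :
    (∏ j ∈ univ.erase u, (a j + δ j) ≤ N u * r u) ∨
    ∃ (βv βw α₀ : ℕ) (α : Fin n → ℕ), βv ≤ a v ∧ βw ≤ a w ∧
      (0 < βv → (βv + r v) * ∏ j ∈ (univ.erase u).erase v, (a j + δ j) ≤ N u * r u) ∧
      (0 < βw → (βw + r w) * ∏ j ∈ (univ.erase u).erase w, (a j + δ j) ≤ N u * r u) ∧
      (∀ i ∈ L, i ≠ u → i ≠ v → 0 < α i →
        (α i + r u) * ((a v - βv + r v) *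
          ∏ j ∈ ((univ.erase i).erase u).erase v, (a j + δ j)) ≤ N i * r i) ∧
      (0 < α v →
        (α v + r u) * ((a w - βw + r w) *
          ∏ j ∈ ((univ.erase v).erase u).erase w, (a j + δ j)) ≤ N v * r v) ∧
      (0 < α₀ →
        (α₀ + r u) * ((a v - βv + r v) * ∏ j ∈ (univ.erase u).erase v, (a j + δ j)) ≤
          s * ∏ j, r j) ∧
      a u ≤ α₀ + ∑ i ∈ L.erase u, α i := by
  classical
  obtain ⟨A, hA⟩ : ∃ A : Fin n → ℝ, ∀ j, A j = (a j : ℝ) + δ j := ⟨_, fun _ => rfl⟩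
  have hr0 : ∀ j, (1 : ℝ) ≤ r j := fun j => by exact_mod_cast hr j
  have hb2 : (2 : ℝ) ≤ b := by exact_mod_cast hb
  have hb0 : (0 : ℝ) < b := by linarith
  have hn3 : (3 : ℝ) ≤ n := by exact_mod_cast hn
  have hApos : ∀ j, 0 < A j := by
    intro j
    rw [hA]
    by_cases hj : j ∈ L
    · rw [(hL j hj).1]
      have := hr0 j
      positivity
    · rw [(hF j hj).1, (hF j hj).2]
      have := hr0 j
      positivity
  have hAL : ∀ j ∈ L, A j = (a j : ℝ) + r j := by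
    intro j hj
    rw [hA, (hL j hj).1]
  have hbr : ∀ j ∈ L, (b : ℝ) * r j ≤ a j := fun j hj => by exact_mod_cast (hL j hj).2
  have hbr2 : ∀ j ∈ L, 1 + (r j : ℝ) ≤ 2 / b * A j := by
    intro j hj
    have h1 := hbr j hj
    have h2 := hr0 j
    rw [hAL j hj, div_mul_eq_mul_div, le_div_iff₀ hb0]
    nlinarith
  obtain ⟨P, hP⟩ : ∃ P : ℝ, P = ∏ j ∈ univ.erase u, A j := ⟨_, rfl⟩
  have hP0 : 0 < P := by rw [hP]; exact Finset.prod_pos fun j _ => hApos j
  have hAll : ∏ j, A j = A u * P := by rw [hP, Finset.mul_prod_erase univ A (mem_univ u)]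
  obtain ⟨ρ, hρ⟩ : ∃ ρ : ℝ, ρ = N u * r u / P := ⟨_, rfl⟩
  have hρP : ρ * P = N u * r u := by rw [hρ]; field_simp
  by_cases hρ1 : 1 ≤ ρ
  · left
    have h1 : P ≤ N u * r u := by rw [← hρP]; nlinarith
    have h2 : ((∏ j ∈ univ.erase u, (a j + δ j) : ℕ) : ℝ) ≤ ((N u * r u : ℕ) : ℝ) := by
      push_cast
      have e : ∏ j ∈ univ.erase u, ((a j : ℝ) + δ j) = P := by
        rw [hP]; exact Finset.prod_congr rfl fun j _ => (hA j).symm
      rw [e]
      exact h1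
    exact_mod_cast h2
  right
  rw [not_le] at hρ1
  have hρ0 : 0 ≤ ρ := by rw [hρ]; positivity
  obtain ⟨γ, hγ⟩ : ∃ γ : ℝ, γ = 1 - ρ + 2 / b := ⟨_, rfl⟩
  have h2b : 0 < 2 / (b : ℝ) := by positivity
  have hγ0 : 0 < γ := by rw [hγ]; linarith
  -- the numbers `β`
  obtain ⟨β, hβ⟩ : ∃ β : Fin n → ℕ, ∀ j, β j = ⌊ρ * A j⌋₊ - r j := ⟨_, fun _ => rfl⟩
  have hβle : ∀ j ∈ L, β j ≤ a j := by
    intro j hj
    have h1 : ((⌊ρ * A j⌋₊ : ℕ) : ℝ) ≤ ρ * A j := Nat.floor_le (by have := (hApos j).le; positivity)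
    have h2 : ρ * A j ≤ A j := by nlinarith [hApos j]
    have h3 : ((⌊ρ * A j⌋₊ : ℕ) : ℝ) ≤ ((a j + r j : ℕ) : ℝ) := by
      push_cast
      rw [← hAL j hj]
      linarith
    have h4 : ⌊ρ * A j⌋₊ ≤ a j + r j := by exact_mod_cast h3
    rw [hβ]
    omega
  have hβge : ∀ j, ρ * A j - 1 - r j ≤ (β j : ℝ) := by
    intro j
    have h1 := Nat.lt_floor_add_one (ρ * A j)
    have h2 : ((⌊ρ * A j⌋₊ : ℕ) : ℝ) ≤ ((β j + r j : ℕ) : ℝ) := by
      have : ⌊ρ * A j⌋₊ ≤ β j + r j := by rw [hβ]; omega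
      exact_mod_cast this
    push_cast at h2
    linarith
  have hβpos : ∀ j, 0 < β j → ((β j : ℝ) + r j) ≤ ρ * A j := by
    intro j hj
    have h1 : ((⌊ρ * A j⌋₊ : ℕ) : ℝ) ≤ ρ * A j := Nat.floor_le (by have := (hApos j).le; positivity)
    have h2 : β j + r j = ⌊ρ * A j⌋₊ := by
      have := hβ j
      omega
    have h3 : ((β j : ℝ) + r j) = ((⌊ρ * A j⌋₊ : ℕ) : ℝ) := by exact_mod_cast h2
    rw [h3]
    exact h1
  have hgam : ∀ j ∈ L, (((a j - β j + r j : ℕ) : ℕ) : ℝ) ≤ γ * A j := by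
    intro j hj
    have h1 := hβge j
    have h2 := hbr2 j hj
    have h3 := hAL j hj
    rw [Nat.cast_add, Nat.cast_sub (hβle j hj), hγ]
    have : (1 - ρ + 2 / (b : ℝ)) * A j = A j - ρ * A j + 2 / (b : ℝ) * A j := by ring
    rw [this]
    linarith
  -- products
  have hprod1 : ∀ v : Fin n, u ≠ v → A v * ∏ j ∈ (univ.erase u).erase v, A j = P := by
    intro v huv
    rw [hP]
    exact Finset.mul_prod_erase _ A (mem_erase.2 ⟨huv.symm, mem_univ _⟩)
  have hcast : ∀ S : Finset (Fin n), ((∏ j ∈ S, (a j + δ j) : ℕ) : ℝ) = ∏ j ∈ S, A j := by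
    intro S
    push_cast
    exact Finset.prod_congr rfl fun j _ => (hA j).symm
  have hprod2 : ∀ i v : Fin n, i ≠ u → i ≠ v → u ≠ v →
      A i * (A v * ∏ j ∈ ((univ.erase i).erase u).erase v, A j) = P := by
    intro i v hiu hiv huv
    have e : ((univ.erase i).erase u).erase v = ((univ.erase u).erase v).erase i := by
      ext j
      simp only [mem_erase, mem_univ, and_true]
      tauto
    rw [e, ← hprod1 v huv]
    have h1 := Finset.mul_prod_erase ((univ.erase u).erase v) A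
      (mem_erase.2 ⟨hiv, mem_erase.2 ⟨hiu, mem_univ i⟩⟩)
    rw [← h1]
    ring
  have hPS : ∀ S : Finset (Fin n), 0 < ∏ j ∈ S, A j := fun S => Finset.prod_pos fun j _ => hApos j
  have hβ1 : ∀ v : Fin n, u ≠ v → 0 < β v →
      (β v + r v) * ∏ j ∈ (univ.erase u).erase v, (a j + δ j) ≤ N u * r u := by
    intro v huv hv
    have h1 := hβpos v hv
    have h2 : (((β v + r v) * ∏ j ∈ (univ.erase u).erase v, (a j + δ j) : ℕ) : ℝ) ≤
        ((N u * r u : ℕ) : ℝ) := by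
      rw [Nat.cast_mul, hcast]
      push_cast
      rw [← hρP, ← hprod1 v huv]
      have h3 := hPS ((univ.erase u).erase v)
      calc ((β v : ℝ) + r v) * ∏ j ∈ (univ.erase u).erase v, A j ≤
          (ρ * A v) * ∏ j ∈ (univ.erase u).erase v, A j := mul_le_mul_of_nonneg_right h1 h3.le
        _ = _ := by ring
    exact_mod_cast h2
  -- the numbers `α`
  obtain ⟨al, hal⟩ : ∃ al : ℝ → ℕ, ∀ x, al x = ⌊x / (γ * P)⌋₊ - r u := ⟨_, fun _ => rfl⟩
  have hγP : 0 < γ * P := mul_pos hγ0 hP0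
  have halge : ∀ x, x / (γ * P) - 1 - r u ≤ (al x : ℝ) := by
    intro x
    have h1 := Nat.lt_floor_add_one (x / (γ * P))
    have h2 : ((⌊x / (γ * P)⌋₊ : ℕ) : ℝ) ≤ ((al x + r u : ℕ) : ℝ) := by
      have : ⌊x / (γ * P)⌋₊ ≤ al x + r u := by rw [hal]; omega
      exact_mod_cast this
    push_cast at h2
    linarith
  have halpos : ∀ x, 0 ≤ x → 0 < al x → ((al x : ℝ) + r u) ≤ x / (γ * P) := by
    intro x hx hj
    have h1 : ((⌊x / (γ * P)⌋₊ : ℕ) : ℝ) ≤ x / (γ * P) := Nat.floor_le (by positivity)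
    have h2 : al x + r u = ⌊x / (γ * P)⌋₊ := by
      have := hal x
      omega
    have h3 : ((al x : ℝ) + r u) = ((⌊x / (γ * P)⌋₊ : ℕ) : ℝ) := by exact_mod_cast h2
    rw [h3]
    exact h1
  have hgen : ∀ i v : Fin n, i ≠ u → i ≠ v → u ≠ v → v ∈ L →
      0 < al ((N i : ℝ) * r i * A i) →
      (al ((N i : ℝ) * r i * A i) + r u) * ((a v - β v + r v) *
        ∏ j ∈ ((univ.erase i).erase u).erase v, (a j + δ j)) ≤ N i * r i := by
    intro i v hiu hiv huv hv hpos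
    have hAi := (hApos i).le
    have h1 := halpos _ (by positivity : (0 : ℝ) ≤ (N i : ℝ) * r i * A i) hpos
    have h2 := hgam v hv
    have h3 := hPS (((univ.erase i).erase u).erase v)
    have h4 : (((al ((N i : ℝ) * r i * A i) + r u) * ((a v - β v + r v) *
        ∏ j ∈ ((univ.erase i).erase u).erase v, (a j + δ j)) : ℕ) : ℝ) ≤
        ((N i * r i : ℕ) : ℝ) := by
      rw [Nat.cast_mul, Nat.cast_mul, hcast, Nat.cast_add (al ((N i : ℝ) * r i * A i))]
      calc ((al ((N i : ℝ) * r i * A i) : ℝ) + r u) * (((a v - β v + r v : ℕ) : ℝ) *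
            ∏ j ∈ ((univ.erase i).erase u).erase v, A j) ≤
          ((N i : ℝ) * r i * A i / (γ * P)) * ((γ * A v) *
            ∏ j ∈ ((univ.erase i).erase u).erase v, A j) := by
            apply mul_le_mul h1 _ (by positivity) (by positivity)
            exact mul_le_mul_of_nonneg_right h2 h3.le
        _ = ((N i : ℝ) * r i * γ / (γ * P)) *
              (A i * (A v * ∏ j ∈ ((univ.erase i).erase u).erase v, A j)) := by ring
        _ = (N i : ℝ) * r i := by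
            rw [hprod2 i v hiu hiv huv]
            field_simp
        _ = ((N i * r i : ℕ) : ℝ) := by push_cast; ring
    exact_mod_cast h4
  refine ⟨β v, β w, al ((s : ℝ) * ∏ j, (r j : ℝ)), fun i => al ((N i : ℝ) * r i * A i),
    hβle v hv, hβle w hw, hβ1 v huv, hβ1 w huw, ?_, ?_, ?_, ?_⟩
  · intro i _ hiu hiv hpos
    exact hgen i v hiu hiv huv hv hpos
  · intro hpos
    exact hgen v w huv.symm hvw huw hw hpos
  · intro hpos
    have h1 := halpos _ (by positivity : (0 : ℝ) ≤ (s : ℝ) * ∏ j, (r j : ℝ)) hpos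
    have h2 := hgam v hv
    have h3 := hPS ((univ.erase u).erase v)
    have h4 : (((al ((s : ℝ) * ∏ j, (r j : ℝ)) + r u) * ((a v - β v + r v) *
        ∏ j ∈ (univ.erase u).erase v, (a j + δ j)) : ℕ) : ℝ) ≤
        ((s * ∏ j, r j : ℕ) : ℝ) := by
      rw [Nat.cast_mul, Nat.cast_mul, hcast, Nat.cast_add (al ((s : ℝ) * ∏ j, (r j : ℝ)))]
      calc ((al ((s : ℝ) * ∏ j, (r j : ℝ)) : ℝ) + r u) * (((a v - β v + r v : ℕ) : ℝ) *
            ∏ j ∈ (univ.erase u).erase v, A j) ≤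
          ((s : ℝ) * (∏ j, (r j : ℝ)) / (γ * P)) * ((γ * A v) *
            ∏ j ∈ (univ.erase u).erase v, A j) := by
            apply mul_le_mul h1 _ (by positivity) (by positivity)
            exact mul_le_mul_of_nonneg_right h2 h3.le
        _ = ((s : ℝ) * (∏ j, (r j : ℝ)) * γ / (γ * P)) *
              (A v * ∏ j ∈ (univ.erase u).erase v, A j) := by ring
        _ = (s : ℝ) * ∏ j, (r j : ℝ) := by
            rw [hprod1 v huv]
            field_simp
        _ = ((s * ∏ j, r j : ℕ) : ℝ) := by push_cast; ring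
    exact_mod_cast h4
  · -- the sum
    have hH : (1 + 6 * (n : ℝ) / b) * (A u * P) ≤
        ∑ i ∈ L, (N i : ℝ) * r i * A i + s * ∏ j, (r j : ℝ) := by
      rw [← hAll]
      have e1 : ∏ j, ((a j : ℝ) + δ j) = ∏ j, A j := Finset.prod_congr rfl fun j _ => (hA j).symm
      have e2 : ∑ i ∈ L, (N i : ℝ) * r i * (a i + δ i) = ∑ i ∈ L, (N i : ℝ) * r i * A i :=
        Finset.sum_congr rfl fun j _ => by rw [hA]
      rw [e1, e2] at H
      exact H
    have hsplit : ∑ i ∈ L, (N i : ℝ) * r i * A i =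
        (N u : ℝ) * r u * A u + ∑ i ∈ L.erase u, (N i : ℝ) * r i * A i :=
      (Finset.add_sum_erase L (fun i => (N i : ℝ) * r i * A i) hu).symm
    have hS1 : ∑ i ∈ L.erase u, ((N i : ℝ) * r i * A i / (γ * P) - 1 - r u) ≤
        ∑ i ∈ L.erase u, (al ((N i : ℝ) * r i * A i) : ℝ) :=
      Finset.sum_le_sum fun i _ => halge _
    have hS2 : ∑ i ∈ L.erase u, ((N i : ℝ) * r i * A i / (γ * P) - 1 - r u) =
        (∑ i ∈ L.erase u, (N i : ℝ) * r i * A i) / (γ * P) -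
          ((L.erase u).card : ℝ) * (1 + r u) := by
      rw [Finset.sum_div]
      have : ∀ i ∈ L.erase u, (N i : ℝ) * r i * A i / (γ * P) - 1 - r u =
          (N i : ℝ) * r i * A i / (γ * P) - (1 + r u) := fun i _ => by ring
      rw [Finset.sum_congr rfl this, Finset.sum_sub_distrib, sum_const, nsmul_eq_mul]
    have hS3 := halge ((s : ℝ) * ∏ j, (r j : ℝ))
    have hcard : ((L.erase u).card : ℝ) + 1 ≤ n := by
      have h1 : (L.erase u).card + 1 = L.card := Finset.card_erase_add_one hu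
      have h2 : L.card ≤ n := by
        have := Finset.card_le_univ L
        rwa [Fintype.card_fin] at this
      have h3 : (L.erase u).card + 1 ≤ n := by omega
      exact_mod_cast h3
    have hAu := hApos u
    have hbru := hbr2 u hu
    have hau : (a u : ℝ) ≤ A u := by
      rw [hAL u hu]
      have := hr0 u
      linarith
    have hru0 : (0 : ℝ) ≤ 1 + r u := by have := hr0 u; linarith
    -- the main quotient
    have hQ : (1 - ρ + 6 * (n : ℝ) / b) * A u / γ ≤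
        (∑ i ∈ L.erase u, (N i : ℝ) * r i * A i) / (γ * P) +
          ((s : ℝ) * ∏ j, (r j : ℝ)) / (γ * P) := by
      rw [← add_div, div_le_div_iff₀ hγ0 hγP]
      have h1 : (1 - ρ + 6 * (n : ℝ) / b) * A u * P ≤
          ∑ i ∈ L.erase u, (N i : ℝ) * r i * A i + (s : ℝ) * ∏ j, (r j : ℝ) := by
        have h2 : (N u : ℝ) * r u * A u = ρ * (A u * P) := by rw [← hρP]; ring
        rw [hsplit, h2] at hH
        have h3 : (1 - ρ + 6 * (n : ℝ) / b) * A u * P =
            (1 + 6 * (n : ℝ) / b) * (A u * P) - ρ * (A u * P) := by ring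
        rw [h3]
        linarith
      calc (1 - ρ + 6 * (n : ℝ) / b) * A u * (γ * P) =
          ((1 - ρ + 6 * (n : ℝ) / b) * A u * P) * γ := by ring
        _ ≤ (∑ i ∈ L.erase u, (N i : ℝ) * r i * A i + (s : ℝ) * ∏ j, (r j : ℝ)) * γ :=
            mul_le_mul_of_nonneg_right h1 hγ0.le
    have hbig : (1 + 2 * (n : ℝ) / b) * A u ≤ (1 - ρ + 6 * (n : ℝ) / b) * A u / γ := by
      rw [le_div_iff₀ hγ0]
      have h1 : (1 + 2 * (n : ℝ) / b) * γ ≤ 1 - ρ + 6 * (n : ℝ) / b := by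
        obtain ⟨t, ht⟩ : ∃ t : ℝ, t = 1 / b := ⟨_, rfl⟩
        have ht0 : 0 < t := by rw [ht]; positivity
        have ht1 : t ≤ 1 / 2 := by
          rw [ht]
          exact one_div_le_one_div_of_le (by norm_num) hb2
        have e1 : 2 * (n : ℝ) / b = 2 * n * t := by rw [ht]; ring
        have e2 : 6 * (n : ℝ) / b = 6 * n * t := by rw [ht]; ring
        have e3 : 2 / (b : ℝ) = 2 * t := by rw [ht]; ring
        rw [hγ, e1, e2, e3]
        have h5 : 0 ≤ ρ * (n * t) := by positivity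
        have h6 : n * t * t ≤ n * t * (1 / 2) :=
          mul_le_mul_of_nonneg_left ht1 (by positivity)
        have h7 : 3 * t ≤ n * t := mul_le_mul_of_nonneg_right hn3 ht0.le
        nlinarith
      calc (1 + 2 * (n : ℝ) / b) * A u * γ = (1 + 2 * (n : ℝ) / b) * γ * A u := by ring
        _ ≤ _ := mul_le_mul_of_nonneg_right h1 hAu.le
    have hfin : (a u : ℝ) ≤ (al ((s : ℝ) * ∏ j, (r j : ℝ)) : ℝ) +
        ∑ i ∈ L.erase u, (al ((N i : ℝ) * r i * A i) : ℝ) := by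
      have h1 : (((L.erase u).card : ℝ) + 1) * (1 + r u) ≤ 2 * (n : ℝ) / b * A u := by
        calc (((L.erase u).card : ℝ) + 1) * (1 + r u) ≤ n * (1 + r u) :=
              mul_le_mul_of_nonneg_right hcard hru0
          _ ≤ n * (2 / b * A u) := mul_le_mul_of_nonneg_left hbru (by positivity)
          _ = _ := by ring
      have h2 : (1 + 2 * (n : ℝ) / b) * A u = A u + 2 * (n : ℝ) / b * A u := by ring
      rw [hS2] at hS1
      have h3 : (((L.erase u).card : ℝ) + 1) * (1 + r u) =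
          ((L.erase u).card : ℝ) * (1 + r u) + (1 + r u) := by ring
      linarith
    have hfin' : ((a u : ℕ) : ℝ) ≤ ((al ((s : ℝ) * ∏ j, (r j : ℝ)) +
        ∑ i ∈ L.erase u, al ((N i : ℝ) * r i * A i) : ℕ) : ℝ) := by
      push_cast
      exact hfin
    exact_mod_cast hfin'

end Pool.Agent.SV48
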