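import Pool.Agent.SV48.Block
import Pool.Agent.SV48.NumB

/-! The block is filled if the numbers are right. -/

namespace Pool.Agent.SV48

open Finset

variable {n : ℕ}

/-- PROOF.  Let `δ j = if j ∈ L then r j else 0`.  Choose three distinct elements `u, v, w` of
`L` (`Finset.two_lt_card`).  `numB`: in the second alternative use `block`.  In the first
alternative use `clusterB` with direction `u`, Vandermonde mode `v`, `S j = univ`, and `p i = 0`
for `i ≠ u`, `c = 0`. -/
theorem fill {a r N : Fin n → ℕ} {s b : ℕ} (hn : 3 ≤ n) (hb : 2 ≤ b) (hr : ∀ j, 1 ≤ r j)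
    (hred : ∀ i, r i ≤ ∏ j ∈ univ.erase i, r j)
    (L : Finset (Fin n)) (hL3 : 3 ≤ L.card) (hL : ∀ j ∈ L, b * r j ≤ a j)
    (hF : ∀ j, j ∉ L → a j = r j)
    (H : (1 + 6 * (n : ℝ) / b) * ∏ j, ((a j : ℝ) + if j ∈ L then (r j : ℝ) else 0) ≤
      ∑ i ∈ L, (N i : ℝ) * r i * (a i + r i) + s * ∏ j, (r j : ℝ)) :
    FillsBlock a r N s := by
  obtain ⟨u, hu, v, hv, w, hw, huv, huw, hvw⟩ := Finset.two_lt_card.1 (show 2 < L.card by omega)
  have key := numB (a := a) (r := r) (δ := fun j => if j ∈ L then r j else 0) (N := N) (s := s)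
    (b := b) hn hb hr L (fun j hj => ⟨if_pos hj, hL j hj⟩)
    (fun j hj => ⟨if_neg hj, hF j hj⟩) hu hv hw huv huw hvw (by
      have e1 : ∀ j, (((if j ∈ L then r j else 0 : ℕ)) : ℝ) = if j ∈ L then (r j : ℝ) else 0 := by
        intro j
        split_ifs <;> simp
      simp only [e1]
      have e2 : ∑ i ∈ L, (N i : ℝ) * r i * (a i + if i ∈ L then (r i : ℝ) else 0) =
          ∑ i ∈ L, (N i : ℝ) * r i * (a i + r i) := by
        refine Finset.sum_congr rfl fun i hi => ?_
        rw [if_pos hi]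
      rw [e2]
      exact H)
  rcases key with h1 | ⟨βv, βw, α₀, α, g1, g2, g3, g4, g5, g6, g7, g8⟩
  · obtain ⟨p, hp⟩ := clusterB (a := a) (r := r) (δ := fun j => if j ∈ L then r j else 0) u v huv hr
      (hred u) (fun j => (univ : Finset (Fin (a j)))) (by
        intro j _ _
        rw [Finset.card_univ, Fintype.card_fin]
        by_cases hj : j ∈ L
        · simp only [if_pos hj]
          exact cd_mul_le (hr j)
        · simp only [if_neg hj, hF j hj]
          rw [cd_self_mul (hr j), add_zero]) (by simp only [if_pos hv]; exact le_rfl) (N u) (by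
        intro _
        simp only [Finset.card_univ, Fintype.card_fin]
        exact h1)
    refine ⟨fun _ => 0, Function.update (fun i (_ : Fin (N i)) => (0 : Pt a r)) u p, ?_⟩
    rw [eq_top_iff, ← (Pi.basisFun ℂ (∀ i, Fin (a i))).span_eq, Submodule.span_le]
    rintro _ ⟨y, rfl⟩
    rw [Pi.basisFun_apply]
    refine Submodule.span_mono ?_ (hp y fun j _ => Finset.mem_univ _)
    rintro _ ⟨⟨t, j⟩, rfl⟩
    right
    exact ⟨u, t, y u, j, by rw [Function.update_self]⟩
  · exact block (δ := fun j => if j ∈ L then r j else 0) hr hred L (fun j hj => if_pos hj)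
      (fun j hj => ⟨if_neg hj, hF j hj⟩) hu hv hw huv huw hvw βv βw α₀ α g1 g2 g3 g4 g5 g6 g7 g8

end Pool.Agent.SV48
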