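import Pool.Agent.SV48.LP

/-! Spanning is a generic condition. -/

namespace Pool.Agent.SV48

open Finset

/-- If the vectors `v k θ` span `C^Y`, then so do the vectors `v k (θ + t θ')` for all but
finitely many `t`.

PROOF.  A spanning family contains a basis: choose `κ : Y → K` such that the `v (κ y) θ`,
`y ∈ Y`, are a basis of `Y → ℂ` (e.g. `exists_linearIndependent` /
`Submodule.exists_fun_fin_finrank_span_eq`, or `Basis.extend`-like lemmas; cardinality of a basis
of `Y → ℂ` is `Fintype.card Y`).  Let `M t = Matrix.of fun y y' => v (κ y) (θ + t • θ') y'`.  Its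
entries are `Polynomial.eval t (P y y')` (choose the polynomials given by `hv`), so
`det (M t) = Polynomial.eval t (det P)` (`Polynomial.eval_det` or `RingHom.map_det` with
`Polynomial.evalRingHom t`).  `det (M 0) ≠ 0` (rows are a basis), so the polynomial `det P` is not
zero and has finitely many roots; when `det (M t) ≠ 0` the rows of `M t` span. -/
theorem persist {E Y K : Type*} [AddCommGroup E] [Module ℂ E] [Fintype Y] [Finite K]
    (v : K → E → Y → ℂ) (hv : ∀ k y, LP (fun θ => v k θ y)) (θ θ' : E)
    (h : Submodule.span ℂ (Set.range fun k => v k θ) = ⊤) :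
    {t : ℂ | Submodule.span ℂ (Set.range fun k => v k (θ + t • θ')) ≠ ⊤}.Finite := by
  classical
  obtain ⟨I, a, _, hspan, hli⟩ := exists_linearIndependent' ℂ (fun k => v k θ)
  have htop : ⊤ ≤ Submodule.span ℂ (Set.range ((fun k => v k θ) ∘ a)) := by
    rw [hspan, h]
  let b : Module.Basis I ℂ (Y → ℂ) := Module.Basis.mk hli htop
  let e : I ≃ Y := b.indexEquiv (Pi.basisFun ℂ Y)
  let κ : Y → K := fun y => a (e.symm y)
  have hli2 : LinearIndependent ℂ (fun y => v (κ y) θ) := hli.comp e.symm e.symm.injective
  choose P hP using fun k y => hv k y θ θ'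
  let Q : Matrix Y Y (Polynomial ℂ) := Matrix.of fun y y' => P (κ y) y'
  have hdet : ∀ t : ℂ, (Matrix.of fun y y' => v (κ y) (θ + t • θ') y').det =
      (Polynomial.evalRingHom t) Q.det := by
    intro t
    rw [RingHom.map_det]
    congr 1
    ext y y'
    show v (κ y) (θ + t • θ') y' = Polynomial.eval t (P (κ y) y')
    exact hP _ _ t
  have hQ : Q.det ≠ 0 := by
    intro h0
    have h1 := hdet 0
    rw [h0, map_zero] at h1
    have h2 : LinearIndependent ℂ (Matrix.of fun y y' => v (κ y) (θ + (0 : ℂ) • θ') y').row := by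
      have h3 : (Matrix.of fun y y' => v (κ y) (θ + (0 : ℂ) • θ') y').row =
          fun y => v (κ y) θ := by
        funext y y'
        rw [Matrix.row_apply, Matrix.of_apply, zero_smul, add_zero]
      rw [h3]
      exact hli2
    rw [Matrix.linearIndependent_rows_iff_isUnit, Matrix.isUnit_iff_isUnit_det, h1] at h2
    exact not_isUnit_zero h2
  refine (Polynomial.finite_setOfPred_isRoot hQ).subset ?_
  intro t ht
  by_contra hcon
  apply ht
  have h1 : (Matrix.of fun y y' => v (κ y) (θ + t • θ') y').det ≠ 0 := by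
    rw [hdet t]
    exact hcon
  have h2 : LinearIndependent ℂ (fun y => v (κ y) (θ + t • θ')) := by
    have h3 : (Matrix.of fun y y' => v (κ y) (θ + t • θ') y').row =
        fun y => v (κ y) (θ + t • θ') := by
      funext y y'
      rw [Matrix.row_apply, Matrix.of_apply]
    rw [← h3, Matrix.linearIndependent_rows_iff_isUnit, Matrix.isUnit_iff_isUnit_det]
    exact isUnit_iff_ne_zero.2 h1
  have h3 : Submodule.span ℂ (Set.range fun y => v (κ y) (θ + t • θ')) = ⊤ := by
    apply h2.span_eq_top_of_card_eq_finrank'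
    rw [Module.finrank_fintype_fun_eq_card]
  rw [eq_top_iff, ← h3]
  apply Submodule.span_mono
  rintro _ ⟨y, rfl⟩
  exact ⟨κ y, rfl⟩

/-- Finitely many generic conditions that can be satisfied separately can be satisfied
simultaneously.

PROOF.  Induction on the number of conditions (e.g. `Finset.induction_on` for the statement
(for every finset `s` of `C` there is `θ` satisfying the conditions `c ∈ s`); take `s = univ`).
Step: `θ₁` satisfies the conditions in `s`, `θ₂` satisfies the condition `c`.  Consider
`θ₁ + t • (θ₂ - θ₁)`.  By `persist` (base point `θ₁`, direction `θ₂ - θ₁`) each condition of `s`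
holds for all but finitely many `t`; by `persist` with base point `θ₂` and direction `θ₁ - θ₂`
(`θ₁ + t • (θ₂ - θ₁) = θ₂ + (1 - t) • (θ₁ - θ₂)`) the condition `c` holds for all but finitely
many `t`.  `ℂ` is infinite. -/
theorem glue {E C : Type*} [AddCommGroup E] [Module ℂ E] [Finite C] {Y K : C → Type*}
    [∀ c, Fintype (Y c)] [∀ c, Finite (K c)] (v : ∀ c, K c → E → Y c → ℂ)
    (hv : ∀ c k y, LP (fun θ => v c k θ y))
    (h : ∀ c, ∃ θ : E, Submodule.span ℂ (Set.range fun k => v c k θ) = ⊤) :
    ∃ θ : E, ∀ c, Submodule.span ℂ (Set.range fun k => v c k θ) = ⊤ := by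
  classical
  have := Fintype.ofFinite C
  have key : ∀ s : Finset C, ∃ θ : E, ∀ c ∈ s,
      Submodule.span ℂ (Set.range fun k => v c k θ) = ⊤ := by
    intro s
    induction s using Finset.induction_on with
    | empty => exact ⟨0, fun c hc => absurd hc (Finset.notMem_empty c)⟩
    | insert c s _ ih =>
      obtain ⟨θ₁, h1⟩ := ih
      obtain ⟨θ₂, h2⟩ := h c
      have hA : (⋃ c' ∈ s, {t : ℂ | Submodule.span ℂ
          (Set.range fun k => v c' k (θ₁ + t • (θ₂ - θ₁))) ≠ ⊤}).Finite := by
        refine Set.Finite.biUnion (Finset.finite_toSet s) fun c' hc' => ?_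
        exact persist (v c') (hv c') θ₁ (θ₂ - θ₁) (h1 c' hc')
      have hB : {t : ℂ | Submodule.span ℂ
          (Set.range fun k => v c k (θ₁ + t • (θ₂ - θ₁))) ≠ ⊤}.Finite := by
        have h3 := persist (v c) (hv c) θ₂ (θ₁ - θ₂) h2
        have h4 := h3.preimage (f := fun t : ℂ => 1 - t) (Set.injOn_of_injective (by
          intro x y hxy
          exact sub_right_injective hxy))
        refine h4.subset ?_
        intro t ht
        show Submodule.span ℂ (Set.range fun k => v c k (θ₂ + (1 - t) • (θ₁ - θ₂))) ≠ ⊤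
        have h5 : θ₂ + (1 - t) • (θ₁ - θ₂) = θ₁ + t • (θ₂ - θ₁) := by
          module
        rw [h5]
        exact ht
      obtain ⟨t, ht⟩ := (hA.union hB).infinite_compl.nonempty
      rw [Set.mem_compl_iff, Set.mem_union, not_or] at ht
      refine ⟨θ₁ + t • (θ₂ - θ₁), fun c' hc' => ?_⟩
      rcases Finset.mem_insert.1 hc' with rfl | hc'
      · by_contra hcon
        exact ht.2 hcon
      · by_contra hcon
        exact ht.1 (Set.mem_iUnion₂.2 ⟨c', hc', hcon⟩)
  obtain ⟨θ, hθ⟩ := key Finset.univ
  exact ⟨θ, fun c => hθ c (Finset.mem_univ c)⟩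

end Pool.Agent.SV48
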