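import Pool.Agent.SV48.Defs

/-! Functions that are polynomial along every line. -/

namespace Pool.Agent.SV48

open Finset

variable {n : ℕ}

/-- `f` is polynomial along every line. -/
def LP {E : Type*} [AddCommGroup E] [Module ℂ E] (f : E → ℂ) : Prop :=
  ∀ θ θ' : E, ∃ p : Polynomial ℂ, ∀ t : ℂ, f (θ + t • θ') = p.eval t

section
variable {E : Type*} [AddCommGroup E] [Module ℂ E]

theorem LP.const (c : ℂ) : LP (fun _ : E => c) := fun _ _ => ⟨Polynomial.C c, by simp⟩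

theorem LP.add {f g : E → ℂ} (hf : LP f) (hg : LP g) : LP (fun x => f x + g x) := by
  intro θ θ'
  obtain ⟨p, hp⟩ := hf θ θ'
  obtain ⟨q, hq⟩ := hg θ θ'
  exact ⟨p + q, fun t => by simp [hp, hq]⟩

theorem LP.mul {f g : E → ℂ} (hf : LP f) (hg : LP g) : LP (fun x => f x * g x) := by
  intro θ θ'
  obtain ⟨p, hp⟩ := hf θ θ'
  obtain ⟨q, hq⟩ := hg θ θ'
  exact ⟨p * q, fun t => by simp [hp, hq]⟩

theorem LP.linear (f : E →ₗ[ℂ] ℂ) : LP (fun x => f x) := by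
  intro θ θ'
  refine ⟨Polynomial.C (f θ) + Polynomial.C (f θ') * Polynomial.X, fun t => ?_⟩
  show f (θ + t • θ') = _
  rw [map_add, map_smul, smul_eq_mul, Polynomial.eval_add, Polynomial.eval_mul,
    Polynomial.eval_C, Polynomial.eval_C, Polynomial.eval_X, mul_comm]

theorem LP.sum {ι : Type*} (s : Finset ι) {f : ι → E → ℂ} (hf : ∀ i ∈ s, LP (f i)) :
    LP (fun x => ∑ i ∈ s, f i x) := by
  classical
  induction s using Finset.induction_on with
  | empty => simpa using LP.const (E := E) 0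
  | insert a s ha ih =>
    simp only [Finset.sum_insert ha]
    exact (hf a (Finset.mem_insert_self a s)).add
      (ih fun i hi => hf i (Finset.mem_insert_of_mem hi))

theorem LP.prod {ι : Type*} (s : Finset ι) {f : ι → E → ℂ} (hf : ∀ i ∈ s, LP (f i)) :
    LP (fun x => ∏ i ∈ s, f i x) := by
  classical
  induction s using Finset.induction_on with
  | empty => simpa using LP.const (E := E) 1
  | insert a s ha ih =>
    simp only [Finset.prod_insert ha]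
    exact (hf a (Finset.mem_insert_self a s)).mul
      (ih fun i hi => hf i (Finset.mem_insert_of_mem hi))

theorem LP.ite {P : Prop} [Decidable P] {f g : E → ℂ} (hf : LP f) (hg : LP g) :
    LP (fun x => if P then f x else g x) := by
  by_cases h : P <;> simpa [h]

end

theorem LP_coreV {a r : Fin n → ℕ} {ι : Type*} (t : ι) (q : ∀ i, Fin (r i))
    (y : ∀ i, Fin (a i)) : LP (fun θ : ι → Pt a r => coreV (θ t) q y) := by
  unfold coreV
  refine LP.prod _ fun i _ => ?_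
  exact LP.linear ((LinearMap.proj (y i) : (Fin (a i) → ℂ) →ₗ[ℂ] ℂ) ∘ₗ
    (LinearMap.proj (q i) : (Fin (r i) → Fin (a i) → ℂ) →ₗ[ℂ] (Fin (a i) → ℂ)) ∘ₗ
    (LinearMap.proj i : (∀ i, Fin (r i) → Fin (a i) → ℂ) →ₗ[ℂ] _) ∘ₗ
    (LinearMap.fst ℂ _ _) ∘ₗ (LinearMap.proj t : (ι → Pt a r) →ₗ[ℂ] Pt a r))

theorem LP_lineV {a r : Fin n → ℕ} {ι : Type*} (t : ι) (i : Fin n) (x : Fin (a i))
    (j : Fin (r i)) (y : ∀ i, Fin (a i)) :
    LP (fun θ : ι → Pt a r => lineV (θ t) i x j y) := by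
  unfold lineV
  refine LP.ite (LP.sum _ fun q _ => LP.mul ?_ (LP.prod _ fun l _ => ?_)) (LP.const 0)
  · exact LP.linear ((LinearMap.proj q : ((∀ i, Fin (r i)) → ℂ) →ₗ[ℂ] ℂ) ∘ₗ
      (LinearMap.snd ℂ _ _) ∘ₗ (LinearMap.proj t : (ι → Pt a r) →ₗ[ℂ] Pt a r))
  · exact LP.linear ((LinearMap.proj (y l) : (Fin (a l) → ℂ) →ₗ[ℂ] ℂ) ∘ₗ
      (LinearMap.proj (q l) : (Fin (r l) → Fin (a l) → ℂ) →ₗ[ℂ] (Fin (a l) → ℂ)) ∘ₗ
      (LinearMap.proj l : (∀ i, Fin (r i) → Fin (a i) → ℂ) →ₗ[ℂ] _) ∘ₗ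
      (LinearMap.fst ℂ _ _) ∘ₗ (LinearMap.proj t : (ι → Pt a r) →ₗ[ℂ] Pt a r))

end Pool.Agent.SV48
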