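import Pool.Agent.SV48.Rep

/-! The dimension count. -/

namespace Pool.Agent.SV48

open Finset

variable {n : ℕ}

/-- The index type of the parameters for a choice of the coordinates. -/
private abbrev LIdx {m r : Fin n → ℕ} {s : ℕ} (π : Fin s → ∀ i, Fin (r i) ↪ Fin (m i)) : Type :=
  Σ t : Fin s, (Σ i : Fin n, Fin (r i) × {x : Fin (m i) // x ∉ Set.range (π t i)}) ⊕
    (∀ i, Fin (r i))

open Classical in
/-- The generic frames. -/
private noncomputable def lfr {m r : Fin n → ℕ} {s : ℕ}
    (π : Fin s → ∀ i, Fin (r i) ↪ Fin (m i)) (t : Fin s) (i : Fin n) (q : Fin (r i))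
    (x : Fin (m i)) : MvPolynomial (LIdx π) ℂ :=
  if h : x ∉ Set.range (π t i) then MvPolynomial.X ⟨t, Sum.inl ⟨i, (q, ⟨x, h⟩)⟩⟩
  else if π t i q = x then 1 else 0

private noncomputable def lps {m r : Fin n → ℕ} {s : ℕ}
    (π : Fin s → ∀ i, Fin (r i) ↪ Fin (m i)) (y : ∀ i, Fin (m i)) : MvPolynomial (LIdx π) ℂ :=
  ∑ t, ∑ q : ∀ i, Fin (r i), MvPolynomial.X ⟨t, Sum.inr q⟩ * ∏ i, lfr π t i (q i) (y i)

open Classical in
private lemma lcard {m r : Fin n → ℕ} {s : ℕ} (π : Fin s → ∀ i, Fin (r i) ↪ Fin (m i)) :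
    Fintype.card (LIdx π) = s * coneDim m r := by
  rw [Fintype.card_sigma]
  have h1 : ∀ t : Fin s, Fintype.card
      ((Σ i : Fin n, Fin (r i) × {x : Fin (m i) // x ∉ Set.range (π t i)}) ⊕
        (∀ i, Fin (r i))) = coneDim m r := by
    intro t
    rw [Fintype.card_sum, Fintype.card_sigma, Fintype.card_pi]
    unfold coneDim
    simp only [Fintype.card_fin]
    rw [add_comm]
    congr 1
    refine Finset.sum_congr rfl fun i _ => ?_
    rw [Fintype.card_prod, Fintype.card_fin]
    congr 1
    rw [Fintype.card_subtype_compl, Fintype.card_fin]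
    congr 1
    have h2 : Fintype.card {x : Fin (m i) // x ∈ Set.range (π t i)} =
        Fintype.card (Fin (r i)) :=
      (Fintype.card_congr (Equiv.ofInjective (π t i) (π t i).injective)).symm
    rw [h2, Fintype.card_fin]
  rw [Finset.sum_congr rfl (fun t _ => h1 t), Finset.sum_const, Finset.card_univ,
    Fintype.card_fin, smul_eq_mul]

open Classical in
private lemma lpoly {m r : Fin n → ℕ} {s : ℕ} (π : Fin s → ∀ i, Fin (r i) ↪ Fin (m i))
    (Y : Finset (∀ i, Fin (m i))) (hY : s * coneDim m r < Y.card) :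
    ∃ G : MvPolynomial {y // y ∈ Y} ℂ, G ≠ 0 ∧
      MvPolynomial.aeval (fun y : {y // y ∈ Y} => lps π y.1) G = 0 := by
  by_contra hno
  have hdep : AlgebraicIndependent ℂ (fun y : {y // y ∈ Y} => lps π y.1) := by
    rw [algebraicIndependent_iff]
    intro G hG
    by_contra hG0
    exact hno ⟨G, hG0, hG⟩
  have h1 := hdep.lift_cardinalMk_le_trdeg
  rw [MvPolynomial.trdeg_of_isDomain] at h1
  simp only [Cardinal.mk_fintype, Cardinal.lift_natCast, Nat.cast_le] at h1
  rw [Fintype.card_coe, lcard] at h1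
  omega

/-- PROOF.  (Compare `Pool/Agent/H63/SubV/Lower.lean`, `exists_poly`.)  Fix coordinate choices
`π : Fin s → ∀ i, Fin (r i) ↪ Fin (m i)` (finitely many).  Index type
`I π = Σ t : Fin s, (Σ i, Fin (r i) × {x // x ∉ Set.range (π t i)}) ⊕ (∀ i, Fin (r i))` has
`s * coneDim m r` elements.  Generic points over `MvPolynomial (I π) ℂ`: frame entries `X` at
`x ∉ range`, `[q = q']` at `x = π q'`, core entries `X`.  The polynomials
`ψ y = ∑ t, tens (generic point t) y`, `y ∈ Y`, are more than the number of variables, so they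
are algebraically dependent: there is `G π ≠ 0` in `MvPolynomial Y ℂ` with `aeval ψ (G π) = 0`,
and `G π` vanishes at the restriction to `Y` of every sum of `s` tensors in the normal form of
`exists_normal` with coordinates `π`.  `F = rename Subtype.val (∏_π G π)` is a nonzero
polynomial with variables in `Y` that vanishes on `SumsOf m r s`. -/
theorem low {m r : Fin n → ℕ} {s : ℕ} (Y : Finset (∀ i, Fin (m i)))
    (hY : s * coneDim m r < Y.card) : ¬ IndepOn (SumsOf m r s) Y := by
  classical
  intro hI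
  choose G hG0 hG using fun π : Fin s → ∀ i, Fin (r i) ↪ Fin (m i) => lpoly π Y hY
  set F : MvPolynomial (∀ i, Fin (m i)) ℂ :=
    MvPolynomial.rename Subtype.val (∏ π, G π) with hF
  have hvars : F.vars ⊆ Y := by
    intro y hy
    have h1 := MvPolynomial.vars_rename (Subtype.val : {y // y ∈ Y} → ∀ i, Fin (m i))
      (∏ π, G π) hy
    obtain ⟨z, _, rfl⟩ := Finset.mem_image.1 h1
    exact z.2
  have hF0 : F ≠ 0 := by
    intro h
    have h1 : (∏ π, G π) = 0 := by
      apply MvPolynomial.rename_injective _ Subtype.val_injective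
      rw [← hF, h, map_zero]
    rw [Finset.prod_eq_zero_iff] at h1
    obtain ⟨π, _, hπ⟩ := h1
    exact hG0 π hπ
  refine hF0 (hI F hvars fun T hT => ?_)
  obtain ⟨S, hS, rfl⟩ := hT
  choose π p hp hSp using fun j => exists_normal (hS j)
  rw [hF, MvPolynomial.eval_rename, map_prod]
  apply Finset.prod_eq_zero (Finset.mem_univ π)
  let P : LIdx π → ℂ := fun a => match a with
    | ⟨t, Sum.inl ⟨i, (q, x)⟩⟩ => (p t).1 i q x.1
    | ⟨t, Sum.inr q⟩ => (p t).2 q
  have hfr : ∀ t i q x, MvPolynomial.eval P (lfr π t i q x) = (p t).1 i q x := by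
    intro t i q x
    unfold lfr
    by_cases h : x ∉ Set.range (π t i)
    · rw [dif_pos h, MvPolynomial.eval_X]
    · rw [dif_neg h]
      obtain ⟨q', rfl⟩ := not_not.1 h
      rw [hp t i q q']
      by_cases hq : q = q'
      · rw [if_pos (by rw [hq]), if_pos hq, map_one]
      · rw [if_neg (fun h' => hq ((π t i).injective h')), if_neg hq, map_zero]
  have hps : ∀ y, MvPolynomial.eval P (lps π y) = (∑ j, S j) y := by
    intro y
    unfold lps
    rw [map_sum, Finset.sum_apply]
    refine Finset.sum_congr rfl fun t _ => ?_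
    rw [hSp t, map_sum]
    unfold tens
    refine Finset.sum_congr rfl fun q _ => ?_
    rw [map_mul, map_prod, MvPolynomial.eval_X]
    congr 1
    exact Finset.prod_congr rfl fun i _ => hfr t i (q i) (y i)
  have h3 : MvPolynomial.eval P (MvPolynomial.aeval
      (fun y : {y // y ∈ Y} => lps π y.1) (G π)) =
      MvPolynomial.eval (fun y : {y // y ∈ Y} => MvPolynomial.eval P (lps π y.1)) (G π) := by
    rw [MvPolynomial.aeval_def]
    have := MvPolynomial.hom_eval₂ (G π) (algebraMap ℂ (MvPolynomial (LIdx π) ℂ))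
      (MvPolynomial.eval P) (fun y : {y // y ∈ Y} => lps π y.1)
    rw [this, MvPolynomial.eval₂_eq_eval_map]
    congr 1
    have hc : (MvPolynomial.eval P).comp (algebraMap ℂ (MvPolynomial (LIdx π) ℂ)) =
        RingHom.id ℂ := by
      ext; simp
    rw [hc, MvPolynomial.map_id]
  rw [hG π, map_zero] at h3
  have h4 : (fun y : {y // y ∈ Y} => MvPolynomial.eval P (lps π y.1)) =
      (∑ j, S j) ∘ Subtype.val := funext fun y => hps y.1
  rw [h4] at h3
  exact h3.symm

end Pool.Agent.SV48
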