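import Pool.Agent.SV48.Rep

/-! The reduced multilinear rank. -/

namespace Pool.Agent.SV48

open Finset

variable {n : ℕ}

theorem red_le (r : Fin n → ℕ) (i : Fin n) : red r i ≤ r i := min_le_left _ _

theorem red_pos {r : Fin n → ℕ} (hr : ∀ i, 1 ≤ r i) (i : Fin n) : 1 ≤ red r i := by
  refine le_min (hr i) ?_
  exact Finset.one_le_prod' (f := fun j => r j) (fun j _ => hr j)

theorem red_eq_of_ne {r : Fin n → ℕ} (hr : ∀ i, 1 ≤ r i) {i₀ : Fin n}
    (h : ∏ j ∈ univ.erase i₀, r j < r i₀) {i : Fin n} (hi : i ≠ i₀) :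
    r i ≤ ∏ j ∈ univ.erase i₀, r j ∧ red r i = r i := by
  have h1 : r i ≤ ∏ j ∈ univ.erase i₀, r j :=
    Finset.single_le_prod' (f := fun j => r j) (fun j _ => hr j)
      (Finset.mem_erase.mpr ⟨hi, Finset.mem_univ i⟩)
  have h2 : r i₀ ≤ ∏ j ∈ univ.erase i, r j :=
    Finset.single_le_prod' (f := fun j => r j) (fun j _ => hr j)
      (Finset.mem_erase.mpr ⟨hi.symm, Finset.mem_univ i₀⟩)
  exact ⟨h1, min_eq_left (by omega)⟩

/-- PROOF.  If `r i ≤ ∏_{j ≠ i} r j` for all `i` then `red r = r`.  Otherwise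
`r i₀ > ∏_{j ≠ i₀} r j` for some `i₀`; then `r i ≤ ∏_{j ≠ i₀} r j < r i₀ ≤ ∏_{j ≠ i} r j` for
`i ≠ i₀`, so `red r i = r i` for `i ≠ i₀` and `red r i₀ = ∏_{j ≠ i₀} r j = ∏_{j ≠ i₀} red r j`; for
`i ≠ i₀`: `red r i = r i ≤ ∏_{j ≠ i₀} r j = red r i₀ ≤ ∏_{j ≠ i} red r j`. -/
theorem red_red {r : Fin n → ℕ} (hr : ∀ i, 1 ≤ r i) (i : Fin n) :
    red r i ≤ ∏ j ∈ univ.erase i, red r j := by
  by_cases hall : ∀ i, r i ≤ ∏ j ∈ univ.erase i, r j
  · have h1 : ∀ i, red r i = r i := fun i => min_eq_left (hall i)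
    rw [h1 i, Finset.prod_congr rfl fun j _ => h1 j]
    exact hall i
  · push Not at hall
    obtain ⟨i₀, h0⟩ := hall
    have h2 : red r i₀ = ∏ j ∈ univ.erase i₀, r j := min_eq_right h0.le
    by_cases hi : i = i₀
    · subst hi
      rw [h2]
      apply le_of_eq
      apply Finset.prod_congr rfl
      intro j hj
      exact (red_eq_of_ne hr h0 (Finset.mem_erase.mp hj).1).2.symm
    · obtain ⟨h3, h4⟩ := red_eq_of_ne hr h0 hi
      rw [h4]
      refine le_trans (h3.trans_eq h2.symm) ?_
      exact Finset.single_le_prod' (f := fun j => red r j) (fun j _ => red_pos hr j)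
        (Finset.mem_erase.mpr ⟨fun h => hi h.symm, Finset.mem_univ i₀⟩)

theorem enlarge_aux {m : ℕ} (d : ℕ) : ∀ U : Submodule ℂ (Fin m → ℂ),
    Module.finrank ℂ U + d ≤ m → ∃ A : Submodule ℂ (Fin m → ℂ), U ≤ A ∧
      Module.finrank ℂ A = Module.finrank ℂ U + d := by
  induction d with
  | zero =>
    intro U _
    exact ⟨U, le_rfl, rfl⟩
  | succ d ih =>
    intro U hU
    have hlt : Module.finrank ℂ U < Module.finrank ℂ (Fin m → ℂ) := by
      rw [Module.finrank_fin_fun]
      omega
    obtain ⟨v, hv⟩ := U.exists_of_finrank_lt hlt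
    have hv1 : v ∉ U := by
      have := hv 1 one_ne_zero
      rwa [one_smul] at this
    have hle : Module.finrank ℂ (U ⊔ Submodule.span ℂ {v} : Submodule ℂ (Fin m → ℂ)) ≤
        Module.finrank ℂ U + 1 := by
      refine le_trans (Submodule.finrank_add_le_finrank_add_finrank _ _) ?_
      have := finrank_span_le_card (R := ℂ) ({v} : Set (Fin m → ℂ))
      simp only [Set.toFinset_singleton, Finset.card_singleton] at this
      omega
    have hgt : Module.finrank ℂ U <
        Module.finrank ℂ (U ⊔ Submodule.span ℂ {v} : Submodule ℂ (Fin m → ℂ)) := by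
      apply Submodule.finrank_lt_finrank_of_lt
      apply lt_of_le_of_ne le_sup_left
      intro h
      apply hv1
      rw [h]
      exact Submodule.mem_sup_right (Submodule.mem_span_singleton_self v)
    have heq : Module.finrank ℂ (U ⊔ Submodule.span ℂ {v} : Submodule ℂ (Fin m → ℂ)) =
        Module.finrank ℂ U + 1 := by omega
    obtain ⟨A, hA, hAf⟩ := ih (U ⊔ Submodule.span ℂ {v}) (by omega)
    exact ⟨A, le_sup_left.trans hA, by omega⟩

theorem enlarge {m k : ℕ} (U : Submodule ℂ (Fin m → ℂ)) (h1 : Module.finrank ℂ U ≤ k)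
    (h2 : k ≤ m) : ∃ A : Submodule ℂ (Fin m → ℂ), U ≤ A ∧ Module.finrank ℂ A = k := by
  obtain ⟨A, hA, hAf⟩ := enlarge_aux (k - Module.finrank ℂ U) U (by omega)
  exact ⟨A, hA, by omega⟩

theorem cone_of_le {m r : Fin n → ℕ} (hrm : ∀ i, r i ≤ m i)
    (U : ∀ i, Submodule ℂ (Fin (m i) → ℂ)) (hU : ∀ i, Module.finrank ℂ (U i) ≤ r i) {T : Arr m}
    (hT : T ∈ Submodule.span ℂ {S | ∃ v : ∀ i, Fin (m i) → ℂ, (∀ i, v i ∈ U i) ∧
      S = decomposable v}) : T ∈ SubspaceCone m r := by
  choose A hA hAf using fun i => enlarge (U i) (hU i) (hrm i)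
  refine ⟨A, hAf, ?_⟩
  refine Submodule.span_mono ?_ hT
  rintro S ⟨v, hv, rfl⟩
  exact ⟨v, fun i => hA i (hv i), rfl⟩

theorem sum_update {r : Fin n → ℕ} (i₀ : Fin n) (z : Fin (r i₀)) (f : (∀ i, Fin (r i)) → ℂ) :
    ∑ q, f q = ∑ q ∈ univ.filter (fun q : ∀ i, Fin (r i) => q i₀ = z),
      ∑ k, f (Function.update q i₀ k) := by
  classical
  have hmaps : ∀ q ∈ (univ : Finset (∀ i, Fin (r i))), Function.update q i₀ z ∈
      univ.filter (fun q : ∀ i, Fin (r i) => q i₀ = z) := by
    intro q _
    rw [Finset.mem_filter]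
    exact ⟨Finset.mem_univ _, Function.update_self _ _ _⟩
  rw [← Finset.sum_fiberwise_of_maps_to hmaps]
  apply Finset.sum_congr rfl
  intro q0 hq0
  have hq0z : q0 i₀ = z := (Finset.mem_filter.mp hq0).2
  symm
  refine Finset.sum_bij (fun k _ => Function.update q0 i₀ k) ?_ ?_ ?_ ?_
  · intro k _
    rw [Finset.mem_filter]
    refine ⟨Finset.mem_univ _, ?_⟩
    rw [Function.update_idem, ← hq0z, Function.update_eq_self]
  · intro k _ k' _ hkk
    have := congrFun hkk i₀
    simpa using this
  · intro q hq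
    rw [Finset.mem_filter] at hq
    refine ⟨q i₀, Finset.mem_univ _, ?_⟩
    rw [← hq.2, Function.update_idem, Function.update_eq_self]
  · intro k _
    rfl

theorem card_slice {r : Fin n → ℕ} (i₀ : Fin n) (z : Fin (r i₀)) :
    (univ.filter (fun q : ∀ i, Fin (r i) => q i₀ = z)).card = ∏ j ∈ univ.erase i₀, r j := by
  classical
  have h1 : univ.filter (fun q : ∀ i, Fin (r i) => q i₀ = z) =
      Fintype.piFinset (Function.update (fun i => (univ : Finset (Fin (r i)))) i₀ {z}) := by
    ext q
    rw [Finset.mem_filter, Fintype.mem_piFinset]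
    constructor
    · rintro ⟨_, hq⟩ i
      by_cases hi : i = i₀
      · subst hi
        rw [Function.update_self, Finset.mem_singleton]
        exact hq
      · rw [Function.update_of_ne hi]
        exact Finset.mem_univ _
    · intro hq
      refine ⟨Finset.mem_univ _, ?_⟩
      have := hq i₀
      rw [Function.update_self, Finset.mem_singleton] at this
      exact this
  rw [h1, Fintype.card_piFinset, ← Finset.mul_prod_erase univ _ (Finset.mem_univ i₀)]
  rw [Function.update_self, Finset.card_singleton, one_mul]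
  apply Finset.prod_congr rfl
  intro j hj
  rw [Function.update_of_ne (Finset.mem_erase.mp hj).1, Finset.card_univ, Fintype.card_fin]

theorem tens_slice {m r : Fin n → ℕ} (p : Pt m r) (i₀ : Fin n) (z : Fin (r i₀)) :
    tens p = ∑ q ∈ univ.filter (fun q : ∀ i, Fin (r i) => q i₀ = z),
      decomposable (Function.update (fun i => p.1 i (q i)) i₀
        (∑ k, p.2 (Function.update q i₀ k) • p.1 i₀ k)) := by
  classical
  funext y
  rw [Finset.sum_apply]
  unfold tens
  rw [sum_update i₀ z]
  apply Finset.sum_congr rfl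
  intro q _
  unfold decomposable
  rw [← Finset.mul_prod_erase univ _ (Finset.mem_univ i₀), Function.update_self,
    Finset.sum_apply, Finset.sum_mul]
  apply Finset.sum_congr rfl
  intro k _
  rw [← Finset.mul_prod_erase univ _ (Finset.mem_univ i₀), Function.update_self, Pi.smul_apply,
    smul_eq_mul, mul_assoc]
  congr 2
  apply Finset.prod_congr rfl
  intro j hj
  have hj' := (Finset.mem_erase.mp hj).1
  rw [Function.update_of_ne hj', Function.update_of_ne hj']

/-- PROOF.  `⊆` (monotonicity): enlarge the subspaces `A i` (`red r i ≤ r i ≤ m i`).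
`⊇`: if `red r = r` trivial; otherwise as in `red_red` only the index `i₀` changes.  Let `T` be in
the cone of `r`; by `exists_normal` `T = tens p`.  Let `P = ∏_{j ≠ i₀} r j = red r i₀` and
`e : (∀ j : {j // j ≠ i₀}, Fin (r j)) ≃ Fin P`.  Define the point `p'` of type `Pt m (red r)`: same
frames for `j ≠ i₀` (`red r j = r j`, use `Fin.cast`), `p'.1 i₀ k = ∑_{q, (q_j)_{j ≠ i₀} = e.symm k}
p.2 q • p.1 i₀ (q i₀)` and `p'.2 q' = 1` if `q' i₀ = e ((q'_j)_{j ≠ i₀})`, `0` otherwise.  Then
`tens p' = tens p`; `tens_mem`.  (Alternatively argue directly with subspaces: `A' i₀` = the span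
of the mode-`i₀` vectors `∑_{x} …`, of dimension `≤ P`.) -/
theorem cone_red {m r : Fin n → ℕ} (hr : ∀ i, 1 ≤ r i) (hrm : ∀ i, r i ≤ m i) :
    SubspaceCone m (red r) = SubspaceCone m r := by
  classical
  have hredm : ∀ i, red r i ≤ m i := fun i => (red_le r i).trans (hrm i)
  apply Set.Subset.antisymm
  · rintro T ⟨A, hA, hT⟩
    exact cone_of_le hrm A (fun i => (hA i).le.trans (red_le r i)) hT
  · intro T hT
    by_cases hall : ∀ i, r i ≤ ∏ j ∈ univ.erase i, r j
    · have h1 : red r = r := by
        funext i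
        exact min_eq_left (hall i)
      rw [h1]
      exact hT
    · push Not at hall
      obtain ⟨i₀, h0⟩ := hall
      have h2 : red r i₀ = ∏ j ∈ univ.erase i₀, r j := min_eq_right h0.le
      obtain ⟨_, p, _, rfl⟩ := exists_normal hT
      set z : Fin (r i₀) := ⟨0, hr i₀⟩ with hz
      set Q := univ.filter (fun q : ∀ i, Fin (r i) => q i₀ = z) with hQ
      set w : (∀ i, Fin (r i)) → Fin (m i₀) → ℂ :=
        fun q => ∑ k, p.2 (Function.update q i₀ k) • p.1 i₀ k with hw
      refine cone_of_le hredm (Function.update (fun i => Submodule.span ℂ (Set.range (p.1 i))) i₀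
        (Submodule.span ℂ (Q.image w : Set (Fin (m i₀) → ℂ)))) ?_ ?_
      · intro i
        by_cases hi : i = i₀
        · subst hi
          rw [Function.update_self, h2, ← card_slice i z]
          exact (finrank_span_finset_le_card _).trans Finset.card_image_le
        · rw [Function.update_of_ne hi, (red_eq_of_ne hr h0 hi).2]
          refine (finrank_range_le_card (R := ℂ) (p.1 i)).trans ?_
          rw [Fintype.card_fin]
      · rw [tens_slice p i₀ z]
        apply Submodule.sum_mem
        intro q hq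
        apply Submodule.subset_span
        refine ⟨_, ?_, rfl⟩
        intro i
        by_cases hi : i = i₀
        · subst hi
          rw [Function.update_self, Function.update_self]
          apply Submodule.subset_span
          rw [Finset.mem_coe]
          exact Finset.mem_image_of_mem w hq
        · rw [Function.update_of_ne hi, Function.update_of_ne hi]
          exact Submodule.subset_span ⟨q i, rfl⟩

end Pool.Agent.SV48
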