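import Mathlib

/-! Greedy selection of subspaces. -/

namespace Pool.Agent.SV48

open Finset

private theorem sup_bound {V : Type*} [AddCommGroup V] [Module ℂ V] [FiniteDimensional ℂ V]
    {ι : Type*} [DecidableEq ι] (W : ι → Submodule ℂ V) (U : Submodule ℂ V) (J : Finset ι) :
    Module.finrank ℂ (U ⊔ ⨆ t ∈ J, W t : Submodule ℂ V) + J.card * Module.finrank ℂ U ≤
      Module.finrank ℂ U + ∑ t ∈ J, Module.finrank ℂ (U ⊔ W t : Submodule ℂ V) := by
  induction J using Finset.induction_on with
  | empty =>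
    have h0 : (⨆ t ∈ (∅ : Finset ι), W t : Submodule ℂ V) = ⊥ := by
      rw [eq_bot_iff]
      exact iSup₂_le fun t ht => absurd ht (Finset.notMem_empty t)
    rw [h0, sup_bot_eq, Finset.card_empty, Nat.zero_mul, Finset.sum_empty]
  | insert a J ha ih =>
    rw [Finset.card_insert_of_notMem ha, Finset.sum_insert ha, Finset.iSup_insert]
    have h1 : (U ⊔ (W a ⊔ ⨆ t ∈ J, W t) : Submodule ℂ V) =
        (U ⊔ ⨆ t ∈ J, W t) ⊔ (U ⊔ W a) := by
      rw [sup_sup_distrib_left, sup_comm]
    rw [h1]
    have h2 := Submodule.finrank_sup_add_finrank_inf_eq (U ⊔ ⨆ t ∈ J, W t) (U ⊔ W a)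
    have h3 : Module.finrank ℂ U ≤
        Module.finrank ℂ ((U ⊔ ⨆ t ∈ J, W t) ⊓ (U ⊔ W a) : Submodule ℂ V) :=
      Submodule.finrank_mono (le_inf le_sup_left le_sup_left)
    rw [Nat.add_mul, Nat.one_mul]
    omega

/-- PROOF.  Induction on `s` (for `s ≤ S`), keeping the invariant
`s * d ≤ S * finrank (⨆ t ∈ I, W t)`, `d = finrank V`; more precisely
`(S - s) * d ≥ S * (d - finrank (⨆ t ∈ I, W t))`.  Step: let `U = ⨆ t ∈ I, W t`, `|I| = s < S`.
`∑_{t ∉ I} (finrank (U ⊔ W t) - finrank U) ≥ d - finrank U` (because `U ⊔ ⨆_{t ∉ I} W t = ⊤` and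
adding the `W t` one after the other increases the dimension by at most
`finrank (U ⊔ W t) - finrank U` each, submodularity
`Submodule.finrank_sup_add_finrank_inf_eq`), so some `t ∉ I` has
`(S - s) * (finrank (U ⊔ W t) - finrank U) ≥ d - finrank U`.  Then
`(S - s) * (d - finrank (U ⊔ W t)) ≤ (S - s - 1) * (d - finrank U)`, and with the invariant
`S * (d - finrank U) ≤ (S - s) * d` the new one follows. -/
theorem select {V : Type*} [AddCommGroup V] [Module ℂ V] [FiniteDimensional ℂ V] {S : ℕ}
    (W : Fin S → Submodule ℂ V) (h : ⨆ t, W t = ⊤) (s : ℕ) (hs : s ≤ S) :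
    ∃ I : Finset (Fin S), I.card = s ∧
      s * Module.finrank ℂ V ≤ S * Module.finrank ℂ (⨆ t ∈ I, W t : Submodule ℂ V) := by
  classical
  induction s with
  | zero => exact ⟨∅, rfl, by simp⟩
  | succ s ih =>
    obtain ⟨I, hI, hinv⟩ := ih (by omega)
    set d := Module.finrank ℂ V with hd
    set U : Submodule ℂ V := ⨆ t ∈ I, W t with hU
    -- the union of everything
    have htop : (U ⊔ ⨆ t ∈ Iᶜ, W t : Submodule ℂ V) = ⊤ := by
      rw [eq_top_iff, ← h]
      refine iSup_le fun t => ?_
      by_cases ht : t ∈ I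
      · exact le_sup_of_le_left (le_iSup₂_of_le t ht le_rfl)
      · exact le_sup_of_le_right (le_iSup₂_of_le t (Finset.mem_compl.2 ht) le_rfl)
    have h1 := sup_bound W U Iᶜ
    rw [htop, finrank_top, ← hd, Finset.card_compl, Fintype.card_fin, hI] at h1
    have hle : Module.finrank ℂ U ≤ d := Submodule.finrank_le U
    have hex : ∃ t ∈ Iᶜ, d - Module.finrank ℂ U ≤
        (S - s) * (Module.finrank ℂ (U ⊔ W t : Submodule ℂ V) - Module.finrank ℂ U) := by
      by_contra hcon
      push Not at hcon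
      have hne : (Iᶜ : Finset (Fin S)).Nonempty := by
        rw [← Finset.card_pos, Finset.card_compl, Fintype.card_fin, hI]
        omega
      have h2 := Finset.sum_lt_sum_of_nonempty hne hcon
      rw [Finset.sum_const, Finset.card_compl, Fintype.card_fin, hI, smul_eq_mul,
        ← Finset.mul_sum] at h2
      have h3 := lt_of_mul_lt_mul_left h2 (Nat.zero_le _)
      have h4 : ∑ t ∈ Iᶜ, (Module.finrank ℂ (U ⊔ W t : Submodule ℂ V) - Module.finrank ℂ U) +
          (S - s) * Module.finrank ℂ U =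
          ∑ t ∈ Iᶜ, Module.finrank ℂ (U ⊔ W t : Submodule ℂ V) := by
        have h5 : (S - s) * Module.finrank ℂ U = ∑ t ∈ Iᶜ, Module.finrank ℂ U := by
          rw [Finset.sum_const, Finset.card_compl, Fintype.card_fin, hI, smul_eq_mul]
        rw [h5, ← Finset.sum_add_distrib]
        refine Finset.sum_congr rfl fun t _ => ?_
        have h6 : Module.finrank ℂ U ≤ Module.finrank ℂ (U ⊔ W t : Submodule ℂ V) :=
          Submodule.finrank_mono le_sup_left
        omega
      omega
    obtain ⟨t, ht, hgain⟩ := hex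
    rw [Finset.mem_compl] at ht
    refine ⟨insert t I, by rw [Finset.card_insert_of_notMem ht, hI], ?_⟩
    have hU' : (⨆ t' ∈ insert t I, W t' : Submodule ℂ V) = U ⊔ W t := by
      rw [Finset.iSup_insert, sup_comm]
    rw [hU']
    have h6 : Module.finrank ℂ U ≤ Module.finrank ℂ (U ⊔ W t : Submodule ℂ V) :=
      Submodule.finrank_mono le_sup_left
    have h7 : Module.finrank ℂ (U ⊔ W t : Submodule ℂ V) ≤ d := Submodule.finrank_le _
    obtain ⟨a, ha⟩ := Nat.exists_eq_add_of_le (show s + 1 ≤ S from hs)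
    obtain ⟨g, hg⟩ := Nat.exists_eq_add_of_le h6
    obtain ⟨e, he⟩ := Nat.exists_eq_add_of_le h7
    set u := Module.finrank ℂ U with hu
    set v := Module.finrank ℂ (U ⊔ W t : Submodule ℂ V) with hv
    have h8 : S - s = a + 1 := by omega
    have h9 : v - u = g := by omega
    have h10 : d - u = g + e := by omega
    rw [h8, h9, h10] at hgain
    -- hgain : g + e ≤ (a + 1) * g, hinv : s * d ≤ S * u
    have h11 : e ≤ a * g := by nlinarith
    rw [he, hg, ha] at hinv
    rw [he, hg, ha]
    -- goal : (s + 1) * (u + g + e) ≤ (s + 1 + a) * (u + g)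
    have h12 : s * (g + e) ≤ (a + 1) * u := by nlinarith
    have key : (s + 1) * e ≤ a * (u + g) := by
      rcases Nat.eq_zero_or_pos a with ha0 | ha0
      · subst ha0
        have : e = 0 := by nlinarith
        subst this
        simp
      · -- (a+1) * ((s+1) e) ≤ (a+1) * (a (u+g))
        have h13 : (a + 1) * ((s + 1) * e) ≤ (a + 1) * (a * (u + g)) := by
          -- s * e * (a + 1) ≤ s * a * (g + e)  since e ≤ a g
          have h14 : s * e * (a + 1) ≤ a * (s * (g + e)) := by nlinarith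
          have h15 : a * (s * (g + e)) ≤ a * ((a + 1) * u) := Nat.mul_le_mul_left _ h12
          have h16 : e * (a + 1) ≤ (a * g) * (a + 1) := Nat.mul_le_mul_right _ h11
          nlinarith
        exact Nat.le_of_mul_le_mul_left h13 (by omega)
    nlinarith

/-- A subspace of dimension `d` projects onto some `d` coordinates.

PROOF.  For instance: the coordinate functionals restricted to `W` span the dual of `W` (their
common kernel is zero), so some `d = finrank W` of them form a basis of the dual (choose a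
maximal linearly independent subset, `exists_linearIndependent`); then the map
`W → (Y → ℂ)` is injective, hence bijective since both have dimension `d`. -/
theorem coord {σ : Type*} [Fintype σ] (W : Submodule ℂ (σ → ℂ)) :
    ∃ Y : Finset σ, Y.card = Module.finrank ℂ W ∧
      ∀ g : σ → ℂ, ∃ f ∈ W, ∀ y ∈ Y, f y = g y := by
  classical
  obtain ⟨Y, hY, hmax⟩ := Finset.exists_max_image
    (Finset.univ.filter fun Y : Finset σ => ∀ g : σ → ℂ, ∃ f ∈ W, ∀ y ∈ Y, f y = g y)
    Finset.card ⟨∅, by
      rw [Finset.mem_filter]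
      exact ⟨Finset.mem_univ _, fun g => ⟨0, W.zero_mem, by simp⟩⟩⟩
  rw [Finset.mem_filter] at hY
  refine ⟨Y, ?_, hY.2⟩
  let L : W →ₗ[ℂ] (Y → ℂ) :=
    { toFun := fun f y => (f : σ → ℂ) y
      map_add' := fun f g => rfl
      map_smul' := fun c f => rfl }
  have hsurj : Function.Surjective L := by
    intro g
    obtain ⟨f, hf, hfg⟩ := hY.2 (fun y => if h : y ∈ Y then g ⟨y, h⟩ else 0)
    refine ⟨⟨f, hf⟩, ?_⟩
    funext y
    have h1 := hfg y y.2
    rw [dif_pos y.2] at h1
    exact h1
  have hle : Y.card ≤ Module.finrank ℂ W := by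
    have h1 := LinearMap.finrank_le_finrank_of_surjective hsurj
    rwa [Module.finrank_fintype_fun_eq_card, Fintype.card_coe] at h1
  by_contra hne
  have hlt : Module.finrank ℂ (Y → ℂ) < Module.finrank ℂ W := by
    rw [Module.finrank_fintype_fun_eq_card, Fintype.card_coe]
    omega
  obtain ⟨f, hf, hf0⟩ := (Submodule.ne_bot_iff _).1 (LinearMap.ker_ne_bot_of_finrank_lt (f := L) hlt)
  rw [LinearMap.mem_ker] at hf
  have hfz : ∀ y ∈ Y, (f : σ → ℂ) y = 0 := fun y hy => congrFun hf ⟨y, hy⟩
  obtain ⟨z, hz⟩ : ∃ z, (f : σ → ℂ) z ≠ 0 := by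
    by_contra hcon
    push Not at hcon
    exact hf0 (Subtype.ext (funext hcon))
  have hzY : z ∉ Y := fun h => hz (hfz z h)
  have hins : insert z Y ∈ Finset.univ.filter
      fun Y : Finset σ => ∀ g : σ → ℂ, ∃ f ∈ W, ∀ y ∈ Y, f y = g y := by
    rw [Finset.mem_filter]
    refine ⟨Finset.mem_univ _, fun g => ?_⟩
    obtain ⟨f0, hf0W, hf0g⟩ := hY.2 g
    refine ⟨f0 + ((g z - f0 z) / (f : σ → ℂ) z) • (f : σ → ℂ),
      W.add_mem hf0W (W.smul_mem _ f.2), ?_⟩
    intro y hy
    rcases Finset.mem_insert.1 hy with h1 | h1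
    · rw [h1, Pi.add_apply, Pi.smul_apply, smul_eq_mul, div_mul_cancel₀ _ hz]
      ring
    · rw [Pi.add_apply, Pi.smul_apply, hfz y h1, smul_zero, add_zero]
      exact hf0g y h1
  have h2 := hmax _ hins
  rw [Finset.card_insert_of_notMem hzY] at h2
  omega

end Pool.Agent.SV48
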