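import Pool.Agent.SV48.Rep

/-! Terracini's lemma (the easy direction). -/

namespace Pool.Agent.SV48

open Finset

variable {n : ℕ}

private theorem ter_fderiv_apply {E F : Type*} [NormedAddCommGroup E] [NormedSpace ℂ E]
    [NormedAddCommGroup F] [NormedSpace ℂ F] {f : E → F} {f' : E →L[ℂ] F} {p v : E} {L : F}
    (hf : HasFDerivAt f f' p) (h : ∀ ε : ℂ, f (p + ε • v) = f p + ε • L) : f' v = L := by
  have h1 : HasDerivAt (fun ε : ℂ => p + ε • v) v 0 := by
    simpa using ((hasDerivAt_id (0 : ℂ)).smul_const v).const_add p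
  have h2 : HasDerivAt (fun ε : ℂ => f (p + ε • v)) (f' v) 0 := by
    have hf' : HasFDerivAt f f' (p + (0 : ℂ) • v) := by simpa using hf
    exact hf'.comp_hasDerivAt 0 h1
  have h3 : HasDerivAt (fun ε : ℂ => f p + ε • L) L 0 := by
    simpa using ((hasDerivAt_id (0 : ℂ)).smul_const L).const_add (f p)
  have h4 : (fun ε : ℂ => f (p + ε • v)) = fun ε : ℂ => f p + ε • L := funext h
  rw [h4] at h2
  exact h2.unique h3

private theorem ter_core {m r : Fin n → ℕ} (p : Pt m r) (q : ∀ i, Fin (r i)) (ε : ℂ) :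
    tens (p + ε • ((0, Pi.single q 1) : Pt m r)) = tens p + ε • coreV p q := by
  ext y
  simp only [tens, coreV, Prod.fst_add, Prod.smul_fst, smul_zero, add_zero, Prod.snd_add,
    Prod.smul_snd, Pi.add_apply, Pi.smul_apply, Pi.zero_apply, smul_eq_mul, add_mul,
    Finset.sum_add_distrib, mul_assoc, ← Finset.mul_sum]
  congr 2
  rw [Finset.sum_eq_single q]
  · rw [Pi.single_eq_same, one_mul]
  · intro q' _ hq'
    rw [Pi.single_eq_of_ne hq', zero_mul]
  · intro h
    exact absurd (Finset.mem_univ _) h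

private theorem ter_line {m r : Fin n → ℕ} (p : Pt m r) (i : Fin n) (x : Fin (m i))
    (j : Fin (r i)) (ε : ℂ) :
    tens (p + ε • ((Pi.single i (Pi.single j (Pi.single x 1)), 0) : Pt m r)) =
      tens p + ε • lineV p i x j := by
  ext y
  simp only [tens, lineV, Prod.fst_add, Prod.smul_fst, smul_zero, add_zero, Prod.snd_add,
    Prod.smul_snd, Pi.add_apply, Pi.smul_apply, Pi.zero_apply, smul_eq_mul]
  have key : ∀ q : ∀ i, Fin (r i),
      p.2 q * ∏ l, (p.1 l (q l) (y l) +
        ε * (Pi.single i (Pi.single j (Pi.single x 1)) :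
          ∀ l, Fin (r l) → Fin (m l) → ℂ) l (q l) (y l)) =
      p.2 q * ∏ l, p.1 l (q l) (y l) +
        ε * (if y i = x then (if q i = j then
          p.2 q * ∏ l ∈ univ.erase i, p.1 l (q l) (y l) else 0) else 0) := by
    intro q
    rw [← Finset.mul_prod_erase univ (fun l => (p.1 l (q l) (y l) +
        ε * (Pi.single i (Pi.single j (Pi.single x 1)) :
          ∀ l, Fin (r l) → Fin (m l) → ℂ) l (q l) (y l))) (Finset.mem_univ i),
      ← Finset.mul_prod_erase univ (fun l => p.1 l (q l) (y l)) (Finset.mem_univ i)]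
    have h1 : ∏ l ∈ univ.erase i, (p.1 l (q l) (y l) +
        ε * (Pi.single i (Pi.single j (Pi.single x 1)) :
          ∀ l, Fin (r l) → Fin (m l) → ℂ) l (q l) (y l)) =
        ∏ l ∈ univ.erase i, p.1 l (q l) (y l) := by
      refine Finset.prod_congr rfl fun l hl => ?_
      rw [Pi.single_eq_of_ne (Finset.ne_of_mem_erase hl)]
      simp
    rw [h1, Pi.single_eq_same]
    by_cases hq : q i = j
    · rw [hq, Pi.single_eq_same, if_pos rfl]
      by_cases hy : y i = x
      · rw [hy, Pi.single_eq_same, if_pos rfl]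
        ring
      · rw [Pi.single_eq_of_ne hy, if_neg hy]
        ring
    · rw [Pi.single_eq_of_ne hq, if_neg hq]
      simp
  rw [Finset.sum_congr rfl fun q _ => key q, Finset.sum_add_distrib, ← Finset.mul_sum]
  congr 2
  by_cases hy : y i = x
  · simp only [if_pos hy]
    rw [Finset.sum_filter]
  · simp only [if_neg hy]
    exact Finset.sum_const_zero

private noncomputable def terPsi (m r : Fin n → ℕ) (s : ℕ) (Y : Finset (∀ i, Fin (m i))) :
    (Fin s → Pt m r) → (Y → ℂ) :=
  fun θ y => ∑ t, tens (θ t) y.1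

private theorem ter_contDiff (m r : Fin n → ℕ) (s : ℕ) (Y : Finset (∀ i, Fin (m i))) :
    ContDiff ℂ 1 (terPsi m r s Y) := by
  refine contDiff_pi.mpr fun y => ?_
  refine ContDiff.sum fun t _ => ?_
  refine ContDiff.sum fun q _ => ContDiff.mul ?_ ?_
  · have h0 : ContDiff ℂ 1 (fun θ : Fin s → Pt m r => (θ t).2) :=
      contDiff_snd.comp (contDiff_apply ℂ (Pt m r) t)
    exact contDiff_pi.mp h0 q
  · refine contDiff_prod fun i _ => ?_
    have h0 : ContDiff ℂ 1 (fun θ : Fin s → Pt m r => (θ t).1) :=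
      contDiff_fst.comp (contDiff_apply ℂ (Pt m r) t)
    exact contDiff_pi.mp (contDiff_pi.mp (contDiff_pi.mp h0 i) (q i)) (y.1 i)

private theorem ter_dir {m r : Fin n → ℕ} {s : ℕ} (Y : Finset (∀ i, Fin (m i)))
    (θ : Fin s → Pt m r) (t : Fin s) (v : Pt m r) (L : Arr m)
    (h : ∀ ε : ℂ, tens (θ t + ε • v) = tens (θ t) + ε • L) (ε : ℂ) :
    terPsi m r s Y (θ + ε • (Pi.single t v : Fin s → Pt m r)) =
      terPsi m r s Y θ + ε • (fun y : Y => L y.1) := by
  ext y
  simp only [terPsi, Pi.add_apply, Pi.smul_apply, smul_eq_mul]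
  rw [← Finset.add_sum_erase univ _ (Finset.mem_univ t),
    ← Finset.add_sum_erase univ (fun t => tens (θ t) y.1) (Finset.mem_univ t)]
  have h1 : ∑ t' ∈ univ.erase t, tens (θ t' + ε • (Pi.single t v : Fin s → Pt m r) t') y.1 =
      ∑ t' ∈ univ.erase t, tens (θ t') y.1 := by
    refine Finset.sum_congr rfl fun t' ht' => ?_
    rw [Pi.single_eq_of_ne (Finset.ne_of_mem_erase ht'), smul_zero, add_zero]
  rw [h1, Pi.single_eq_same, h ε]
  simp only [Pi.add_apply, Pi.smul_apply, smul_eq_mul]
  ring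

/-- PROOF.  (Compare `Pool/Agent/H63/SubV/Upper.lean`, `fills_of_span`.)  The map
`Ψ : (Fin s → Pt m r) → (Y → ℂ)`, `Ψ θ y = ∑ t, tens (θ t) y`, is `C^1` (polynomial) and its
derivative at `θ` is onto: its image contains the restrictions to `Y` of all `coreV (θ t) q`
(direction: coordinate `q` of the core of the point `t`) and `lineV (θ t) i x j` (direction:
coordinate `x` of the frame vector `(i, j)` of the point `t`; `tens` is affine in each of these
directions, so `fderiv_apply_of_affine` of that file can be used), hence of all of `Tan θ`, hence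
everything by `h`.  So the image of `Ψ` is a neighbourhood of `Ψ θ`
(`HasStrictFDerivAt.map_nhds_eq_of_surj` / `ContDiffAt.hasStrictFDerivAt`).  A polynomial `F` with
variables in `Y` that vanishes on `SumsOf m r s` vanishes at `Ψ θ'` for all `θ'` (by `tens_mem`;
write `F = rename (Subtype.val) G`, `MvPolynomial.exists_rename_eq_of_vars_subset_range`), so `G`
vanishes on a nonempty open set of `Y → ℂ`, hence `G = 0`. -/
theorem terracini {m r : Fin n → ℕ} (hrm : ∀ i, r i ≤ m i) {s : ℕ} (θ : Fin s → Pt m r)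
    (Y : Finset (∀ i, Fin (m i)))
    (h : ∀ g : Arr m, ∃ f ∈ Tan θ, ∀ y ∈ Y, f y = g y) :
    IndepOn (SumsOf m r s) Y := by
  classical
  intro F hFv hF
  obtain ⟨G, hG⟩ : ∃ G : MvPolynomial Y ℂ, MvPolynomial.rename Subtype.val G = F := by
    apply MvPolynomial.exists_rename_eq_of_vars_subset_range F Subtype.val
      Subtype.val_injective
    intro y hy
    exact ⟨⟨y, hFv (by exact_mod_cast hy)⟩, rfl⟩
  have hvan : ∀ θ' : Fin s → Pt m r, MvPolynomial.eval (terPsi m r s Y θ') G = 0 := by
    intro θ'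
    have h1 := hF (∑ t, tens (θ' t)) ⟨fun t => tens (θ' t), fun t => tens_mem hrm _, rfl⟩
    rw [← hG, MvPolynomial.eval_rename] at h1
    rw [← h1]
    congr 2
    funext y
    simp only [terPsi, Function.comp_apply, Finset.sum_apply]
  have hstrict : HasStrictFDerivAt (terPsi m r s Y) (fderiv ℂ (terPsi m r s Y) θ) θ :=
    (ter_contDiff m r s Y).contDiffAt.hasStrictFDerivAt one_ne_zero
  have hd := hstrict.hasFDerivAt
  set Res : Arr m →ₗ[ℂ] (Y → ℂ) :=
    { toFun := fun f y => f y.1
      map_add' := fun _ _ => rfl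
      map_smul' := fun _ _ => rfl } with hRes
  have hTan : Tan θ ≤ (fderiv ℂ (terPsi m r s Y) θ).range.comap Res := by
    unfold Tan
    rw [Submodule.span_le]
    rintro V (⟨t, q, rfl⟩ | ⟨t, i, x, j, rfl⟩)
    · exact ⟨Pi.single t (0, Pi.single q 1), ter_fderiv_apply hd fun ε =>
        ter_dir Y θ t _ _ (ter_core (θ t) q) ε⟩
    · exact ⟨Pi.single t (Pi.single i (Pi.single j (Pi.single x 1)), 0),
        ter_fderiv_apply hd fun ε => ter_dir Y θ t _ _ (ter_line (θ t) i x j) ε⟩
  have hrange : (fderiv ℂ (terPsi m r s Y) θ).range = ⊤ := by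
    rw [eq_top_iff]
    intro g _
    obtain ⟨f, hf, hfg⟩ := h (fun y => if hy : y ∈ Y then g ⟨y, hy⟩ else 0)
    have h2 := hTan hf
    have h3 : Res f = g := by
      funext y
      have h4 := hfg y.1 y.2
      rw [dif_pos y.2] at h4
      exact h4
    rw [← h3]
    exact h2
  have hmap := hstrict.map_nhds_eq_of_surj hrange
  have hzero : ∀ᶠ T in nhds (terPsi m r s Y θ), MvPolynomial.eval T G = 0 := by
    rw [← hmap, Filter.eventually_map]
    exact Filter.Eventually.of_forall hvan
  obtain ⟨δ, hδ, hball⟩ := Metric.eventually_nhds_iff_ball.mp hzero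
  have h5 : G = 0 := by
    refine MvPolynomial.funext_set (fun x => Metric.ball (terPsi m r s Y θ x) δ) (fun x => ?_)
      fun T hT => ?_
    · exact infinite_of_mem_nhds _ (Metric.ball_mem_nhds _ hδ)
    · rw [map_zero]
      apply hball
      rw [ball_pi _ hδ]
      exact hT
  rw [← hG, h5, map_zero]

end Pool.Agent.SV48
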