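import Pool.Agent.SV48.Upper
import Pool.Agent.SV48.Sel
import Pool.Agent.SV48.Ter
import Pool.Agent.SV48.Low
import Pool.Agent.SV48.Red

/-! The theorem. -/

namespace Pool.Agent.SV48

open Finset

variable {n : ℕ}

/-- PROOF.  `zdim` is a supremum of a nonempty set (`Y = ∅`) bounded by `Fintype.card`.
(1) `IndepOn Z univ ↔` only the zero polynomial vanishes on `Z`. -/
theorem fills_iff {m r : Fin n → ℕ} {s : ℕ} :
    SecantFills m r s ↔ IndepOn (SumsOf m r s) univ :=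
  ⟨fun h F _ hF => h F hF, fun h F hF => h F (Finset.subset_univ _) hF⟩

/-- PROOF.  `IndepOn Z Y → Y.card ≤ zdim Z`: `le_csSup` (bounded by `Fintype.card σ`). -/
theorem card_le_zdim {σ : Type*} [Fintype σ] {Z : Set (σ → ℂ)} {Y : Finset σ}
    (h : IndepOn Z Y) : Y.card ≤ zdim Z := by
  refine le_csSup ⟨Fintype.card σ, ?_⟩ ⟨Y, rfl, h⟩
  rintro d ⟨Y', rfl, _⟩
  exact Finset.card_le_univ Y'

theorem tan_le_of {m r : Fin n → ℕ} {ι ι' : Type*} {θ : ι → Pt m r} {θ' : ι' → Pt m r}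
    (h : ∀ t, ∃ t', θ' t' = θ t) : Tan θ ≤ Tan θ' := by
  unfold Tan
  refine Submodule.span_mono ?_
  rintro V (⟨t, q, rfl⟩ | ⟨t, i, x, j, rfl⟩)
  · obtain ⟨t', ht'⟩ := h t
    exact Or.inl ⟨t', q, by rw [ht']⟩
  · obtain ⟨t', ht'⟩ := h t
    exact Or.inr ⟨t', i, x, j, by rw [ht']⟩

theorem tan_le_iSup {m r : Fin n → ℕ} {ι : Type*} (θ : ι → Pt m r) :
    Tan θ ≤ ⨆ t, Tan (fun _ : Unit => θ t) := by
  conv_lhs => unfold Tan
  rw [Submodule.span_le]
  rintro V (⟨t, q, rfl⟩ | ⟨t, i, x, j, rfl⟩)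
  · refine (le_iSup (fun t => Tan (fun _ : Unit => θ t)) t) ?_
    exact Submodule.subset_span (Or.inl ⟨(), q, rfl⟩)
  · refine (le_iSup (fun t => Tan (fun _ : Unit => θ t)) t) ?_
    exact Submodule.subset_span (Or.inr ⟨(), i, x, j, rfl⟩)

/-- The theorem for reduced `r`.

PROOF.  `upper` gives `S` points `θ` with `Tan θ = ⊤`.  `D = coneDim m r ≥ 1`.
* `SecantFills m r S`: `terracini` with `Y = univ`.  So `{s | SecantFills m r s}` is nonempty,
  let `k` be its least element (`Nat.find`), `k ≤ S`, so `k D ≤ (1+ε) ∏ m`.  `∏ m ≤ k D` by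
  `low` with `Y = univ` (`card = ∏ m`).
* Upper bound of `zdim`: every `Y` with `IndepOn` has `Y.card ≤ s D` (`low`) and
  `Y.card ≤ ∏ m`; `csSup_le`.
* Lower bound: if `s ≤ S`: `select` applied to `W t = Tan (fun _ : Unit => θ t)` (or the span of
  the tangent vectors of the point `t`; their supremum is `Tan θ = ⊤`) gives `I`, `|I| = s`, with
  `s ∏ m ≤ S * d`, `d = finrank (⨆ t ∈ I, W t)`, which is `Tan` of the subfamily
  (reindex `I ≃ Fin s`); `coord` + `terracini` give `d ≤ zdim`.  `d ≥ s ∏ m / S ≥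
  s D / (1+ε) ≥ (1-ε) s D` (`S = 0` only if `∏ m = 0`, impossible as `m i ≥ 1`).  If `s > S`:
  extend `θ` by arbitrary points, `Tan = ⊤`, so `zdim ≥ ∏ m`. -/
theorem main_reduced {m r : Fin n → ℕ} {ε : ℝ} (hε : 0 < ε) (hε1 : ε ≤ 1) (hr : ∀ i, 1 ≤ r i)
    (hrm : ∀ i, r i ≤ m i) (hred : ∀ i, r i ≤ ∏ j ∈ univ.erase i, r j)
    (L : Finset (Fin n)) (hL3 : 3 ≤ L.card)
    (hbig : ∀ i ∈ L, (20 * (n : ℝ) / ε) ^ 2 * r i ≤ m i) (hfull : ∀ i, i ∉ L → r i = m i) :
    (∃ k, IsGenericRank m r k ∧ (∏ i, (m i : ℝ)) ≤ k * coneDim m r ∧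
      (k : ℝ) * coneDim m r ≤ (1 + ε) * ∏ i, (m i : ℝ)) ∧
    ∀ s : ℕ, (zdim (SumsOf m r s) : ℝ) ≤ min ((s : ℝ) * coneDim m r) (∏ i, (m i : ℝ)) ∧
      min ((1 - ε) * ((s : ℝ) * coneDim m r)) (∏ i, (m i : ℝ)) ≤ zdim (SumsOf m r s) := by
  classical
  obtain ⟨S, θ, hθ, hS⟩ := upper hε hε1 hr hred L hL3 hbig hfull
  have hcard : (univ : Finset (∀ i, Fin (m i))).card = ∏ i, m i := by
    rw [Finset.card_univ, Fintype.card_pi]
    simp
  have hPr : (∏ i, (m i : ℝ)) = ((∏ i, m i : ℕ) : ℝ) := by push_cast; rfl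
  have hfillS : ∀ s (θ' : Fin s → Pt m r), Tan θ' = ⊤ → IndepOn (SumsOf m r s) univ :=
    fun s θ' h => terracini hrm θ' univ fun g => ⟨g, by rw [h]; trivial, fun y _ => rfl⟩
  have hlow : ∀ s (Y : Finset (∀ i, Fin (m i))), IndepOn (SumsOf m r s) Y →
      Y.card ≤ s * coneDim m r := by
    intro s Y h
    by_contra hlt
    exact low Y (not_le.1 hlt) h
  refine ⟨?_, fun s => ⟨?_, ?_⟩⟩
  · have hex : ∃ s, SecantFills m r s := ⟨S, fills_iff.2 (hfillS S θ hθ)⟩
    refine ⟨Nat.find hex, ⟨Nat.find_spec hex, fun s hs => Nat.find_min' hex hs⟩, ?_, ?_⟩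
    · have h1 := hlow _ univ (fills_iff.1 (Nat.find_spec hex))
      rw [hcard] at h1
      rw [hPr]
      exact_mod_cast h1
    · refine le_trans ?_ hS
      refine mul_le_mul_of_nonneg_right ?_ (Nat.cast_nonneg _)
      exact_mod_cast Nat.find_min' hex (fills_iff.2 (hfillS S θ hθ))
  · rw [hPr]
    have h1 : zdim (SumsOf m r s) ≤ s * coneDim m r := by
      refine csSup_le' ?_
      rintro d ⟨Y, rfl, hY⟩
      exact hlow s Y hY
    have h2 : zdim (SumsOf m r s) ≤ ∏ i, m i := by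
      refine csSup_le' ?_
      rintro d ⟨Y, rfl, hY⟩
      rw [← hcard]
      exact Finset.card_le_univ Y
    exact le_min (by exact_mod_cast h1) (by exact_mod_cast h2)
  · rcases le_or_gt s S with hs | hs
    · refine (min_le_left _ _).trans ?_
      have hsup : ⨆ t, Tan (fun _ : Unit => θ t) = ⊤ := by
        rw [eq_top_iff, ← hθ]
        exact tan_le_iSup θ
      obtain ⟨I, hI, hfr⟩ := select (fun t => Tan (fun _ : Unit => θ t)) hsup s hs
      obtain ⟨Y, hYc, hY⟩ := coord (⨆ t ∈ I, Tan (fun _ : Unit => θ t) : Submodule ℂ (Arr m))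
      have hI' : ∃ e : Fin s → Fin S, ∀ t ∈ I, ∃ a, e a = t := by
        refine ⟨fun a => (I.equivFinOfCardEq hI).symm a, fun t ht => ?_⟩
        exact ⟨I.equivFinOfCardEq hI ⟨t, ht⟩, by simp⟩
      obtain ⟨e, he⟩ := hI'
      have hle : (⨆ t ∈ I, Tan (fun _ : Unit => θ t) : Submodule ℂ (Arr m)) ≤
          Tan (fun a => θ (e a)) := by
        refine iSup₂_le fun t ht => tan_le_of fun _ => ?_
        obtain ⟨a, ha⟩ := he t ht
        exact ⟨a, by rw [ha]⟩
      have hind : IndepOn (SumsOf m r s) Y :=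
        terracini hrm (fun a => θ (e a)) Y fun g => by
          obtain ⟨f, hf, hfg⟩ := hY g
          exact ⟨f, hle hf, hfg⟩
      have hz := card_le_zdim hind
      have hfin : Module.finrank ℂ (Arr m) = ∏ i, m i := by
        rw [Module.finrank_fintype_fun_eq_card, Fintype.card_pi]
        simp
      rw [hfin, ← hYc] at hfr
      rcases Nat.eq_zero_or_pos s with h0 | h0
      · subst h0
        simp
      · have hSpos : (0 : ℝ) < S := by exact_mod_cast lt_of_lt_of_le h0 hs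
        have h1 : (s : ℝ) * ∏ i, (m i : ℝ) ≤ S * zdim (SumsOf m r s) := by
          rw [hPr]
          have : s * ∏ i, m i ≤ S * zdim (SumsOf m r s) :=
            hfr.trans (Nat.mul_le_mul_left _ hz)
          exact_mod_cast this
        have h2 : (S : ℝ) * ((1 - ε) * ((s : ℝ) * coneDim m r)) ≤
            S * zdim (SumsOf m r s) := by
          refine le_trans ?_ h1
          have h3 : (1 - ε) * (S * coneDim m r) ≤ ∏ i, (m i : ℝ) := by
            have h4 : (0 : ℝ) ≤ 1 - ε := by linarith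
            calc (1 - ε) * (S * coneDim m r) ≤ (1 - ε) * ((1 + ε) * ∏ i, (m i : ℝ)) :=
                  mul_le_mul_of_nonneg_left hS h4
              _ = (1 - ε ^ 2) * ∏ i, (m i : ℝ) := by ring
              _ ≤ 1 * ∏ i, (m i : ℝ) := by
                  refine mul_le_mul_of_nonneg_right ?_ (by positivity)
                  nlinarith [sq_nonneg ε]
              _ = ∏ i, (m i : ℝ) := one_mul _
          calc (S : ℝ) * ((1 - ε) * ((s : ℝ) * coneDim m r))
              = s * ((1 - ε) * (S * coneDim m r)) := by ring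
            _ ≤ s * ∏ i, (m i : ℝ) := mul_le_mul_of_nonneg_left h3 (Nat.cast_nonneg _)
        exact le_of_mul_le_mul_left h2 hSpos
    · refine (min_le_right _ _).trans ?_
      let θ' : Fin s → Pt m r := fun t => if h : (t : ℕ) < S then θ ⟨t, h⟩ else 0
      have hθ' : Tan θ' = ⊤ := by
        rw [eq_top_iff, ← hθ]
        refine tan_le_of fun t => ⟨⟨t, t.2.trans hs⟩, ?_⟩
        simp only [θ', Fin.eta, t.2, dif_pos]
      have hz := card_le_zdim (hfillS s θ' hθ')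
      rw [hcard] at hz
      rw [hPr]
      exact_mod_cast hz

/-- The general theorem, with the reduced ranks `red r`. PROOF: `main_reduced` for `red r`, with
`cone_red` (so `SumsOf`, `SecantFills`, `IsGenericRank` for `red r` and `r` agree). -/
theorem main {m r : Fin n → ℕ} {ε : ℝ} (hε : 0 < ε) (hε1 : ε ≤ 1) (hr : ∀ i, 1 ≤ r i)
    (hrm : ∀ i, r i ≤ m i)
    (L : Finset (Fin n)) (hL3 : 3 ≤ L.card)
    (hbig : ∀ i ∈ L, (20 * (n : ℝ) / ε) ^ 2 * red r i ≤ m i)
    (hfull : ∀ i, i ∉ L → red r i = m i) :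
    (∃ k, IsGenericRank m r k ∧ (∏ i, (m i : ℝ)) ≤ k * coneDim m (red r) ∧
      (k : ℝ) * coneDim m (red r) ≤ (1 + ε) * ∏ i, (m i : ℝ)) ∧
    ∀ s : ℕ, (zdim (SumsOf m r s) : ℝ) ≤ min ((s : ℝ) * coneDim m (red r)) (∏ i, (m i : ℝ)) ∧
      min ((1 - ε) * ((s : ℝ) * coneDim m (red r))) (∏ i, (m i : ℝ)) ≤
        zdim (SumsOf m r s) := by
  have hsum : ∀ s, SumsOf m (red r) s = SumsOf m r s := fun s => by
    unfold SumsOf
    rw [cone_red hr hrm]
  have h := main_reduced (r := red r) hε hε1 (red_pos hr) (fun i => (red_le r i).trans (hrm i))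
    (red_red hr) L hL3 hbig hfull
  simp only [IsGenericRank, SecantFills, hsum] at h ⊢
  exact h

end Pool.Agent.SV48
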