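import Pool.Agent.SV48.Defs

/-! The final numerical estimate. -/

namespace Pool.Agent.SV48

open Finset

variable {n : ℕ}

private lemma cd_ge {x y : ℕ} (hy : 1 ≤ y) : x ≤ y * cd x y := by
  unfold cd
  have h1 := Nat.div_add_mod (x + y - 1) y
  have h2 := Nat.mod_lt (x + y - 1) (by omega : y > 0)
  omega

private lemma cd_le {x y : ℕ} (hy : 1 ≤ y) : y * cd x y ≤ x + y := by
  unfold cd
  have := Nat.mul_div_le (x + y - 1) y
  omega

private lemma one_add_pow_le {B : ℝ} (hB : 0 < B) (n : ℕ) (hn : 19 * (n : ℝ) ≤ B) :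
    (1 + 2 / B) ^ n ≤ 1 + 3 * (n / B) := by
  have hx0 : 0 ≤ (n : ℝ) / B := by positivity
  have hx1 : (n : ℝ) / B ≤ 1 / 19 := by
    rw [div_le_iff₀ hB]; linarith
  have h1 : (1 + 2 / B) ^ n ≤ Real.exp (2 * (n / B)) := by
    have h2 : 1 + 2 / B ≤ Real.exp (2 / B) := by
      have := Real.add_one_le_exp (2 / B); linarith
    calc (1 + 2 / B) ^ n ≤ (Real.exp (2 / B)) ^ n := by
          refine pow_le_pow_left₀ (by positivity) h2 n
      _ = Real.exp (2 * (n / B)) := by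
          rw [← Real.exp_nat_mul]; congr 1; ring
  have h3 : Real.exp (2 * (n / B)) ≤ 1 + 2 * (n / B) + (2 * (n / B)) ^ 2 := by
    have habs : |2 * ((n : ℝ) / B)| ≤ 1 := by
      rw [abs_le]; constructor <;> linarith
    have := Real.abs_exp_sub_one_sub_id_le habs
    have h4 := (abs_le.1 this).2
    linarith
  nlinarith

/-- PROOF.  `b = ⌊20 n / ε⌋₊ ≥ 19 n / ε ≥ 57` (`20 n/ε - 1 ≥ 19 n/ε`).  For `i ∈ L`:
`b² r i ≤ m i`; `a i = cd (m i) b` (`m i ≤ b a i < m i + b`), so `b r i ≤ a i`.  For `i ∉ L`: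
`a i = r i = m i`.  Let `A i = a i + r i` (`i ∈ L`), `A i = r i` (`i ∉ L`),
`Q = (b-1) ∑_{i ∈ L} r i A i + ∏ r`, `s = ⌈(1 + 6n/b) ∏ A / Q⌉₊`; this is `H`.
Bound.  `b^{|L|} s D ≤ (1+6n/b) b^{|L|} (∏ A) D / Q + b^{|L|} D`, `D = coneDim m r`.
* `b^{|L|} ∏ A = ∏_{i ∈ L} (b a i + b r i) * ∏_{i ∉ L} m i ≤ (1 + 2/b)^n ∏ m`, because
  `b a i + b r i ≤ m i + b + b r i ≤ m i (1 + 2/b)` (`m i ≥ b² r i ≥ b²`).
* `Q ≥ (1 - 1/b) (b ∑_{i ∈ L} r i A i + ∏ r) ≥ (1 - 1/b) (∑_{i ∈ L} r i m i + ∏ r) ≥ (1-1/b) D`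
  (for `i ∉ L` the term `r i (m i - r i)` of `D` is `0`).
* `b^{|L|} D ≤ ((n+1)/b) ∏ m`: `∏ r ≤ ∏ m / b^{2|L|}`, and for `i ∈ L`
  `r i m i ≤ m i ∏_{j ≠ i} r j ≤ ∏ m / b^{2(|L|-1)}` (`hred`), so
  `D ≤ (n+1) ∏ m / b^{2|L|-2}` and `b^{|L|} D ≤ (n+1) ∏ m / b^{|L|-2}`, `|L| ≥ 3`.
* With `x = n/b ≤ ε/19 ≤ 1/19`: `(1+6x)(1+2/b)^n/(1-1/b) + (n+1)/b ≤ 1 + 11 x ≤ 1 + ε`
  (`(1+2/b)^n ≤ exp(2x) ≤ 1 + 2.2x`, `1/(1-1/b) ≤ 1 + x/2` (as `n ≥ 3`), `(n+1)/b ≤ (4/3) x`). -/
theorem numF {m r : Fin n → ℕ} {ε : ℝ} (hε : 0 < ε) (hε1 : ε ≤ 1) (hr : ∀ i, 1 ≤ r i)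
    (hred : ∀ i, r i ≤ ∏ j ∈ univ.erase i, r j)
    (L : Finset (Fin n)) (hL3 : 3 ≤ L.card)
    (hbig : ∀ i ∈ L, (20 * (n : ℝ) / ε) ^ 2 * r i ≤ m i) (hfull : ∀ i, i ∉ L → r i = m i) :
    ∃ (b s : ℕ) (a : Fin n → ℕ), 2 ≤ b ∧ (∀ i ∈ L, m i ≤ b * a i ∧ b * r i ≤ a i) ∧
      (∀ i, i ∉ L → a i = r i) ∧
      (1 + 6 * (n : ℝ) / b) * ∏ j, ((a j : ℝ) + if j ∈ L then (r j : ℝ) else 0) ≤
        ∑ i ∈ L, (((b - 1) * s : ℕ) : ℝ) * r i * (a i + r i) + s * ∏ j, (r j : ℝ) ∧
      ((b ^ L.card * s : ℕ) : ℝ) * coneDim m r ≤ (1 + ε) * ∏ i, (m i : ℝ) := by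
  have hn3 : 3 ≤ n := by
    have := Finset.card_le_univ L
    rw [Fintype.card_fin] at this
    omega
  have hn3' : (3 : ℝ) ≤ n := by exact_mod_cast hn3
  set K : ℝ := 20 * (n : ℝ) / ε with hK
  have hKε : K * ε = 20 * n := by rw [hK]; field_simp
  have hK20 : 20 * (n : ℝ) ≤ K := by
    rw [hK, le_div_iff₀ hε]; nlinarith
  set b : ℕ := ⌊K⌋₊ with hb
  have hbK : (b : ℝ) ≤ K := Nat.floor_le (by linarith)
  have hbK' : K < b + 1 := Nat.lt_floor_add_one K
  obtain ⟨B, hB⟩ : ∃ B : ℝ, B = (b : ℝ) := ⟨_, rfl⟩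
  rw [← hB] at hbK hbK'
  have hB19 : 19 * (n : ℝ) ≤ B * ε := by nlinarith
  have hB57 : 19 * (n : ℝ) ≤ B := by nlinarith
  have hB0 : 0 < B := by linarith
  have hB1 : 57 ≤ B := by linarith
  have hb2 : 2 ≤ b := by
    have : (2 : ℝ) ≤ (b : ℝ) := by rw [← hB]; linarith
    exact_mod_cast this
  have hm : ∀ i ∈ L, B ^ 2 * r i ≤ m i := by
    intro i hi
    refine le_trans ?_ (hbig i hi)
    gcongr
  have hmN : ∀ i ∈ L, b ^ 2 * r i ≤ m i := by
    intro i hi
    have := hm i hi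
    rw [hB] at this
    exact_mod_cast this
  have hr' : ∀ i, (1 : ℝ) ≤ r i := fun i => by exact_mod_cast hr i
  have hm' : ∀ i, (1 : ℝ) ≤ m i := by
    intro i
    by_cases hi : i ∈ L
    · refine le_trans ?_ (hm i hi)
      have := hr' i
      nlinarith
    · rw [← hfull i hi]; exact hr' i
  -- the numbers a
  set a : Fin n → ℕ := fun i => if i ∈ L then cd (m i) b else r i with ha
  have haL : ∀ i ∈ L, a i = cd (m i) b := fun i hi => by rw [ha]; simp [hi]
  have haN : ∀ i, i ∉ L → a i = r i := fun i hi => by rw [ha]; simp [hi]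
  have ha1 : ∀ i ∈ L, m i ≤ b * a i := fun i hi => by
    rw [haL i hi]; exact cd_ge (by omega)
  have ha2 : ∀ i ∈ L, b * a i ≤ m i + b := fun i hi => by
    rw [haL i hi]; exact cd_le (by omega)
  have ha3 : ∀ i ∈ L, b * r i ≤ a i := by
    intro i hi
    have h1 := hmN i hi
    have h2 := ha1 i hi
    have h3 : b * (b * r i) ≤ b * a i := by
      calc b * (b * r i) = b ^ 2 * r i := by ring
        _ ≤ _ := h1.trans h2
    exact Nat.le_of_mul_le_mul_left h3 (by omega)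
  have ha1' : ∀ i ∈ L, (m i : ℝ) ≤ B * a i := fun i hi => by
    rw [hB]; exact_mod_cast ha1 i hi
  have ha2' : ∀ i ∈ L, B * a i ≤ m i + B := fun i hi => by
    rw [hB]; exact_mod_cast ha2 i hi
  -- Q
  set A : Fin n → ℝ := fun j => (a j : ℝ) + if j ∈ L then (r j : ℝ) else 0 with hA
  have hAL : ∀ i ∈ L, A i = a i + r i := fun i hi => by rw [hA]; simp [hi]
  have hAN : ∀ i, i ∉ L → A i = m i := fun i hi => by
    rw [hA]; simp only [hi, if_false, add_zero]; rw [haN i hi, hfull i hi]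
  have hA0 : ∀ i, 0 ≤ A i := by
    intro i; rw [hA]; dsimp only; split_ifs <;> positivity
  set S : ℝ := ∑ i ∈ L, (r i : ℝ) * (a i + r i) with hS
  set R : ℝ := ∏ j, (r j : ℝ) with hR
  set P : ℝ := ∏ j, (m j : ℝ) with hP
  have hS0 : 0 ≤ S := Finset.sum_nonneg fun i _ => by positivity
  have hR1 : 1 ≤ R := by
    rw [hR]
    have : ∏ _j : Fin n, (1 : ℝ) ≤ ∏ j, (r j : ℝ) :=
      Finset.prod_le_prod (fun _ _ => zero_le_one) (fun i _ => hr' i)
    simpa using this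
  have hP0 : 0 < P := Finset.prod_pos fun i _ => lt_of_lt_of_le one_pos (hm' i)
  set Q : ℝ := (B - 1) * S + R with hQ
  have hQ0 : 0 < Q := by
    have : 0 ≤ (B - 1) * S := mul_nonneg (by linarith) hS0
    linarith
  set PA : ℝ := ∏ j, A j with hPA
  have hPA0 : 0 ≤ PA := Finset.prod_nonneg fun i _ => hA0 i
  set s : ℕ := ⌈(1 + 6 * (n : ℝ) / B) * PA / Q⌉₊ with hs
  have hs1 : (1 + 6 * (n : ℝ) / B) * PA ≤ s * Q := by
    have := Nat.le_ceil ((1 + 6 * (n : ℝ) / B) * PA / Q)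
    rw [← hs, div_le_iff₀ hQ0] at this
    exact this
  have hs2 : (s : ℝ) ≤ (1 + 6 * (n : ℝ) / B) * PA / Q + 1 := by
    refine (Nat.ceil_lt_add_one ?_).le
    positivity
  refine ⟨b, s, a, hb2, fun i hi => ⟨ha1 i hi, ha3 i hi⟩, haN, ?_, ?_⟩
  · rw [← hB]
    refine hs1.trans (le_of_eq ?_)
    have hcast : (((b - 1) * s : ℕ) : ℝ) = (B - 1) * s := by
      rw [Nat.cast_mul, Nat.cast_sub (by omega), ← hB, Nat.cast_one]
    rw [hcast, hQ, hS, mul_add, ← mul_assoc, Finset.mul_sum]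
    congr 1
    refine Finset.sum_congr rfl fun i _ => ?_
    ring
  -- the bound
  set c := L.card with hc
  -- (C1)
  have hC1 : B ^ c * PA ≤ (1 + 3 * (n / B)) * P := by
    have hstep : ∀ i ∈ L, B * A i ≤ (1 + 2 / B) * m i := by
      intro i hi
      rw [hAL i hi]
      have h1 := ha2' i hi
      have h2 := hm i hi
      have h3 : B ^ 2 ≤ m i := by
        have := hr' i
        nlinarith
      have h4 : B ≤ m i / B := by rw [le_div_iff₀ hB0]; nlinarith
      have h5 : B * r i ≤ m i / B := by rw [le_div_iff₀ hB0]; nlinarith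
      have h6 : (1 + 2 / B) * (m i : ℝ) = m i + m i / B + m i / B := by field_simp; ring
      rw [h6]
      nlinarith
    have hsplitA : PA = (∏ i ∈ L, A i) * ∏ i ∈ univ \ L, A i := by
      rw [hPA, mul_comm, Finset.prod_sdiff (Finset.subset_univ L)]
    have hsplitP : P = (∏ i ∈ L, (m i : ℝ)) * ∏ i ∈ univ \ L, (m i : ℝ) := by
      rw [hP, mul_comm, Finset.prod_sdiff (Finset.subset_univ L)]
    have hpr : B ^ c * PA = (∏ i ∈ L, (B * A i)) * ∏ i ∈ univ \ L, (m i : ℝ) := by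
      rw [hsplitA, Finset.prod_mul_distrib, Finset.prod_const, ← hc, ← mul_assoc]
      congr 1
      refine Finset.prod_congr rfl fun i hi => ?_
      exact hAN i (Finset.mem_sdiff.1 hi).2
    have hle : (∏ i ∈ L, (B * A i)) ≤ ∏ i ∈ L, ((1 + 2 / B) * m i) :=
      Finset.prod_le_prod (fun i _ => mul_nonneg hB0.le (hA0 i)) hstep
    have hle2 : (∏ i ∈ L, ((1 + 2 / B) * (m i : ℝ))) = (1 + 2 / B) ^ c * ∏ i ∈ L, (m i : ℝ) := by
      rw [Finset.prod_mul_distrib, Finset.prod_const]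
    have hcn : c ≤ n := by
      have := Finset.card_le_univ L
      rwa [Fintype.card_fin] at this
    have h1B : (1 : ℝ) ≤ 1 + 2 / B := by
      have : 0 ≤ 2 / B := by positivity
      linarith
    calc B ^ c * PA = (∏ i ∈ L, (B * A i)) * ∏ i ∈ univ \ L, (m i : ℝ) := hpr
      _ ≤ ((1 + 2 / B) ^ c * ∏ i ∈ L, (m i : ℝ)) * ∏ i ∈ univ \ L, (m i : ℝ) := by
          rw [← hle2]
          exact mul_le_mul_of_nonneg_right hle (Finset.prod_nonneg fun i _ => by positivity)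
      _ = (1 + 2 / B) ^ c * P := by rw [hsplitP]; ring
      _ ≤ (1 + 2 / B) ^ n * P := by
          refine mul_le_mul_of_nonneg_right (pow_le_pow_right₀ h1B hcn) hP0.le
      _ ≤ (1 + 3 * (n / B)) * P :=
          mul_le_mul_of_nonneg_right (one_add_pow_le hB0 n hB57) hP0.le
  -- the dimension
  set D : ℝ := (coneDim m r : ℝ) with hD
  have hD0 : 0 ≤ D := Nat.cast_nonneg _
  have hDle : D ≤ R + ∑ i ∈ L, (r i : ℝ) * m i := by
    have h1 : coneDim m r ≤ ∏ i, r i + ∑ i ∈ L, r i * m i := by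
      unfold coneDim
      refine Nat.add_le_add_left ?_ _
      have h2 : ∑ i, r i * (m i - r i) = ∑ i ∈ L, r i * (m i - r i) := by
        refine (Finset.sum_subset (Finset.subset_univ L) ?_).symm
        intro i _ hi
        rw [hfull i hi]; simp
      rw [h2]
      exact Finset.sum_le_sum fun i _ => Nat.mul_le_mul_left _ (Nat.sub_le _ _)
    have h3 : ((coneDim m r : ℕ) : ℝ) ≤ ((∏ i, r i + ∑ i ∈ L, r i * m i : ℕ) : ℝ) := by
      exact_mod_cast h1
    rw [hD]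
    refine h3.trans (le_of_eq ?_)
    push_cast
    rw [hR]
  -- (C2)
  have hC2 : (1 - 1 / B) * D ≤ Q := by
    have hk0 : 0 ≤ 1 - 1 / B := by
      rw [sub_nonneg, div_le_one hB0]; linarith
    have h1 : (1 - 1 / B) * ∑ i ∈ L, (r i : ℝ) * m i ≤ (B - 1) * S := by
      rw [hS, Finset.mul_sum, Finset.mul_sum]
      refine Finset.sum_le_sum fun i hi => ?_
      have h2 := ha1' i hi
      have h3 := hr' i
      have h4 : (1 - 1 / B) * ((r i : ℝ) * m i) ≤ (1 - 1 / B) * ((r i : ℝ) * (B * a i)) := by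
        refine mul_le_mul_of_nonneg_left ?_ hk0
        exact mul_le_mul_of_nonneg_left h2 (by linarith)
      have h5 : (1 - 1 / B) * ((r i : ℝ) * (B * a i)) = (B - 1) * (r i * a i) := by
        field_simp
      rw [h5] at h4
      refine h4.trans ?_
      refine mul_le_mul_of_nonneg_left ?_ (by linarith)
      nlinarith
    have h6 : (1 - 1 / B) * R ≤ R := by
      have : 0 ≤ 1 / B := by positivity
      nlinarith
    calc (1 - 1 / B) * D ≤ (1 - 1 / B) * (R + ∑ i ∈ L, (r i : ℝ) * m i) :=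
          mul_le_mul_of_nonneg_left hDle hk0
      _ = (1 - 1 / B) * R + (1 - 1 / B) * ∑ i ∈ L, (r i : ℝ) * m i := by ring
      _ ≤ Q := by rw [hQ]; linarith
  -- (C3)
  have hC3 : B ^ c * D ≤ ((n + 1) / B) * P := by
    have hgen : ∀ i ∈ L, B ^ (2 * (c - 1)) * ((r i : ℝ) * m i) ≤ P := by
      intro i hi
      have h1 : (r i : ℝ) ≤ ∏ j ∈ univ.erase i, (r j : ℝ) := by
        exact_mod_cast hred i
      have h2 : B ^ (2 * (c - 1)) * ∏ j ∈ univ.erase i, (r j : ℝ) ≤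
          ∏ j ∈ univ.erase i, (m j : ℝ) := by
        have h3 : ∏ j ∈ univ.erase i, (if j ∈ L then B ^ 2 else 1) = B ^ (2 * (c - 1)) := by
          rw [Finset.prod_ite, Finset.prod_const_one, mul_one, Finset.prod_const, ← pow_mul]
          congr 2
          have : (univ.erase i).filter (fun j => j ∈ L) = L.erase i := by
            ext j; simp only [Finset.mem_filter, Finset.mem_erase, Finset.mem_univ, and_true]
          rw [this, Finset.card_erase_of_mem hi]
        rw [← h3, ← Finset.prod_mul_distrib]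
        refine Finset.prod_le_prod ?_ ?_
        · intro j _
          split_ifs <;> positivity
        · intro j _
          by_cases hj : j ∈ L
          · simp only [hj, if_true]; exact hm j hj
          · simp only [hj, if_false, one_mul]; rw [hfull j hj]
      calc B ^ (2 * (c - 1)) * ((r i : ℝ) * m i)
          ≤ B ^ (2 * (c - 1)) * ((∏ j ∈ univ.erase i, (r j : ℝ)) * m i) := by
            refine mul_le_mul_of_nonneg_left ?_ (by positivity)
            exact mul_le_mul_of_nonneg_right h1 (by positivity)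
        _ = (B ^ (2 * (c - 1)) * ∏ j ∈ univ.erase i, (r j : ℝ)) * m i := by ring
        _ ≤ (∏ j ∈ univ.erase i, (m j : ℝ)) * m i :=
            mul_le_mul_of_nonneg_right h2 (by positivity)
        _ = P := by rw [hP, Finset.prod_erase_mul _ _ (Finset.mem_univ i)]
    have hR' : B ^ (2 * (c - 1)) * R ≤ P := by
      have h3 : ∏ j : Fin n, (if j ∈ L then B ^ 2 else 1) = B ^ (2 * c) := by
        rw [Finset.prod_ite, Finset.prod_const_one, mul_one, Finset.prod_const, ← pow_mul]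
        congr 2
        have : (univ : Finset (Fin n)).filter (fun j => j ∈ L) = L := by
          ext j; simp only [Finset.mem_filter, Finset.mem_univ, true_and]
        rw [this]
      have h4 : B ^ (2 * c) * R ≤ P := by
        rw [← h3, hR, hP, ← Finset.prod_mul_distrib]
        refine Finset.prod_le_prod ?_ ?_
        · intro j _
          split_ifs <;> positivity
        · intro j _
          by_cases hj : j ∈ L
          · simp only [hj, if_true]; exact hm j hj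
          · simp only [hj, if_false, one_mul]; rw [hfull j hj]
      refine le_trans ?_ h4
      refine mul_le_mul_of_nonneg_right ?_ (by linarith)
      exact pow_le_pow_right₀ (by linarith) (by omega)
    have hD2 : B ^ (2 * (c - 1)) * D ≤ (n + 1) * P := by
      calc B ^ (2 * (c - 1)) * D ≤ B ^ (2 * (c - 1)) * (R + ∑ i ∈ L, (r i : ℝ) * m i) :=
            mul_le_mul_of_nonneg_left hDle (by positivity)
        _ = B ^ (2 * (c - 1)) * R + ∑ i ∈ L, B ^ (2 * (c - 1)) * ((r i : ℝ) * m i) := by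
            rw [mul_add, Finset.mul_sum]
        _ ≤ P + ∑ i ∈ L, P := add_le_add hR' (Finset.sum_le_sum hgen)
        _ = P + c * P := by rw [Finset.sum_const, nsmul_eq_mul]
        _ ≤ (n + 1) * P := by
            have hcn : (c : ℝ) ≤ n := by
              have := Finset.card_le_univ L
              rw [Fintype.card_fin] at this
              exact_mod_cast this
            nlinarith
    have hpow : B ^ c * B ≤ B ^ (2 * (c - 1)) := by
      rw [← pow_succ]
      exact pow_le_pow_right₀ (by linarith) (by omega)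
    have h7 : (B ^ c * D) * B ≤ (n + 1) * P := by
      calc (B ^ c * D) * B = (B ^ c * B) * D := by ring
        _ ≤ B ^ (2 * (c - 1)) * D := mul_le_mul_of_nonneg_right hpow hD0
        _ ≤ _ := hD2
    rw [← le_div_iff₀ hB0] at h7
    refine h7.trans (le_of_eq ?_)
    ring
  -- (C4)
  obtain ⟨x, hx⟩ : ∃ x : ℝ, x = (n : ℝ) / B := ⟨_, rfl⟩
  have hx0 : 0 ≤ x := by rw [hx]; positivity
  have hxε : 19 * x ≤ ε := by
    rw [hx, ← mul_div_assoc, div_le_iff₀ hB0]; linarith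
  have hx19 : x ≤ 1 / 19 := by linarith
  have hBx : 1 / B ≤ x / 3 := by
    rw [hx, div_div, div_le_div_iff₀ hB0 (by positivity)]; nlinarith
  have hDQ : D ≤ (1 + x) * Q := by
    have h1 : 1 ≤ (1 + x) * (1 - 1 / B) := by nlinarith
    calc D = 1 * D := by ring
      _ ≤ ((1 + x) * (1 - 1 / B)) * D := mul_le_mul_of_nonneg_right h1 hD0
      _ = (1 + x) * ((1 - 1 / B) * D) := by ring
      _ ≤ (1 + x) * Q := mul_le_mul_of_nonneg_left hC2 (by linarith)
  have hDQ' : D / Q ≤ 1 + x := by rw [div_le_iff₀ hQ0]; exact hDQ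
  have h6x : 1 + 6 * (n : ℝ) / B = 1 + 6 * x := by rw [hx]; ring
  have hC1' : B ^ c * PA ≤ (1 + 3 * x) * P := by rw [hx]; exact hC1
  have hC3' : B ^ c * D ≤ 2 * x * P := by
    refine hC3.trans (mul_le_mul_of_nonneg_right ?_ hP0.le)
    rw [add_div, ← hx]; linarith
  have hcast : ((b ^ L.card * s : ℕ) : ℝ) = B ^ c * s := by
    push_cast; rw [hB]
  rw [hcast]
  have hfin1 : B ^ c * s * D ≤ (1 + 6 * x) * ((B ^ c * PA) * (D / Q)) + B ^ c * D := by
    have hBD : 0 ≤ B ^ c * D := by positivity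
    calc B ^ c * s * D = s * (B ^ c * D) := by ring
      _ ≤ ((1 + 6 * (n : ℝ) / B) * PA / Q + 1) * (B ^ c * D) :=
          mul_le_mul_of_nonneg_right hs2 hBD
      _ = _ := by rw [h6x]; ring
  have hDQ0 : 0 ≤ D / Q := by positivity
  have hfin2 : (B ^ c * PA) * (D / Q) ≤ ((1 + 3 * x) * P) * (1 + x) :=
    mul_le_mul hC1' hDQ' hDQ0 (by positivity)
  have hfin3 : (1 + 6 * x) * ((B ^ c * PA) * (D / Q)) ≤
      (1 + 6 * x) * (((1 + 3 * x) * P) * (1 + x)) :=
    mul_le_mul_of_nonneg_left hfin2 (by linarith)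
  have hnum : (1 + 6 * x) * ((1 + 3 * x) * (1 + x)) + 2 * x ≤ 1 + ε := by
    have hxx : x ^ 2 ≤ x * (1 / 19) := by nlinarith
    have hxxx : x ^ 3 ≤ x * (1 / 19) := by
      have : x ^ 3 = x ^ 2 * x := by ring
      nlinarith
    nlinarith
  calc B ^ c * s * D ≤ (1 + 6 * x) * ((B ^ c * PA) * (D / Q)) + B ^ c * D := hfin1
    _ ≤ (1 + 6 * x) * (((1 + 3 * x) * P) * (1 + x)) + 2 * x * P := add_le_add hfin3 hC3'
    _ = ((1 + 6 * x) * ((1 + 3 * x) * (1 + x)) + 2 * x) * P := by ring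
    _ ≤ (1 + ε) * P := mul_le_mul_of_nonneg_right hnum hP0.le

end Pool.Agent.SV48
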