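import Pool.Agent.SV48.Defs

/-! The cone over `Sub_r` and the tensors `tens p`. -/

namespace Pool.Agent.SV48

open Finset

variable {n : ℕ}

/-- Extending a subspace to one of given dimension. -/
theorem exists_extend {d k : ℕ} (W : Submodule ℂ (Fin d → ℂ))
    (h1 : Module.finrank ℂ W ≤ k) (h2 : k ≤ d) :
    ∃ A : Submodule ℂ (Fin d → ℂ), W ≤ A ∧ Module.finrank ℂ A = k := by
  suffices h : ∃ v : Fin k → (Fin d → ℂ), LinearIndependent ℂ v ∧
      W ≤ Submodule.span ℂ (Set.range v) by
    obtain ⟨v, hv, hW⟩ := h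
    refine ⟨_, hW, ?_⟩
    rw [finrank_span_eq_card hv, Fintype.card_fin]
  induction k, h1 using Nat.le_induction with
  | base =>
    let b := Module.finBasis ℂ W
    refine ⟨fun i => (b i : Fin d → ℂ), ?_, ?_⟩
    · exact b.linearIndependent.map' W.subtype (Submodule.ker_subtype W)
    · intro w hw
      have h := b.mem_span ⟨w, hw⟩
      have h' := Submodule.mem_map_of_mem (f := W.subtype) h
      rw [Submodule.map_span] at h'
      refine Submodule.span_mono ?_ h'
      rintro _ ⟨_, ⟨i, rfl⟩, rfl⟩
      exact ⟨i, rfl⟩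
  | succ k hk ih =>
    obtain ⟨v, hv, hW⟩ := ih (by omega)
    obtain ⟨x, hx⟩ := exists_linearIndependent_snoc_of_lt_finrank (R := ℂ) hv
      (by rw [Module.finrank_fin_fun]; omega)
    refine ⟨Fin.snoc v x, hx, hW.trans (Submodule.span_mono ?_)⟩
    rintro _ ⟨i, rfl⟩
    exact ⟨i.castSucc, by simp⟩

/-- Normal form of a subspace of `C^d`. -/
theorem exists_coord {d k : ℕ} (W : Submodule ℂ (Fin d → ℂ)) (hW : Module.finrank ℂ W = k) :
    ∃ (π : Fin k ↪ Fin d) (g : Fin k → Fin d → ℂ),
      (∀ q q', g q (π q') = if q = q' then 1 else 0) ∧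
      ∀ w ∈ W, w = ∑ q, w (π q) • g q := by
  classical
  let c : Fin d → Module.Dual ℂ W := fun x => (LinearMap.proj x).comp W.subtype
  have htop : Submodule.span ℂ (Set.range c) = ⊤ := by
    apply Submodule.span_eq_top_of_ne_zero
    intro z hz
    by_contra hcon
    push Not at hcon
    apply hz
    apply Subtype.ext
    funext x
    exact hcon (c x) ⟨x, rfl⟩
  obtain ⟨κ, a, ha, hsp, hli⟩ := exists_linearIndependent' ℂ c
  rw [htop] at hsp
  let b : Module.Basis κ ℂ (Module.Dual ℂ W) := Module.Basis.mk hli hsp.ge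
  haveI : Fintype κ := Fintype.ofInjective a ha
  have hcard : Fintype.card κ = k := by
    rw [← Module.finrank_eq_card_basis b, Subspace.dual_finrank_eq, hW]
  let e : Fin k ≃ κ := (Fintype.equivFinOfCardEq hcard).symm
  let π : Fin k ↪ Fin d := ⟨fun q => a (e q), ha.comp e.injective⟩
  let L : W →ₗ[ℂ] (Fin k → ℂ) := LinearMap.pi fun q => c (π q)
  have hLinj : Function.Injective L := by
    rw [← LinearMap.ker_eq_bot, LinearMap.ker_eq_bot']
    intro w hw
    have hall : ∀ φ : Module.Dual ℂ W, φ w = 0 := by
      intro φ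
      have hφ : φ ∈ Submodule.span ℂ (Set.range (c ∘ a)) := by rw [hsp]; exact Submodule.mem_top
      induction hφ using Submodule.span_induction with
      | mem x hx =>
        obtain ⟨t, rfl⟩ := hx
        have := congrFun hw (e.symm t)
        simpa [L, π] using this
      | zero => rfl
      | add x y _ _ hx hy => rw [LinearMap.add_apply, hx, hy, add_zero]
      | smul t x _ hx => rw [LinearMap.smul_apply, hx, smul_zero]
    exact (Module.forall_dual_apply_eq_zero_iff ℂ w).mp hall
  have hfin : Module.finrank ℂ W = Module.finrank ℂ (Fin k → ℂ) := by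
    rw [hW, Module.finrank_fin_fun]
  let E : W ≃ₗ[ℂ] (Fin k → ℂ) := LinearEquiv.ofInjectiveOfFinrankEq L hLinj hfin
  have hE : ∀ w : W, E w = L w := fun w => rfl
  refine ⟨π, fun q => (E.symm (Pi.single q 1) : W), ?_, ?_⟩
  · intro q q'
    have h1 : L (E.symm (Pi.single q 1)) q' = (Pi.single q 1 : Fin k → ℂ) q' := by
      rw [← hE, E.apply_symm_apply]
    have h2 : L (E.symm (Pi.single q 1)) q' =
        ((E.symm (Pi.single q 1) : W) : Fin d → ℂ) (π q') := rfl
    change ((E.symm (Pi.single q 1) : W) : Fin d → ℂ) (π q') = _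
    rw [← h2, h1, Pi.single_apply]
    by_cases h : q = q'
    · rw [if_pos h, if_pos h.symm]
    · rw [if_neg h, if_neg (Ne.symm h)]
  · intro w hw
    have h1 : (⟨w, hw⟩ : W) = ∑ q, w (π q) • E.symm (Pi.single q 1) := by
      apply E.injective
      rw [map_sum]
      simp only [map_smul, E.apply_symm_apply]
      funext q'
      rw [hE]
      simp [L, c, Finset.sum_apply, Pi.single_apply]
    have h2 := congrArg (fun t : W => (t : Fin d → ℂ)) h1
    simpa using h2

/-- PROOF.  `A i` := any subspace of dimension `r i` containing the vectors `p.1 i q`, `q < r_i`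
(their span has dimension `≤ r i ≤ m i`; `Submodule.exists_…` or extend a basis);
`tens p = ∑ q, p.2 q • decomposable (fun i => p.1 i (q i))`. -/
theorem tens_mem {m r : Fin n → ℕ} (hrm : ∀ i, r i ≤ m i) (p : Pt m r) :
    tens p ∈ SubspaceCone m r := by
  classical
  have hex : ∀ i, ∃ A : Submodule ℂ (Fin (m i) → ℂ),
      Submodule.span ℂ (Set.range (p.1 i)) ≤ A ∧ Module.finrank ℂ A = r i := by
    intro i
    apply exists_extend _ _ (hrm i)
    have := finrank_range_le_card (R := ℂ) (p.1 i)
    rwa [Fintype.card_fin] at this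
  choose A hA1 hA2 using hex
  refine ⟨A, hA2, ?_⟩
  have : tens p = ∑ q, p.2 q • decomposable (fun i => p.1 i (q i)) := by
    funext y
    simp [tens, decomposable, Finset.sum_apply]
  rw [this]
  apply Submodule.sum_mem
  intro q _
  apply Submodule.smul_mem
  apply Submodule.subset_span
  exact ⟨_, fun i => hA1 i (Submodule.subset_span ⟨q i, rfl⟩), rfl⟩

/-- Normal form.  PROOF.  Let `A` be as in the definition of the cone.  `coord`-type statement:
an `r`-dimensional subspace of `C^m` has `r` coordinates `π` and a basis `g` with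
`g q (π q') = [q = q']` (choose `r` coordinates such that the projection of `A i` is bijective, take
the inverse image of the standard basis).  Every `decomposable v` with `v i ∈ A i` is
`tens (g, q ↦ ∏ i, v i (π i (q i)))` because `v i = ∑ q, v i (π i q) • g i q`; and `tens (g, ·)` is
linear, so the span consists of such tensors. -/
theorem exists_normal {m r : Fin n → ℕ} {T : Arr m} (h : T ∈ SubspaceCone m r) :
    ∃ (π : ∀ i, Fin (r i) ↪ Fin (m i)) (p : Pt m r),
      (∀ i q q', p.1 i q (π i q') = if q = q' then 1 else 0) ∧ T = tens p := by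
  classical
  obtain ⟨A, hA, hT⟩ := h
  choose π g hg hw using fun i => exists_coord (A i) (hA i)
  let Φ : ((∀ i, Fin (r i)) → ℂ) →ₗ[ℂ] Arr m :=
    { toFun := fun c => tens ((g, c) : Pt m r)
      map_add' := fun c d => by
        funext y
        simp [tens, add_mul, Finset.sum_add_distrib]
      map_smul' := fun t c => by
        funext y
        simp [tens, mul_assoc, Finset.mul_sum] }
  have hle : Submodule.span ℂ {S : Arr m | ∃ v : ∀ i, Fin (m i) → ℂ, (∀ i, v i ∈ A i) ∧
      S = decomposable v} ≤ LinearMap.range Φ := by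
    rw [Submodule.span_le]
    rintro _ ⟨v, hv, rfl⟩
    refine ⟨fun q => ∏ i, v i (π i (q i)), ?_⟩
    funext y
    change tens ((g, fun q => ∏ i, v i (π i (q i))) : Pt m r) y = decomposable v y
    have h1 : ∀ i, v i (y i) = ∑ q, v i (π i q) * g i q (y i) := by
      intro i
      have := congrFun (hw i (v i) (hv i)) (y i)
      rw [this]
      simp [Finset.sum_apply]
    unfold tens decomposable
    simp only [h1]
    rw [Finset.prod_univ_sum, Fintype.piFinset_univ]
    refine Finset.sum_congr rfl fun q _ => ?_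
    rw [Finset.prod_mul_distrib]
  obtain ⟨c, hc⟩ := hle hT
  exact ⟨π, (g, c), hg, hc.symm⟩

end Pool.Agent.SV48
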