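import Pool.Agent.SV48.Defs

/-! Smaller formats. -/

namespace Pool.Agent.SV48

open Finset

variable {n : ℕ}

/-- PROOF.  Restriction `ρ : Arr m' → Arr m`, `(ρ f) y = f (fun i => Fin.castLE (hm i) (y i))` is
linear and surjective; the point `p` goes to `(fun i q x => p.1 i q (Fin.castLE (hm i) x), p.2)`;
`ρ (coreV p q) = coreV p' q` and `ρ (lineV p i x j)` is `lineV p' i ⟨x, _⟩ j` if
`(x : ℕ) < m i` and `0` otherwise. -/
theorem restrict {m m' r : Fin n → ℕ} (hm : ∀ i, m i ≤ m' i) {ι : Type*}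
    (h : ∃ θ : ι → Pt m' r, Tan θ = ⊤) : ∃ θ : ι → Pt m r, Tan θ = ⊤ := by
  classical
  obtain ⟨θ, hθ⟩ := h
  set c : (∀ i, Fin (m i)) → ∀ i, Fin (m' i) := fun y i => Fin.castLE (hm i) (y i) with hc
  have hcinj : Function.Injective c := by
    intro y z hyz
    funext i
    have h1 : Fin.castLE (hm i) (y i) = Fin.castLE (hm i) (z i) := congrFun hyz i
    exact Fin.castLE_injective (hm i) h1
  have hsurj : Function.Surjective (LinearMap.funLeft ℂ ℂ c) :=
    LinearMap.funLeft_surjective_of_injective ℂ ℂ c hcinj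
  refine ⟨fun t => (fun i q x => (θ t).1 i q (Fin.castLE (hm i) x), (θ t).2), ?_⟩
  rw [eq_top_iff, ← LinearMap.range_eq_top.2 hsurj, ← Submodule.map_top, ← hθ]
  unfold Tan
  rw [Submodule.map_span, Submodule.span_le]
  rintro _ ⟨V, hV | hV, rfl⟩
  · obtain ⟨t, q, rfl⟩ := hV
    apply Submodule.subset_span
    left
    refine ⟨t, q, ?_⟩
    funext y
    rfl
  · obtain ⟨t, i, x, j, rfl⟩ := hV
    by_cases hx : (x : ℕ) < m i
    · apply Submodule.subset_span
      right
      refine ⟨t, i, ⟨x, hx⟩, j, ?_⟩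
      funext y
      have hiff : (Fin.castLE (hm i) (y i) = x) ↔ (y i = ⟨x, hx⟩) := by
        rw [Fin.ext_iff, Fin.ext_iff]
        rfl
      change (if Fin.castLE (hm i) (y i) = x then _ else _) = (if y i = ⟨x, hx⟩ then _ else _)
      by_cases hy : y i = ⟨x, hx⟩
      · rw [if_pos hy, if_pos (hiff.2 hy)]
      · rw [if_neg hy, if_neg (fun h => hy (hiff.1 h))]
    · have hz : (LinearMap.funLeft ℂ ℂ c) (lineV (θ t) i x j) = 0 := by
        funext y
        change (if Fin.castLE (hm i) (y i) = x then _ else _) = (0 : ℂ)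
        rw [if_neg]
        intro hy
        apply hx
        rw [← hy]
        exact (y i).2
      rw [hz]
      exact Submodule.zero_mem _

end Pool.Agent.SV48
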