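import Pool.Agent.SV48.Glue
import Pool.Agent.SV48.ClusterB

/-! `N` clusters in direction `u` that are transversal to two coordinate subspaces. -/

namespace Pool.Agent.SV48

open Finset

variable {n : ℕ}

/-- The vectors of the condition: lines and coordinate vectors. -/
private def trVec {a r : Fin n → ℕ} (u : Fin n) (P : (∀ i, Fin (a i)) → Prop) (N : ℕ) :
    (Fin N × Fin (a u) × Fin (r u)) ⊕ {z : ∀ i, Fin (a i) // P z} →
      (Fin N → Pt a r) → (∀ i, Fin (a i)) → ℂ
  | Sum.inl k, θ => lineV (θ k.1) u k.2.1 k.2.2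
  | Sum.inr z, _ => (Pi.single z.1 1 : Arr a)

private theorem trVec_LP {a r : Fin n → ℕ} (u : Fin n) (P : (∀ i, Fin (a i)) → Prop) (N : ℕ)
    (k : (Fin N × Fin (a u) × Fin (r u)) ⊕ {z : ∀ i, Fin (a i) // P z})
    (y : ∀ i, Fin (a i)) : LP (fun θ : Fin N → Pt a r => trVec u P N k θ y) := by
  rcases k with k | z
  · exact LP_lineV k.1 u k.2.1 k.2.2 y
  · exact LP.const _

private theorem trVec_top {a r δ : Fin n → ℕ} {u v : Fin n} (huv : u ≠ v)
    (hr : ∀ j, 1 ≤ r j) (hred : r u ≤ ∏ j ∈ univ.erase u, r j)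
    (hδ : ∀ j, cd (a j) (r j) * r j ≤ a j + δ j) (hv : δ v = r v)
    (Sv : Finset (Fin (a v))) (N : ℕ)
    (hNv : Sv.Nonempty → (Sv.card + r v) * ∏ j ∈ (univ.erase u).erase v, (a j + δ j) ≤ N * r u) :
    ∃ θ : Fin N → Pt a r, Submodule.span ℂ
      (Set.range fun k => trVec u (fun z : ∀ i, Fin (a i) => z v ∉ Sv) N k θ) = ⊤ := by
  classical
  have hS : ∀ j, j ≠ v → Function.update (fun j => (univ : Finset (Fin (a j)))) v Sv j = univ := by
    intro j hj
    rw [Function.update_of_ne hj]
  have hSv : Function.update (fun j => (univ : Finset (Fin (a j)))) v Sv v = Sv :=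
    Function.update_self _ _ _
  obtain ⟨p, hp⟩ := clusterB (a := a) (r := r) (δ := δ) u v huv hr hred
    (Function.update (fun j => (univ : Finset (Fin (a j)))) v Sv)
    (by
      intro j _ hjv
      rw [hS j hjv, card_univ, Fintype.card_fin]
      exact hδ j)
    hv.ge N
    (by
      intro hne
      have h1 := hne v huv.symm
      rw [hSv] at h1
      have h2 : v ∈ univ.erase u := mem_erase.2 ⟨huv.symm, mem_univ v⟩
      rw [← mul_prod_erase _ _ h2, hSv, hv]
      refine le_trans (le_of_eq ?_) (hNv h1)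
      congr 1
      refine prod_congr rfl fun j hj => ?_
      rw [hS j (mem_erase.1 hj).1, card_univ, Fintype.card_fin])
  refine ⟨p, ?_⟩
  rw [eq_top_iff]
  intro f _
  have hf : f = ∑ y, f y • (Pi.single y 1 : Arr a) := by
    funext z
    rw [Finset.sum_apply]
    simp [Pi.single_apply]
  rw [hf]
  refine Submodule.sum_mem _ fun y _ => Submodule.smul_mem _ _ ?_
  by_cases hy : y v ∈ Sv
  · have h3 := hp y (by
      intro j _
      by_cases hjv : j = v
      · subst hjv
        rw [hSv]
        exact hy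
      · rw [hS j hjv]
        exact mem_univ _)
    refine Submodule.span_mono ?_ h3
    rintro _ ⟨k, rfl⟩
    exact ⟨Sum.inl (k.1, y u, k.2), rfl⟩
  · exact Submodule.subset_span ⟨Sum.inr ⟨y, hy⟩, rfl⟩

/-- Restriction to the slice `y u = x`. -/
private noncomputable def trSlice {a : Fin n → ℕ} (u : Fin n) (x : Fin (a u)) :
    Arr a →ₗ[ℂ] Arr a where
  toFun f := fun z => if z u = x then f z else 0
  map_add' f g := by
    funext z
    by_cases h : z u = x <;> simp [h]
  map_smul' c f := by
    funext z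
    by_cases h : z u = x <;> simp [h]

private theorem trSlice_apply {a : Fin n → ℕ} (u : Fin n) (x : Fin (a u)) (f : Arr a)
    (z : ∀ i, Fin (a i)) : trSlice u x f z = if z u = x then f z else 0 := rfl

private theorem trVec_slice {a r : Fin n → ℕ} (u : Fin n) (P : (∀ i, Fin (a i)) → Prop) (N : ℕ)
    (θ : Fin N → Pt a r)
    (h : Submodule.span ℂ (Set.range fun k => trVec u P N k θ) = ⊤) (y : ∀ i, Fin (a i)) :
    (Pi.single y 1 : Arr a) ∈ Submodule.span ℂ
        ({V | ∃ t j, V = lineV (θ t) u (y u) j} ∪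
          {V | ∃ z : ∀ j, Fin (a j), z u = y u ∧ P z ∧ V = Pi.single z 1}) := by
  classical
  have h1 : trSlice u (y u) (Pi.single y 1 : Arr a) = Pi.single y 1 := by
    funext z
    rw [trSlice_apply]
    by_cases hz : z = y
    · subst hz
      simp
    · rw [Pi.single_eq_of_ne hz]
      simp
  have h2 : (Pi.single y 1 : Arr a) ∈
      Submodule.span ℂ (Set.range fun k => trVec u P N k θ) := by
    rw [h]
    exact Submodule.mem_top
  have h3 := Submodule.mem_map_of_mem (f := trSlice u (y u)) h2
  rw [h1, Submodule.map_span] at h3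
  refine Submodule.span_le.2 ?_ h3
  rintro _ ⟨_, ⟨k, rfl⟩, rfl⟩
  rcases k with k | z
  · by_cases hk : k.2.1 = y u
    · have h4 : trSlice u (y u) (trVec u P N (Sum.inl k) θ) =
          lineV (θ k.1) u (y u) k.2.2 := by
        funext z
        rw [trSlice_apply]
        show (if z u = y u then lineV (θ k.1) u k.2.1 k.2.2 z else 0) = _
        rw [hk]
        by_cases hz : z u = y u
        · rw [if_pos hz]
        · rw [if_neg hz]
          unfold lineV
          rw [if_neg hz]
      show trSlice u (y u) (trVec u P N (Sum.inl k) θ) ∈ _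
      rw [h4]
      exact Submodule.subset_span (Or.inl ⟨k.1, k.2.2, rfl⟩)
    · have h4 : trSlice u (y u) (trVec u P N (Sum.inl k) θ) = 0 := by
        funext z
        rw [trSlice_apply]
        show (if z u = y u then lineV (θ k.1) u k.2.1 k.2.2 z else 0) = _
        by_cases hz : z u = y u
        · rw [if_pos hz]
          unfold lineV
          rw [if_neg (by rw [hz]; exact fun h => hk h.symm)]
          rfl
        · rw [if_neg hz]
          rfl
      show trSlice u (y u) (trVec u P N (Sum.inl k) θ) ∈ _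
      rw [h4]
      exact Submodule.zero_mem _
  · by_cases hz : z.1 u = y u
    · have h4 : trSlice u (y u) (trVec u P N (Sum.inr z : (Fin N × Fin (a u) × Fin (r u)) ⊕ _) θ) =
          Pi.single z.1 1 := by
        funext x
        rw [trSlice_apply]
        show (if x u = y u then (Pi.single z.1 1 : Arr a) x else 0) = _
        by_cases hx : x = z.1
        · rw [hx, if_pos hz]
        · rw [Pi.single_eq_of_ne hx]
          simp
      show trSlice u (y u) (trVec u P N (Sum.inr z) θ) ∈ _
      rw [h4]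
      exact Submodule.subset_span (Or.inr ⟨z.1, hz, z.2, rfl⟩)
    · have h4 : trSlice u (y u) (trVec u P N (Sum.inr z : (Fin N × Fin (a u) × Fin (r u)) ⊕ _) θ) =
          0 := by
        funext x
        rw [trSlice_apply]
        show (if x u = y u then (Pi.single z.1 1 : Arr a) x else 0) = _
        by_cases hx : x = z.1
        · rw [hx, if_neg hz]
          rfl
        · rw [Pi.single_eq_of_ne hx]
          simp
      show trSlice u (y u) (trVec u P N (Sum.inr z) θ) ∈ _
      rw [h4]
      exact Submodule.zero_mem _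

/-- PROOF.  `glue` with `E = Fin N → Pt a r`, `C = Bool`, `Y c = ∀ i, Fin (a i)`,
`K true = (Fin N × Fin (a u) × Fin (r u)) ⊕ {z : ∀ i, Fin (a i) // z v ∉ Sv}` with vectors
`Sum.inl (t, x, j) ↦ lineV (θ t) u x j`, `Sum.inr z ↦ Pi.single z 1` (constant in `θ`), and
`K false` the same with `z w ∉ Sw`.  The vectors are polynomial along lines by `LP_lineV` and
`LP.const`.  The condition `true` can be satisfied: `clusterB` with `i = u`, Vandermonde mode `v`,
`S v = Sv` and `S j = univ` for `j ≠ v` (`Function.update (fun _ => univ) v Sv`), `|univ| = a j`;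
then every `Pi.single y 1` is in the span (if `y v ∈ Sv` by the lemma, otherwise it is one of the
`Sum.inr` vectors), so the span is `⊤`.  Same for `false`, with Vandermonde mode `w`.
Let `θ` satisfy both.  SLICE: the linear map `Π f = fun z => if z u = x then f z else 0` with
`x = y u` maps `Pi.single y 1` to itself, `lineV (θ t) u x' j` to itself if `x' = x` and to `0`
otherwise (up to the value of the `if`), `Pi.single z 1` to itself if `z u = x` and to `0`
otherwise; apply `Submodule.mem_map_of_mem`/`Submodule.map_span` to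
`Pi.single y 1 ∈ ⊤ = span …`. -/
theorem trans {a r δ : Fin n → ℕ} {u v w : Fin n} (huv : u ≠ v) (huw : u ≠ w) (hvw : v ≠ w)
    (hr : ∀ j, 1 ≤ r j) (hred : r u ≤ ∏ j ∈ univ.erase u, r j)
    (hδ : ∀ j, cd (a j) (r j) * r j ≤ a j + δ j) (hv : δ v = r v) (hw : δ w = r w)
    (Sv : Finset (Fin (a v))) (Sw : Finset (Fin (a w))) (N : ℕ)
    (hNv : Sv.Nonempty → (Sv.card + r v) * ∏ j ∈ (univ.erase u).erase v, (a j + δ j) ≤ N * r u)
    (hNw : Sw.Nonempty → (Sw.card + r w) * ∏ j ∈ (univ.erase u).erase w, (a j + δ j) ≤ N * r u) :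
    ∃ p : Fin N → Pt a r, ∀ y : ∀ j, Fin (a j),
      (Pi.single y 1 : Arr a) ∈ Submodule.span ℂ
        ({V | ∃ t j, V = lineV (p t) u (y u) j} ∪
          {V | ∃ z : ∀ j, Fin (a j), z u = y u ∧ z v ∉ Sv ∧ V = Pi.single z 1}) ∧
      (Pi.single y 1 : Arr a) ∈ Submodule.span ℂ
        ({V | ∃ t j, V = lineV (p t) u (y u) j} ∪
          {V | ∃ z : ∀ j, Fin (a j), z u = y u ∧ z w ∉ Sw ∧ V = Pi.single z 1}) := by
  classical
  have _ := hvw
  let P : Bool → (∀ i, Fin (a i)) → Prop := fun c z => if c then z v ∉ Sv else z w ∉ Sw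
  obtain ⟨θ, hθ⟩ := glue (E := Fin N → Pt a r) (C := Bool) (Y := fun _ => ∀ i, Fin (a i))
    (K := fun c => (Fin N × Fin (a u) × Fin (r u)) ⊕ {z : ∀ i, Fin (a i) // P c z})
    (fun c => trVec u (P c) N) (fun c k y => trVec_LP u (P c) N k y) (by
      intro c
      cases c
      · exact trVec_top huw hr hred hδ hw Sw N hNw
      · exact trVec_top huv hr hred hδ hv Sv N hNv)
  refine ⟨θ, fun y => ⟨?_, ?_⟩⟩
  · exact trVec_slice u (fun z => z v ∉ Sv) N θ (hθ true) y
  · exact trVec_slice u (fun z => z w ∉ Sw) N θ (hθ false) y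

end Pool.Agent.SV48
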