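import Pool.Agent.SV48.Fill
import Pool.Agent.SV48.Assemble
import Pool.Agent.SV48.Restrict
import Pool.Agent.SV48.NumF

/-! Few general points whose tangent spaces span. -/

namespace Pool.Agent.SV48

open Finset

variable {n : ℕ}

/-- PROOF.  `n ≥ 3` from `hL3`.  `numF` gives `b, s, a`; `fill` (with `N i = (B i - 1) * s`,
`B i = if i ∈ L then b else 1`; only the `N i` with `i ∈ L` enter `H`) gives
`FillsBlock a r (fun i => (B i - 1) * s) s`; `assemble` gives points in the format `B i * a i`,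
`(∏ B i) * s = b ^ |L| * s` of them; `restrict` to the format `m` (`m i ≤ B i * a i`). -/
theorem upper {m r : Fin n → ℕ} {ε : ℝ} (hε : 0 < ε) (hε1 : ε ≤ 1) (hr : ∀ i, 1 ≤ r i)
    (hred : ∀ i, r i ≤ ∏ j ∈ univ.erase i, r j)
    (L : Finset (Fin n)) (hL3 : 3 ≤ L.card)
    (hbig : ∀ i ∈ L, (20 * (n : ℝ) / ε) ^ 2 * r i ≤ m i) (hfull : ∀ i, i ∉ L → r i = m i) :
    ∃ (S : ℕ) (θ : Fin S → Pt m r), Tan θ = ⊤ ∧
      (S : ℝ) * coneDim m r ≤ (1 + ε) * ∏ i, (m i : ℝ) := by
  have hn : 3 ≤ n := by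
    have := Finset.card_le_univ L
    rw [Fintype.card_fin] at this
    omega
  obtain ⟨b, s, a, hb, hL, hN, H, hfin⟩ := numF hε hε1 hr hred L hL3 hbig hfull
  set B : Fin n → ℕ := fun i => if i ∈ L then b else 1 with hB
  have hBL : ∀ i ∈ L, B i = b := fun i hi => by rw [hB]; exact if_pos hi
  have hBN : ∀ i, i ∉ L → B i = 1 := fun i hi => by rw [hB]; exact if_neg hi
  have hprod : ∏ i, B i = b ^ L.card := by
    rw [hB, Finset.prod_ite, Finset.prod_const_one, mul_one, Finset.prod_const]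
    congr 2
    ext j
    simp
  have hfb : FillsBlock a r (fun i => (B i - 1) * s) s := by
    refine fill hn hb hr hred L hL3 (fun j hj => (hL j hj).2) hN ?_
    have e : ∑ i ∈ L, (((B i - 1) * s : ℕ) : ℝ) * r i * (a i + r i) =
        ∑ i ∈ L, (((b - 1) * s : ℕ) : ℝ) * r i * (a i + r i) :=
      Finset.sum_congr rfl fun i hi => by rw [hBL i hi]
    rw [e]
    exact H
  have hθ := restrict (m := m) (fun i => by
    by_cases hi : i ∈ L
    · rw [hBL i hi]; exact (hL i hi).1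
    · rw [hBN i hi, one_mul, hN i hi, hfull i hi]) (assemble hfb)
  obtain ⟨θ, hθ⟩ := hθ
  refine ⟨(∏ i, B i) * s, θ, hθ, ?_⟩
  rw [hprod]
  exact hfin

end Pool.Agent.SV48
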