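import Pool.Agent.SV48.Defs

/-! Vandermonde vectors supported on a finite set. -/

namespace Pool.Agent.SV48

open Finset

/-- The Vandermonde vector with node `k`, supported on `S`. -/
def vm {a : ℕ} (S : Finset (Fin a)) (k : ℕ) : Fin a → ℂ :=
  fun x => if x ∈ S then (k : ℂ) ^ (S.filter (· < x)).card else 0

private theorem vm_rank_lt {a : ℕ} (S : Finset (Fin a)) {z w : Fin a} (hz : z ∈ S) (hzw : z < w) :
    (S.filter (· < z)).card < (S.filter (· < w)).card := by
  apply card_lt_card
  rw [ssubset_iff_of_subset]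
  · exact ⟨z, mem_filter.2 ⟨hz, hzw⟩, fun h => lt_irrefl _ (mem_filter.1 h).2⟩
  · intro y hy
    rw [mem_filter] at hy ⊢
    exact ⟨hy.1, hy.2.trans hzw⟩

private theorem vm_rank_inj {a : ℕ} (S : Finset (Fin a)) {z w : Fin a} (hz : z ∈ S) (hw : w ∈ S)
    (h : (S.filter (· < z)).card = (S.filter (· < w)).card) : z = w := by
  rcases lt_trichotomy z w with h1 | h1 | h1
  · exact absurd h (vm_rank_lt S hz h1).ne
  · exact h1
  · exact absurd h (vm_rank_lt S hw h1).ne'

private theorem vm_rank_card {a : ℕ} (S : Finset (Fin a)) {z : Fin a} (hz : z ∈ S) :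
    (S.filter (· < z)).card < S.card := by
  apply card_lt_card
  rw [ssubset_iff_of_subset (filter_subset _ _)]
  exact ⟨z, hz, fun h => lt_irrefl _ (mem_filter.1 h).2⟩

/-- Any `|S|` Vandermonde vectors with distinct nodes span the coordinate space of `S`.

PROOF.  If `Pi.single x 1` is not in the span `W`, there is a linear functional vanishing on `W`
and not at `Pi.single x 1` (`Submodule.exists_le_ker_of_notMem` or
`Submodule.exists_dual_map_eq_bot_of_notMem`), i.e. coefficients `c : Fin a → ℂ` with
`∑ z, c z * vm S k z = 0` for `k ∈ K` and `c x ≠ 0`.  The polynomial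
`∑ z ∈ S, C (c z) * X ^ (S.filter (· < z)).card` has degree `< |S|` and vanishes at the
`|K| ≥ |S|` points `(k : ℂ)`, hence it is zero (`Polynomial.eq_zero_of_natDegree_lt_card_of_eval_eq_zero`
or similar); its coefficient of degree `(S.filter (· < x)).card` is `c x`, because
`z ↦ (S.filter (· < z)).card` is strictly monotone on `S`.  Alternative: `Matrix.det_vandermonde`. -/
theorem vm_span {a : ℕ} (S : Finset (Fin a)) (K : Finset ℕ) (h : S.card ≤ K.card)
    (x : Fin a) (hx : x ∈ S) :
    (Pi.single x 1 : Fin a → ℂ) ∈ Submodule.span ℂ ((fun k => vm S k) '' (K : Set ℕ)) := by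
  classical
  by_contra hcon
  obtain ⟨f, hfx, hfW⟩ := Submodule.exists_le_ker_of_notMem hcon
  have hf : ∀ v : Fin a → ℂ, f v = ∑ z, v z * f (Pi.single z 1) := by
    intro v
    rw [LinearMap.pi_apply_eq_sum_univ f v]
    apply sum_congr rfl
    intro z _
    rw [smul_eq_mul]
    congr 2
    ext j
    rw [Pi.single_apply]
    by_cases hj : j = z
    · rw [if_pos hj, if_pos hj.symm]
    · rw [if_neg hj, if_neg fun h => hj h.symm]
  set P : Polynomial ℂ := ∑ z ∈ S, Polynomial.C (f (Pi.single z 1)) *
    Polynomial.X ^ (S.filter (· < z)).card with hP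
  have hScard : 0 < S.card := card_pos.2 ⟨x, hx⟩
  have hdeg : P.natDegree < S.card := by
    rw [hP]
    apply lt_of_le_of_lt (Polynomial.natDegree_sum_le_of_forall_le (n := S.card - 1) _ _ ?_)
      (by omega)
    intro z hz
    refine (Polynomial.natDegree_C_mul_X_pow_le _ _).trans ?_
    have := vm_rank_card S hz
    omega
  have hP0 : P = 0 := by
    apply Polynomial.eq_zero_of_natDegree_lt_card_of_eval_eq_zero' P
      (K.image (fun k : ℕ => (k : ℂ)))
    · intro y hy
      obtain ⟨k, hk, rfl⟩ := mem_image.1 hy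
      have h1 : vm S k ∈ Submodule.span ℂ ((fun k => vm S k) '' (K : Set ℕ)) :=
        Submodule.subset_span ⟨k, hk, rfl⟩
      have h2 : f (vm S k) = 0 := hfW h1
      rw [hf] at h2
      rw [hP, Polynomial.eval_finsetSum, ← h2, ← sum_subset (subset_univ S)]
      · apply sum_congr rfl
        intro z hz
        rw [Polynomial.eval_mul, Polynomial.eval_C, Polynomial.eval_pow, Polynomial.eval_X, vm,
          if_pos hz, mul_comm]
      · intro z _ hz
        rw [vm, if_neg hz, zero_mul]
    · rw [card_image_of_injective _ Nat.cast_injective]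
      omega
  have hcoef : P.coeff (S.filter (· < x)).card = f (Pi.single x 1) := by
    rw [hP, Polynomial.finsetSum_coeff, sum_eq_single x]
    · rw [Polynomial.coeff_C_mul, Polynomial.coeff_X_pow, if_pos rfl, mul_one]
    · intro z hz hzx
      rw [Polynomial.coeff_C_mul, Polynomial.coeff_X_pow,
        if_neg fun h => hzx (vm_rank_inj S hz hx h.symm), mul_zero]
    · intro h
      exact absurd hx h
  rw [hP0, Polynomial.coeff_zero] at hcoef
  exact hfx hcoef.symm

end Pool.Agent.SV48
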